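import Pool.Agent.Y603.CC.Master

/-!
# Inverters are sensitive to every block of input bits
-/

set_option autoImplicit false

namespace Pool.Agent.Y603.CC

open Finset Pool.Agent.Y603.MS

variable {N m : ℕ}

lemma hd_self {m : ℕ} (x : Fin m → Bool) : hd x x = 0 := by
  unfold hd
  simp

lemma hd_tri {m : ℕ} (x y z : Fin m → Bool) : hd x z ≤ hd x y + hd y z := by
  unfold hd
  refine le_trans (Finset.card_le_card ?_) (Finset.card_union_le _ _)
  intro i hi
  have hi' := (Finset.mem_filter.1 hi).2
  rw [Finset.mem_union, Finset.mem_filter, Finset.mem_filter]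
  by_contra hcon
  push Not at hcon
  exact hi' ((hcon.1 (Finset.mem_univ _)).trans (hcon.2 (Finset.mem_univ _)))

/-- The bits of `z`, except that those in `J` are replaced by the bits of `v`. -/
def mix (J : Finset (Fin N)) (z v : Fin N → Bool) : Fin N → Bool :=
  fun i => if i ∈ J then v i else z i

/-- The bit `i` is flipped. -/
def flip1 (i : Fin N) (z : Fin N → Bool) : Fin N → Bool := Function.update z i (!z i)

lemma mix_mix (J : Finset (Fin N)) (z v : Fin N → Bool) : mix J (mix J z v) (mix J v z) = z := by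
  funext i
  unfold mix
  by_cases h : i ∈ J
  · simp [h]
  · simp [h]

lemma mix_mix' (J : Finset (Fin N)) (z v u : Fin N → Bool) : mix J (mix J z v) u = mix J z u := by
  funext i
  unfold mix
  by_cases h : i ∈ J
  · simp [h]
  · simp [h]

/-- Exchanging the bits in `J`. -/
lemma sum_swap (J : Finset (Fin N)) (G : (Fin N → Bool) → (Fin N → Bool) → ℕ) :
    ∑ z, ∑ v, G (mix J z v) (mix J v z) = ∑ z, ∑ v, G z v := by
  rw [← Fintype.sum_prod_type', ← Fintype.sum_prod_type']
  let e : (Fin N → Bool) × (Fin N → Bool) ≃ (Fin N → Bool) × (Fin N → Bool) :=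
    { toFun := fun p => (mix J p.1 p.2, mix J p.2 p.1)
      invFun := fun p => (mix J p.1 p.2, mix J p.2 p.1)
      left_inv := fun p => Prod.ext (mix_mix J _ _) (mix_mix J _ _)
      right_inv := fun p => Prod.ext (mix_mix J _ _) (mix_mix J _ _) }
  exact Equiv.sum_comp e fun p => G p.1 p.2

lemma card_pts : Fintype.card (Fin N → Bool) = 2 ^ N := by
  rw [Fintype.card_fun, Fintype.card_bool, Fintype.card_fin]

open Classical in
/-- The number of pairs in `S` which agree outside of `J`. -/
lemma quad (S : Finset (Fin N → Bool)) (J : Finset (Fin N)) :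
    S.card ^ 2 ≤ ∑ z, ∑ v, if z ∈ S ∧ mix J z v ∈ S then 1 else 0 := by
  set Q := ∑ z, ∑ v, if z ∈ S ∧ mix J z v ∈ S then 1 else 0 with hQ
  let f : (Fin N → Bool) → ℕ := fun z => ∑ v, if mix J z v ∈ S then 1 else 0
  have h1 : ∑ z, f z = 2 ^ N * S.card := by
    have h := sum_swap J fun a _ => if a ∈ S then 1 else 0
    simp only [f]
    rw [h]
    simp only [Finset.sum_const, Finset.card_univ, card_pts, smul_eq_mul]
    rw [← Finset.mul_sum, ← Finset.card_filter]
    congr 2
    ext z
    simp
  have h2 : ∑ z, f z ^ 2 = 2 ^ N * Q := by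
    have h := sum_swap J fun a _ => ∑ v, if a ∈ S ∧ mix J a v ∈ S then 1 else 0
    have h3 : ∀ z, f z ^ 2 = ∑ v₂, ∑ v, if mix J z v₂ ∈ S ∧ mix J (mix J z v₂) v ∈ S then 1
        else 0 := by
      intro z
      simp only [f]
      rw [pow_two, Finset.sum_mul_sum]
      refine Finset.sum_congr rfl fun v₂ _ => Finset.sum_congr rfl fun v _ => ?_
      rw [mix_mix']
      by_cases h4 : mix J z v₂ ∈ S <;> by_cases h5 : mix J z v ∈ S <;> simp [h4, h5]
    rw [Finset.sum_congr rfl fun z _ => h3 z, h]
    simp only [Finset.sum_const, Finset.card_univ, card_pts, smul_eq_mul]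
    rw [← Finset.mul_sum]
  have h3 : (∑ z, f z) ^ 2 ≤ 2 ^ N * ∑ z, f z ^ 2 := by
    have := sq_sum_le_card_mul_sum_sq (s := (univ : Finset (Fin N → Bool))) (f := f)
    rwa [Finset.card_univ, card_pts] at this
  rw [h1, h2] at h3
  have h4 : (2 ^ N * 2 ^ N) * S.card ^ 2 ≤ (2 ^ N * 2 ^ N) * Q := by
    calc (2 ^ N * 2 ^ N) * S.card ^ 2 = (2 ^ N * S.card) ^ 2 := by ring
      _ ≤ 2 ^ N * (2 ^ N * Q) := h3
      _ = _ := by ring
  exact Nat.le_of_mul_le_mul_left h4 (by positivity)

/-- The sum over all points of the number of output bits that change if the bit `i` is flipped. -/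
def flips (C : (Fin N → Bool) → Fin m → Bool) (i : Fin N) : ℕ := ∑ z, hd (C z) (C (flip1 i z))

lemma flip1_flip1 (i : Fin N) (z : Fin N → Bool) : flip1 i (flip1 i z) = z := by
  unfold flip1
  simp

lemma mix_single (i : Fin N) (a b : Fin N → Bool) :
    mix {i} a b = if a i = b i then a else flip1 i a := by
  funext j
  unfold mix flip1
  by_cases hj : j = i
  · subst hj
    by_cases h : a j = b j
    · simp [h]
    · cases ha : a j <;> cases hb : b j <;> simp_all
  · by_cases h : a i = b i
    · simp [hj, h]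
    · simp [hj, h]

lemma one_block (C : (Fin N → Bool) → Fin m → Bool) (i : Fin N) :
    2 * ∑ a, ∑ b, hd (C a) (C (mix {i} a b)) = 2 ^ N * flips C i := by
  unfold flips
  rw [Finset.mul_sum, Finset.mul_sum]
  refine Finset.sum_congr rfl fun a _ => ?_
  let e : (Fin N → Bool) ≃ (Fin N → Bool) :=
    { toFun := flip1 i
      invFun := flip1 i
      left_inv := flip1_flip1 i
      right_inv := flip1_flip1 i }
  have h1 : ∑ b, hd (C a) (C (mix {i} a b)) = ∑ b, hd (C a) (C (mix {i} a (flip1 i b))) :=
    (Equiv.sum_comp e fun b => hd (C a) (C (mix {i} a b))).symm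
  rw [two_mul]
  nth_rewrite 2 [h1]
  rw [← Finset.sum_add_distrib]
  have h2 : ∀ b, hd (C a) (C (mix {i} a b)) + hd (C a) (C (mix {i} a (flip1 i b))) =
      hd (C a) (C (flip1 i a)) := by
    intro b
    rw [mix_single, mix_single]
    have h3 : flip1 i b i = !b i := by simp [flip1]
    rw [h3]
    by_cases h : a i = b i
    · rw [if_pos h, if_neg (by rw [h]; cases b i <;> simp), hd_self, zero_add]
    · rw [if_neg h, if_pos (by cases ha : a i <;> cases hb : b i <;> simp_all), hd_self, add_zero]
  rw [Finset.sum_congr rfl fun b _ => h2 b, Finset.sum_const, Finset.card_univ, card_pts,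
    smul_eq_mul]

/-- The effect of resampling the bits in `J`. -/
lemma path (C : (Fin N → Bool) → Fin m → Bool) (J : Finset (Fin N)) :
    2 * ∑ z, ∑ v, hd (C z) (C (mix J z v)) ≤ 2 ^ N * ∑ i ∈ J, flips C i := by
  classical
  induction J using Finset.induction_on with
  | empty =>
    have h1 : ∀ z v : Fin N → Bool, mix ∅ z v = z := by
      intro z v
      funext i
      simp [mix]
    simp [h1, hd_self]
  | insert i J hi ih =>
    have h1 : ∀ z v : Fin N → Bool, mix (insert i J) z v =
        mix {i} (mix J z v) (mix J v z) := by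
      intro z v
      funext j
      unfold mix
      by_cases hj : j = i
      · subst hj
        simp [hi]
      · simp [hj]
    have h2 : ∑ z, ∑ v, hd (C z) (C (mix (insert i J) z v)) ≤
        ∑ z, ∑ v, hd (C z) (C (mix J z v)) + ∑ a, ∑ b, hd (C a) (C (mix {i} a b)) := by
      rw [← sum_swap J fun a b => hd (C a) (C (mix {i} a b)), ← Finset.sum_add_distrib]
      refine Finset.sum_le_sum fun z _ => ?_
      rw [← Finset.sum_add_distrib]
      refine Finset.sum_le_sum fun v _ => ?_
      rw [h1]
      exact hd_tri _ _ _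
    rw [Finset.sum_insert hi]
    have h3 := one_block C i
    calc 2 * ∑ z, ∑ v, hd (C z) (C (mix (insert i J) z v))
        ≤ 2 * (∑ z, ∑ v, hd (C z) (C (mix J z v)) + ∑ a, ∑ b, hd (C a) (C (mix {i} a b))) :=
          Nat.mul_le_mul_left _ h2
      _ = 2 * ∑ z, ∑ v, hd (C z) (C (mix J z v)) + 2 * ∑ a, ∑ b, hd (C a) (C (mix {i} a b)) := by
          ring
      _ ≤ 2 ^ N * ∑ i ∈ J, flips C i + 2 ^ N * flips C i := by
          rw [h3]
          exact Nat.add_le_add_right ih _
      _ = _ := by ring

/-- The number of points which agree with `z` on `J`. -/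
lemma card_agree (J : Finset (Fin N)) (z : Fin N → Bool) :
    (univ.filter fun v => mix J z v = z).card * 2 ^ J.card = 2 ^ N := by
  classical
  have h1 : (univ.filter fun v : Fin N → Bool => mix J z v = z) = Fintype.piFinset fun i =>
      if i ∈ J then ({z i} : Finset Bool) else univ := by
    ext v
    simp only [Finset.mem_filter, Finset.mem_univ, true_and, Fintype.mem_piFinset]
    constructor
    · intro h i
      by_cases hi : i ∈ J
      · have := congrFun h i
        unfold mix at this
        rw [if_pos hi] at this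
        simp [hi, this]
      · simp [hi]
    · intro h
      funext i
      unfold mix
      by_cases hi : i ∈ J
      · have := h i
        rw [if_pos hi, Finset.mem_singleton] at this
        rw [if_pos hi, this]
      · rw [if_neg hi]
  rw [h1, Fintype.card_piFinset]
  have h2 : ∀ i, (if i ∈ J then ({z i} : Finset Bool) else univ).card = if i ∈ J then 1 else 2 := by
    intro i
    split_ifs <;> simp
  rw [Finset.prod_congr rfl fun i _ => h2 i]
  have h3 : 2 ^ J.card = ∏ i : Fin N, if i ∈ J then 2 else 1 := by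
    rw [← Finset.prod_const, Finset.prod_ite_mem]
    simp
  rw [h3, ← Finset.prod_mul_distrib]
  have h4 : ∀ i : Fin N, (if i ∈ J then 1 else 2) * (if i ∈ J then 2 else 1) = 2 := by
    intro i
    split_ifs <;> rfl
  rw [Finset.prod_congr rfl fun i _ => h4 i, Finset.prod_const, Finset.card_univ,
    Fintype.card_fin]

open Classical in
/-- **Avalanche.** Let `S` be a set of points such that the values of `C` at different close points
of `S` are far, unless the point is in `Z`. Then `C` is sensitive to the bits in `J`. -/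
theorem avalanche (C : (Fin N → Bool) → Fin m → Bool) (S Z : Finset (Fin N → Bool))
    (J : Finset (Fin N)) (K : ℕ)
    (h : ∀ z ∈ S, ∀ z' ∈ S, z ≠ z' → hd z z' ≤ J.card → hd (C z) (C z') ≤ K → z ∈ Z) :
    2 * K * (S.card ^ 2 * 2 ^ J.card) ≤
      2 * K * (S.card * 2 ^ N + Z.card * 2 ^ N * 2 ^ J.card) +
        2 ^ J.card * 2 ^ N * ∑ i ∈ J, flips C i := by
  have hmix : ∀ z v, hd z (mix J z v) ≤ J.card := by
    intro z v
    unfold hd
    refine Finset.card_le_card ?_
    intro i hi
    have hi' := (Finset.mem_filter.1 hi).2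
    by_contra hJ
    apply hi'
    unfold mix
    rw [if_neg hJ]
  have h1 : ∀ z v, (if z ∈ S ∧ mix J z v ∈ S then 1 else 0) * K ≤
      (if z ∈ S ∧ mix J z v = z then 1 else 0) * K + (if z ∈ Z then 1 else 0) * K +
        hd (C z) (C (mix J z v)) := by
    intro z v
    by_cases h2 : z ∈ S ∧ mix J z v ∈ S
    · by_cases h3 : mix J z v = z
      · rw [if_pos h2, if_pos ⟨h2.1, h3⟩]
        omega
      · by_cases h4 : z ∈ Z
        · rw [if_pos h2, if_neg (fun hh => h3 hh.2), if_pos h4]
          omega
        · have h5 : K < hd (C z) (C (mix J z v)) := by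
            by_contra h6
            exact h4 (h z h2.1 _ h2.2 (fun hh => h3 hh.symm) (hmix z v) (not_lt.1 h6))
          rw [if_pos h2]
          omega
    · rw [if_neg h2]
      simp
  have h2 : (∑ z, ∑ v, if z ∈ S ∧ mix J z v ∈ S then 1 else 0) * K ≤
      (∑ z, ∑ v, if z ∈ S ∧ mix J z v = z then 1 else 0) * K +
        (Z.card * 2 ^ N) * K + ∑ z, ∑ v, hd (C z) (C (mix J z v)) := by
    have h3 : (∑ z : Fin N → Bool, ∑ _v : Fin N → Bool, if z ∈ Z then 1 else 0) =
        Z.card * 2 ^ N := by
      simp only [Finset.sum_const, Finset.card_univ, card_pts, smul_eq_mul]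
      rw [← Finset.mul_sum, ← Finset.card_filter, mul_comm]
      congr 2
      ext z
      simp
    rw [← h3]
    simp only [Finset.sum_mul]
    rw [← Finset.sum_add_distrib, ← Finset.sum_add_distrib]
    refine Finset.sum_le_sum fun z _ => ?_
    rw [← Finset.sum_add_distrib, ← Finset.sum_add_distrib]
    exact Finset.sum_le_sum fun v _ => h1 z v
  have h3 : (∑ z, ∑ v, if z ∈ S ∧ mix J z v = z then 1 else 0) * 2 ^ J.card =
      S.card * 2 ^ N := by
    have h4 : ∀ z, (∑ v, if z ∈ S ∧ mix J z v = z then 1 else 0) * 2 ^ J.card =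
        if z ∈ S then 2 ^ N else 0 := by
      intro z
      by_cases hz : z ∈ S
      · rw [if_pos hz, ← card_agree J z, Finset.card_filter]
        congr 1
        refine Finset.sum_congr rfl fun v _ => ?_
        simp [hz]
      · simp [hz]
    rw [Finset.sum_mul, Finset.sum_congr rfl fun z _ => h4 z, ← Finset.sum_filter,
      Finset.sum_const, smul_eq_mul]
    congr 2
    ext z
    simp
  have h4 := quad S J
  have h5 := path C J
  calc 2 * K * (S.card ^ 2 * 2 ^ J.card) = 2 * (S.card ^ 2 * K) * 2 ^ J.card := by ring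
    _ ≤ 2 * ((∑ z, ∑ v, if z ∈ S ∧ mix J z v ∈ S then 1 else 0) * K) * 2 ^ J.card :=
        Nat.mul_le_mul_right _ (Nat.mul_le_mul_left _ (Nat.mul_le_mul_right _ h4))
    _ ≤ 2 * ((∑ z, ∑ v, if z ∈ S ∧ mix J z v = z then 1 else 0) * K +
        (Z.card * 2 ^ N) * K + ∑ z, ∑ v, hd (C z) (C (mix J z v))) * 2 ^ J.card :=
        Nat.mul_le_mul_right _ (Nat.mul_le_mul_left _ h2)
    _ = 2 * K * ((∑ z, ∑ v, if z ∈ S ∧ mix J z v = z then 1 else 0) * 2 ^ J.card +
        Z.card * 2 ^ N * 2 ^ J.card) +
        2 ^ J.card * (2 * ∑ z, ∑ v, hd (C z) (C (mix J z v))) := by ring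
    _ ≤ 2 * K * (S.card * 2 ^ N + Z.card * 2 ^ N * 2 ^ J.card) +
        2 ^ J.card * (2 ^ N * ∑ i ∈ J, flips C i) := by
        rw [h3]
        exact Nat.add_le_add_left (Nat.mul_le_mul_left _ h5) _
    _ = _ := by ring

end Pool.Agent.Y603.CC
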