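import Pool.Agent.Y603.MS.Close

/-!
# Close values at close points, for circuits with more outputs than inputs
-/

set_option autoImplicit false

namespace Pool.Agent.Y603.CC

open Finset H568R2 Pool.Agent.TH163.AC3 Pool.Agent.Y603.MS

variable {w N : ℕ}

open Classical in
/-- **Close values at close points.** -/
theorem close_pair2 (C : Circuit w N) (g : C.Node → (Fin N → Bool) → Bool)
    (hg : ∀ v, Shape C g v)
    {ℓ d r K : ℕ} (hℓ : 1 ≤ ℓ) (hw : 1 ≤ w) (hs : Nat.card C.Node ≤ 2 ^ ℓ)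
    (hd : ∀ v, C.depth v ≤ d) (hK : K = (2 ^ (d + 9) * (w * ℓ)) ^ d)
    (hN : 16 * K * (d + 1) * (r + 2) ≤ N) {κ : Type} [Fintype κ] {a : ℕ}
    (hκ : Fintype.card κ ≤ a * N)
    (out : κ → C.Node) (G : Finset (Fin N → Bool)) (hG : 2 ^ N < G.card * 2 ^ r) :
    ∃ x ∈ G, ∃ y ∈ G, x ≠ y ∧ (univ.filter fun i => x i ≠ y i).card ≤ 2 * (r + 2) ∧
      (univ.filter fun v => g (out v) x ≠ g (out v) y).card ≤
        2 * ((r + 2) * (16 * a * K * ℓ)) := by
  classical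
  have hwl : 0 < w * ℓ := Nat.mul_pos hw hℓ
  have hK0 : 0 < K := by rw [hK]; positivity
  obtain ⟨q, hq⟩ : ∃ q : ℝ, q = 1 / (2 ^ (d + 9) * ((w * ℓ : ℕ) : ℝ)) := ⟨_, rfl⟩
  obtain ⟨q0, q1, q2, q3⟩ := level_num d (r + 1) (w * ℓ) q hwl hq
  have hqd : q ^ d = 1 / (K : ℝ) := by
    rw [hq, hK, one_div, one_div, inv_pow]
    push_cast
    rfl
  have hlev := levels C g hg hℓ hw hs q0 q1 q2 (t := r + 1) (by omega) d
  have hQ : Ex (wq (q ^ d)) (fun ρ : Restr (Fin N) => if ¬ Dt (fun ρ' => ∀ v,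
      HasDT ℓ (rs (g v) ρ')) (d * (r + 1)) ρ then (1 : ℝ) else 0) ≤ (1 / 2) ^ (r + 2) := by
    have h1 : (fun ρ' : Restr (Fin N) => ∀ v, C.depth v ≤ d → HasDT ℓ (rs (g v) ρ')) =
        fun ρ' => ∀ v, HasDT ℓ (rs (g v) ρ') := by
      funext ρ'
      exact propext (forall_congr' fun v => ⟨fun h => h (hd v), fun h _ => h⟩)
    rw [h1] at hlev
    refine hlev.trans (q3.trans ?_)
    exact pow_le_pow_of_le_one (by norm_num) (by norm_num) (by omega)
  have ha : 4 * (d + 1) * (r + 2) ≤ N / (4 * K) := by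
    rw [Nat.le_div_iff_mul_le (by omega)]
    calc 4 * (d + 1) * (r + 2) * (4 * K) = 16 * K * (d + 1) * (r + 2) := by ring
      _ ≤ N := hN
  have ha1 : r + 2 ≤ N / (4 * K) := by nlinarith
  have hf : Ex (wq (q ^ d)) (fun ρ : Restr (Fin N) => if fr ρ ≤ N / (4 * K) then (1 : ℝ) else 0) ≤
      (1 / 2) ^ (r + 2) := by
    refine (few_free (pow_nonneg q0 d) (pow_le_one₀ q0 (by linarith)) _).trans ?_
    rw [hqd]
    exact free_num K N (r + 2) hK0 ha1
  obtain ⟨ρ, hρ1, hρ2, hρ3⟩ := good_restr (Q := Dt (fun ρ' => ∀ v, HasDT ℓ (rs (g v) ρ'))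
    (d * (r + 1))) (pow_nonneg q0 d) (pow_le_one₀ q0 (by linarith)) hQ hf G hG
  have hlt : N < 4 * K * fr ρ := by
    have h1 : N / (4 * K) < fr ρ := hρ2
    rw [Nat.div_lt_iff_lt_mul (by omega)] at h1
    rwa [mul_comm] at h1
  have hpos : 0 < 2 ^ (r + 1) := by positivity
  obtain ⟨x, hx, y, hy, hne, h1, h2⟩ := pack (fun v => g (out v)) ρ (ℓ := ℓ) (T := d * (r + 1))
    (h := 16 * a * K * ℓ) (R := r + 2) (fun x hx => by
      obtain ⟨A, Rd, hA, hR, hl⟩ := reads_point hρ1 x hx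
      exact ⟨A, fun v => Rd (out v), hA, fun v => hR _, fun v y hy h3 h4 => hl _ y hy h3 h4⟩)
    (by nlinarith) (by
      calc 4 * (Fintype.card κ * ℓ) ≤ 4 * (a * N * ℓ) :=
            Nat.mul_le_mul_left _ (Nat.mul_le_mul_right _ hκ)
        _ ≤ 4 * (a * (4 * K * fr ρ) * ℓ) := Nat.mul_le_mul_left _ (Nat.mul_le_mul_right _
            (Nat.mul_le_mul_left _ hlt.le))
        _ = 16 * a * K * ℓ * fr ρ := by ring
        _ ≤ (16 * a * K * ℓ + 1) * fr ρ := Nat.mul_le_mul_right _ (Nat.le_succ _))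
    (by nlinarith) (G.filter (InC ρ)) (fun x hx => (Finset.mem_filter.1 hx).2) (by
      have h5 : (G.filter (InC ρ)).card * 2 ^ (r + 2) = (G.filter (InC ρ)).card * 2 ^ (r + 1) * 2 := by
        rw [pow_succ 2 (r + 1)]; ring
      have h6 : 0 < 2 ^ fr ρ := by positivity
      rw [h5]
      omega)
  exact ⟨x, (Finset.mem_filter.1 hx).1, y, (Finset.mem_filter.1 hy).1, hne, h1, h2⟩

end Pool.Agent.Y603.CC
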