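import Pool.Agent.Y603.CC.Expo

/-!
# Exponentiation in finite fields and on elliptic curves
-/

set_option autoImplicit false

namespace Pool.Agent.Y603.CC

open Finset Pool.Agent.Y603.MS Polynomial

variable {w N : ℕ}

open Classical in
/-- **Exponentiation in the multiplicative group of a field.** -/
theorem field_expo (C : Circuit w N) (out : Fin N → C.Node) {s d t : ℕ}
    (hw : 1 ≤ w) (hs' : 4 * N + 1 ≤ s) (hs : Nat.card C.Node ≤ s)
    (hd' : ∀ v, C.depth v ≤ d) (ht : C.leak.card ≤ t)
    {F : Type} [Field F] (e : Fin N → F) (enc : F → Fin N → Bool)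
    (henc : ∀ x, dec e (enc x) = x) (g : F) (hg : g ≠ 0) :
    (((range (orderOf g)).filter fun x =>
      g ^ (value fun i => C.val (out i) (enc (g ^ x))) = g ^ x).card : ℝ) ≤
      16 * 2 ^ t * 2 ^ N * err N s d w := by
  have h := expo C out hw hs' hs hd' ht (fun x => g ^ x) enc 1 (by
    intro δ j
    refine ⟨(Df e j).image fun η => η / (g ^ δ - 1), ?_, ?_⟩
    · rw [one_mul]
      exact Finset.card_image_le.trans (card_Df e j)
    · intro a b hab hne hh
      have h1 : g ^ b = g ^ a * g ^ δ := by
        rw [← hab, zpow_sub₀ hg, zpow_natCast, zpow_natCast]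
        field_simp
      have h2 : g ^ δ - 1 ≠ 0 := by
        intro h0
        apply hne
        rw [h1, sub_eq_zero.1 h0, mul_one]
      rw [Finset.mem_image]
      refine ⟨g ^ b - g ^ a, ?_, ?_⟩
      · have h3 := dec_diff e j _ _ hh
        rwa [henc, henc] at h3
      · rw [h1]
        field_simp) (range (orderOf g)) (by
      have h4 := pow_injOn_Iio_orderOf (x := g)
      intro x hx y hy hxy
      exact h4 (Finset.mem_range.1 (Finset.mem_coe.1 hx))
        (Finset.mem_range.1 (Finset.mem_coe.1 hy)) hxy)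
  refine h.trans (le_of_eq ?_)
  push_cast
  ring

variable {F : Type} [Field F]

/-- The polynomial whose roots are the `X`-coordinates of the points `P` with
`x (P + Q) - x (P) = η`. -/
noncomputable def shiftPoly (W : WeierstrassCurve.Affine F) (a b η : F) : F[X] :=
  (X ^ 3 + C W.a₂ * X ^ 2 + C W.a₄ * X + C W.a₆ + C (b ^ 2) - C (W.a₁ * b) * (X - C a) -
      (C (W.a₂ + a + η) + C 2 * X) * (X - C a) ^ 2) ^ 2 +
    (C W.a₁ * X + C W.a₃) * C (W.a₃ + 2 * b + W.a₁ * a) *
      (X ^ 3 + C W.a₂ * X ^ 2 + C W.a₄ * X + C W.a₆ + C (b ^ 2) - C (W.a₁ * b) * (X - C a) -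
        (C (W.a₂ + a + η) + C 2 * X) * (X - C a) ^ 2) -
    C ((W.a₃ + 2 * b + W.a₁ * a) ^ 2) * (X ^ 3 + C W.a₂ * X ^ 2 + C W.a₄ * X + C W.a₆)

lemma shiftPoly_natDegree (W : WeierstrassCurve.Affine F) (a b η : F) :
    (shiftPoly W a b η).natDegree = 6 := by
  unfold shiftPoly
  compute_degree!

lemma shiftPoly_root (W : WeierstrassCurve.Affine F) {a b η x y : F} (hxa : x ≠ a)
    (h : W.Equation x y)
    (hs : ((y - b) / (x - a)) ^ 2 + W.a₁ * ((y - b) / (x - a)) - W.a₂ - x - a = x + η) :
    (shiftPoly W a b η).eval x = 0 := by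
  rw [WeierstrassCurve.Affine.equation_iff] at h
  have hxa' : x - a ≠ 0 := sub_ne_zero.2 hxa
  have h1 : (y - b) ^ 2 + W.a₁ * (y - b) * (x - a) -
      (W.a₂ + a + η + 2 * x) * (x - a) ^ 2 = 0 := by
    have h2 : ((y - b) / (x - a)) ^ 2 + W.a₁ * ((y - b) / (x - a)) - (W.a₂ + a + η + 2 * x) = 0 := by
      linear_combination hs
    field_simp at h2
    linear_combination h2
  obtain ⟨κ, hκ⟩ : ∃ κ, κ = W.a₃ + 2 * b + W.a₁ * a := ⟨_, rfl⟩
  obtain ⟨ρ, hρ⟩ : ∃ ρ, ρ = x ^ 3 + W.a₂ * x ^ 2 + W.a₄ * x + W.a₆ + b ^ 2 -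
    W.a₁ * b * (x - a) - (W.a₂ + a + η + 2 * x) * (x - a) ^ 2 := ⟨_, rfl⟩
  have h3 : κ * y = ρ := by
    rw [hκ, hρ]
    linear_combination h - h1
  have h4 : (shiftPoly W a b η).eval x = ρ ^ 2 + (W.a₁ * x + W.a₃) * κ * ρ -
      κ ^ 2 * (x ^ 3 + W.a₂ * x ^ 2 + W.a₄ * x + W.a₆) := by
    unfold shiftPoly
    rw [hκ, hρ]
    simp only [eval_add, eval_sub, eval_mul, eval_pow, eval_C, eval_X]
  rw [h4, ← h3, ← h]
  ring

open Classical in
/-- Few points with a given shift of the `X`-coordinate. -/
lemma few_points (W : WeierstrassCurve.Affine F) {a b : F} (hQ : W.Nonsingular a b) (η : F) :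
    ∃ T : Finset W.Point, T.card ≤ 12 ∧ ∀ (x y x' y' : F) (h : W.Nonsingular x y)
      (h' : W.Nonsingular x' y'), x ≠ a →
      WeierstrassCurve.Affine.Point.some x y h + WeierstrassCurve.Affine.Point.some a b hQ =
        WeierstrassCurve.Affine.Point.some x' y' h' → x' - x = η →
      WeierstrassCurve.Affine.Point.some x y h ∈ T := by
  let pt : F → W.Point := fun x => if h : ∃ P : W.Point, P.xRep = ![x, 1] then h.choose else 0
  have hpt : ∀ (x y : F) (h : W.Nonsingular x y),
      WeierstrassCurve.Affine.Point.some x y h = pt x ∨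
        WeierstrassCurve.Affine.Point.some x y h = - pt x := by
    intro x y h
    have hex : ∃ P : W.Point, P.xRep = ![x, 1] :=
      ⟨WeierstrassCurve.Affine.Point.some x y h, by simp⟩
    have h1 : (pt x).xRep = ![x, 1] := by
      simp only [pt]
      rw [dif_pos hex]
      exact hex.choose_spec
    apply WeierstrassCurve.Affine.Point.eq_or_eq_neg_of_xRep_eq_xRep
    rw [h1]
    simp
  refine ⟨(shiftPoly W a b η).roots.toFinset.biUnion fun x => {pt x, - pt x}, ?_, ?_⟩
  · refine Finset.card_biUnion_le.trans ?_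
    refine (Finset.sum_le_card_nsmul _ _ 2 fun x _ => Finset.card_le_two).trans ?_
    have h1 : (shiftPoly W a b η).roots.toFinset.card ≤ 6 := by
      refine (Multiset.toFinset_card_le _).trans ?_
      rw [← shiftPoly_natDegree W a b η]
      exact card_roots' _
    rw [smul_eq_mul]
    omega
  · intro x y x' y' h h' hxa hadd hη
    rw [WeierstrassCurve.Affine.Point.add_of_X_ne hxa] at hadd
    have hx' : x' = W.addX x a (W.slope x a y b) := by
      have := (WeierstrassCurve.Affine.Point.some.injEq _ _ _ _ _ _).mp hadd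
      exact this.1.symm
    rw [WeierstrassCurve.Affine.slope_of_X_ne hxa] at hx'
    unfold WeierstrassCurve.Affine.addX at hx'
    have hroot : (shiftPoly W a b η).eval x = 0 := by
      refine shiftPoly_root W hxa h.1 ?_
      rw [← hx', ← hη]
      ring
    have hne : shiftPoly W a b η ≠ 0 := by
      intro h0
      have := shiftPoly_natDegree W a b η
      rw [h0] at this
      simp at this
    rw [Finset.mem_biUnion]
    refine ⟨x, Multiset.mem_toFinset.2 ((mem_roots hne).2 hroot), ?_⟩
    rcases hpt x y h with h1 | h1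
    · rw [h1]; simp
    · rw [h1]; simp

/-- The representation of a point: the `X`-coordinate, and one more bit. -/
def pcode {N : ℕ} (W : WeierstrassCurve.Affine F) (enc : F → Fin N → Bool) (sg : W.Point → Bool) :
    W.Point → Fin (N + 1) → Bool
  | .zero => Fin.cons (sg .zero) fun _ => false
  | .some x y h => Fin.cons (sg (.some x y h)) (enc x)

lemma hd_cons {N : ℕ} (a b : Bool) (u v : Fin N → Bool) :
    hd u v ≤ hd (Fin.cons a u : Fin (N + 1) → Bool) (Fin.cons b v) := by
  unfold hd
  rw [← Finset.card_map (Fin.succEmb N)]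
  refine Finset.card_le_card ?_
  intro i hi
  obtain ⟨j, hj, rfl⟩ := Finset.mem_map.1 hi
  refine Finset.mem_filter.2 ⟨Finset.mem_univ _, ?_⟩
  simpa using (Finset.mem_filter.1 hj).2

lemma filter_inst {α : Type} (s : Finset α) (p : α → Prop) (i₁ i₂ : DecidablePred p) :
    (@Finset.filter α p i₁ s).card = (@Finset.filter α p i₂ s).card := by
  rw [Subsingleton.elim i₁ i₂]

open Classical in
/-- **Exponentiation on an elliptic curve.** -/
theorem curve_expo (C : Circuit w (N + 1)) (out : Fin (N + 1) → C.Node) {s d t : ℕ}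
    (hw : 1 ≤ w) (hs' : 4 * (N + 1) + 1 ≤ s) (hs : Nat.card C.Node ≤ s)
    (hd' : ∀ v, C.depth v ≤ d) (ht : C.leak.card ≤ t)
    (e : Fin N → F) (enc : F → Fin N → Bool) (henc : ∀ x, dec e (enc x) = x)
    (W : WeierstrassCurve.Affine F) (sg : W.Point → Bool) (P : W.Point) :
    (((range (addOrderOf P)).filter fun x =>
      (value fun i => C.val (out i) (pcode W enc sg (x • P))) • P = x • P).card : ℝ) ≤
      128 * 2 ^ t * 2 ^ (N + 1) * err (N + 1) s d w := by
  have h := expo C out hw hs' hs hd' ht (fun x => x • P) (pcode W enc sg) 15 (by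
    intro δ j
    have hpow : (2 * N + 1) ^ j ≤ (2 * (N + 1) + 1) ^ j := Nat.pow_le_pow_left (by omega) _
    have hpos : 1 ≤ (2 * N + 1) ^ j := Nat.one_le_pow _ _ (by omega)
    rcases hQ : δ • P with _ | ⟨a, b, hab⟩
    · refine ⟨∅, by simp, fun k l hkl hne _ => ?_⟩
      exfalso
      apply hne
      have h1 : (l : ℤ) = δ + k := by omega
      rw [← natCast_zsmul, ← natCast_zsmul, h1, add_zsmul, hQ]
      exact zero_add _
    · choose T hT1 hT2 using few_points W hab
      refine ⟨{0, WeierstrassCurve.Affine.Point.some a b hab,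
        - WeierstrassCurve.Affine.Point.some a b hab} ∪ (Df e j).biUnion T, ?_, ?_⟩
      · refine (Finset.card_union_le _ _).trans ?_
        have h1 : ({0, WeierstrassCurve.Affine.Point.some a b hab,
            - WeierstrassCurve.Affine.Point.some a b hab} : Finset W.Point).card ≤ 3 :=
          Finset.card_le_three
        have h2 : ((Df e j).biUnion T).card ≤ (2 * N + 1) ^ j * 12 := by
          refine Finset.card_biUnion_le.trans ?_
          refine (Finset.sum_le_card_nsmul _ _ 12 fun η _ => hT1 η).trans ?_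
          rw [smul_eq_mul]
          exact Nat.mul_le_mul_right _ (card_Df e j)
        calc _ ≤ 3 + (2 * N + 1) ^ j * 12 := Nat.add_le_add h1 h2
          _ ≤ 15 * (2 * N + 1) ^ j := by omega
          _ ≤ 15 * (2 * (N + 1) + 1) ^ j := Nat.mul_le_mul_left _ hpow
      · intro k l hkl hne hh
        have h1 : (l : ℤ) = k + δ := by omega
        have h2 : l • P = k • P + WeierstrassCurve.Affine.Point.some a b hab := by
          rw [← natCast_zsmul, ← natCast_zsmul, h1, add_zsmul, hQ]
        rw [h2] at hh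
        rcases hk : k • P with _ | ⟨x, y, hxy⟩
        · exact Finset.mem_union_left _ (Finset.mem_insert_self _ _)
        · rw [hk] at hh
          by_cases hxa : x = a
          · apply Finset.mem_union_left
            have h3 := (WeierstrassCurve.Affine.Point.X_eq_iff (h₁ := hxy) (h₂ := hab)).1 hxa
            rcases h3 with h3 | h3
            · rw [h3]; simp
            · rw [h3]; simp
          · apply Finset.mem_union_right
            have h4 := WeierstrassCurve.Affine.Point.add_of_X_ne (h₁ := hxy) (h₂ := hab) hxa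
            obtain ⟨x', y', h', hadd⟩ : ∃ x' y', ∃ h' : W.Nonsingular x' y',
                WeierstrassCurve.Affine.Point.some x y hxy +
                  WeierstrassCurve.Affine.Point.some a b hab =
                WeierstrassCurve.Affine.Point.some x' y' h' := ⟨_, _, _, h4⟩
            rw [hadd] at hh
            have h5 : hd (enc x) (enc x') ≤ j := (hd_cons _ _ _ _).trans hh
            have h6 := dec_diff e j _ _ h5
            rw [henc, henc] at h6
            exact Finset.mem_biUnion.2 ⟨x' - x, h6, hT2 _ x y x' y' hxy h' hxa hadd rfl⟩)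
    (range (addOrderOf P)) (by
      have h4 := nsmul_injOn_Iio_addOrderOf (x := P)
      intro x hx y hy hxy
      exact h4 (Finset.mem_range.1 (Finset.mem_coe.1 hx))
        (Finset.mem_range.1 (Finset.mem_coe.1 hy)) hxy)
  refine le_trans (le_of_eq ?_) (h.trans (le_of_eq ?_))
  · exact congrArg Nat.cast (filter_inst _ _ _ _)
  · push_cast
    ring

end Pool.Agent.Y603.CC
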