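import Pool.Agent.Y603.CC.Master

/-!
# Additive representations by bits, and their differences
-/

set_option autoImplicit false

namespace Pool.Agent.Y603.CC

open Finset Pool.Agent.Y603.MS

variable {R : Type} [AddCommGroup R] {N : ℕ}

/-- The element with the digits `x` for the weights `e`. -/
def dec (e : Fin N → R) (x : Fin N → Bool) : R := ∑ i, if x i = true then e i else 0

open Classical in
/-- The sums of at most `K` elements `± e i`. -/
noncomputable def Df (e : Fin N → R) : ℕ → Finset R
  | 0 => {0}
  | K + 1 => Df e K ∪ (Df e K ×ˢ (univ : Finset (Fin N × Bool))).image fun a =>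
      a.1 + (if a.2.2 = true then e a.2.1 else - e a.2.1)

lemma card_Df (e : Fin N → R) (K : ℕ) : (Df e K).card ≤ (2 * N + 1) ^ K := by
  classical
  induction K with
  | zero => simp [Df]
  | succ K ih =>
    unfold Df
    refine (Finset.card_union_le _ _).trans ?_
    have h1 : ((Df e K ×ˢ (univ : Finset (Fin N × Bool))).image fun a =>
        a.1 + (if a.2.2 = true then e a.2.1 else - e a.2.1)).card ≤
        (Df e K).card * (N * 2) := by
      refine Finset.card_image_le.trans ?_
      rw [Finset.card_product, Finset.card_univ, Fintype.card_prod, Fintype.card_fin,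
        Fintype.card_bool]
    calc (Df e K).card + _ ≤ (Df e K).card + (Df e K).card * (N * 2) := Nat.add_le_add_left h1 _
      _ = (Df e K).card * (2 * N + 1) := by ring
      _ ≤ (2 * N + 1) ^ K * (2 * N + 1) := Nat.mul_le_mul_right _ ih
      _ = (2 * N + 1) ^ (K + 1) := (pow_succ _ _).symm

lemma dec_update (e : Fin N → R) (x : Fin N → Bool) (i : Fin N) (b : Bool) :
    dec e (Function.update x i b) = dec e x + ((if b = true then e i else 0) -
      if x i = true then e i else 0) := by
  unfold dec
  rw [← Finset.add_sum_erase univ _ (Finset.mem_univ i),
    ← Finset.add_sum_erase univ (fun j => if x j = true then e j else 0)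
      (Finset.mem_univ i)]
  have h : ∑ j ∈ univ.erase i, (if Function.update x i b j = true then e j else 0) =
      ∑ j ∈ univ.erase i, (if x j = true then e j else 0) := by
    refine Finset.sum_congr rfl fun j hj => ?_
    rw [Function.update_of_ne (Finset.ne_of_mem_erase hj)]
  rw [h, Function.update_self]
  abel

lemma dec_diff (e : Fin N → R) : ∀ (K : ℕ) (x y : Fin N → Bool),
    hd x y ≤ K → dec e y - dec e x ∈ Df e K := by
  classical
  unfold hd
  intro K
  induction K with
  | zero =>
    intro x y h
    have h1 : (univ.filter fun i => x i ≠ y i) = ∅ := Finset.card_eq_zero.1 (by omega)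
    have h2 : x = y := by
      funext i
      by_contra hi
      have : i ∈ (univ.filter fun i => x i ≠ y i) := Finset.mem_filter.2 ⟨Finset.mem_univ _, hi⟩
      rw [h1] at this
      simp at this
    rw [h2]
    simp [Df]
  | succ K ih =>
    intro x y h
    unfold Df
    rw [Finset.mem_union]
    by_cases hK : (univ.filter fun i => x i ≠ y i).card ≤ K
    · left; exact ih x y hK
    · right
      have hne : (univ.filter fun i => x i ≠ y i).Nonempty := Finset.card_pos.1 (by omega)
      obtain ⟨i, hi⟩ := hne
      have hxi : x i ≠ y i := (Finset.mem_filter.1 hi).2
      have h1 : (univ.filter fun j => Function.update x i (y i) j ≠ y j) =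
          (univ.filter fun j => x j ≠ y j).erase i := by
        ext j
        simp only [Finset.mem_filter, Finset.mem_univ, true_and, Finset.mem_erase]
        by_cases hj : j = i
        · subst hj; simp
        · simp [hj]
      have h2 := ih (Function.update x i (y i)) y (by
        rw [h1, Finset.card_erase_of_mem hi]; omega)
      rw [dec_update] at h2
      rw [Finset.mem_image]
      refine ⟨(_, (i, y i)), Finset.mem_product.2 ⟨h2, Finset.mem_univ _⟩, ?_⟩
      dsimp only
      cases hy : y i with
      | true =>
        have hx : x i = false := by
          rw [hy] at hxi; simpa using hxi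
        rw [if_pos rfl, hx, if_neg Bool.false_ne_true, if_pos rfl]
        abel
      | false =>
        have hx : x i = true := by
          rw [hy] at hxi; simpa using hxi
        rw [if_neg Bool.false_ne_true, hx, if_pos rfl, if_neg Bool.false_ne_true]
        abel

/-- The binary digits of an integer are a representation with the weights `2 ^ i`. -/
lemma dec_two_pow (x : Fin N → Bool) : dec (fun i : Fin N => (2 : ℤ) ^ (i : ℕ)) x = value x := by
  unfold dec value
  push_cast
  rfl

end Pool.Agent.Y603.CC
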