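import Pool.Agent.Y603.CC.Digits

/-!
# Exponentiation, and functions of small differential uniformity
-/

set_option autoImplicit false

namespace Pool.Agent.Y603.CC

open Finset Pool.Agent.Y603.MS

variable {w N : ℕ}

open Classical in
/-- **Exponentiation.** The function `E` is the exponentiation with a fixed base in a group, whose
elements are represented by the map `code`. -/
theorem expo (C : Circuit w N) (out : Fin N → C.Node) {s d t : ℕ}
    (hw : 1 ≤ w) (hs' : 4 * N + 1 ≤ s) (hs : Nat.card C.Node ≤ s)
    (hd' : ∀ v, C.depth v ≤ d) (ht : C.leak.card ≤ t)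
    {Γ : Type} (E : ℕ → Γ) (code : Γ → Fin N → Bool) (c : ℕ)
    (hE : ∀ (δ : ℤ) (j : ℕ), ∃ T : Finset Γ, T.card ≤ c * (2 * N + 1) ^ j ∧
      ∀ a b : ℕ, (b : ℤ) - a = δ → E b ≠ E a → hd (code (E a)) (code (E b)) ≤ j → E a ∈ T)
    (X : Finset ℕ) (hX : Set.InjOn E X) :
    ((X.filter fun x => E (value fun i => C.val (out i) (code (E x))) = E x).card : ℝ) ≤
      8 * (c + 1) * 2 ^ t * 2 ^ N * err N s d w := by
  choose T hT1 hT2 using hE
  have hinv := inversion C out hw hs' hs hd' ht (fun a => code (E (value a))) c 1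
    (by simpa using Nat.one_le_two_pow) (by
      intro K₁ K₂
      refine ⟨(Sp N K₂).biUnion fun δ => (T δ K₁).image code, ?_, ?_⟩
      · refine Finset.card_biUnion_le.trans ?_
        refine (Finset.sum_le_card_nsmul _ _ (c * (2 * N + 1) ^ K₁) fun δ _ =>
          Finset.card_image_le.trans (hT1 δ K₁)).trans ?_
        rw [smul_eq_mul]
        calc (Sp N K₂).card * (c * (2 * N + 1) ^ K₁)
            ≤ (2 * N + 1) ^ K₂ * (c * (2 * N + 1) ^ K₁) := Nat.mul_le_mul_right _ (card_Sp N K₂)
          _ = c * (1 * (2 * N + 1) ^ (K₁ + K₂)) := by rw [pow_add]; ring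
      · intro a b hne hab hF
        rw [Finset.mem_biUnion]
        refine ⟨(value b : ℤ) - value a, diff_mem_Sp K₂ a b hab, ?_⟩
        refine Finset.mem_image_of_mem _ (hT2 _ K₁ (value a) (value b) rfl ?_ hF)
        intro h
        exact hne (by dsimp only; rw [h]))
  refine le_trans ?_ hinv
  have h1 : (X.filter fun x => E (value fun i => C.val (out i) (code (E x))) = E x).card ≤
      (univ.filter fun z => (fun a => code (E (value a))) (fun i => C.val (out i) z) = z).card := by
    refine Finset.card_le_card_of_injOn (fun x => code (E x)) ?_ ?_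
    · intro x hx
      have hx' := (Finset.mem_filter.1 hx).2
      refine Finset.mem_coe.2 (Finset.mem_filter.2 ⟨Finset.mem_univ _, ?_⟩)
      show code (E (value fun i => C.val (out i) (code (E x)))) = code (E x)
      rw [hx']
    · intro x hx y hy hxy
      have hx' := Finset.mem_filter.1 hx
      have hy' := Finset.mem_filter.1 hy
      simp only at hxy
      apply hX hx'.1 hy'.1
      rw [← hx'.2, hxy, hy'.2]
  exact_mod_cast h1

open Classical in
/-- **Functions of small differential uniformity.** -/
theorem differential (C : Circuit w N) (out : Fin N → C.Node) {s d t : ℕ}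
    (hw : 1 ≤ w) (hs' : 4 * N + 1 ≤ s) (hs : Nat.card C.Node ≤ s)
    (hd' : ∀ v, C.depth v ≤ d) (ht : C.leak.card ≤ t)
    {R R' : Type} [AddCommGroup R] [AddCommGroup R'] (e : Fin N → R) (e' : Fin N → R')
    (enc : R' → Fin N → Bool) (henc : ∀ y, dec e' (enc y) = y) (f : R → R') (B : ℕ)
    (hB : B ^ 8 ≤ 2 ^ (7 * N))
    (hf : ∀ (δ : R) (η : R'), δ ≠ 0 → ∃ T : Finset R, T.card ≤ B ∧
      ∀ x, f (x + δ) - f x = η → x ∈ T)
    (X : Finset R) (q : ℕ) (hq : ∀ y, (X.filter fun x => f x = y).card ≤ q) :
    ((X.filter fun x => f (dec e fun i => C.val (out i) (enc (f x))) = f x).card : ℝ) ≤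
      16 * q * 2 ^ t * 2 ^ N * err N s d w := by
  have hf' : ∀ (δ : R) (η : R'), ∃ T : Finset R, T.card ≤ B ∧
      (δ ≠ 0 → ∀ x, f (x + δ) - f x = η → x ∈ T) := by
    intro δ η
    by_cases h : δ = 0
    · exact ⟨∅, by simp, fun h' => absurd h h'⟩
    · obtain ⟨T, h1, h2⟩ := hf δ η h
      exact ⟨T, h1, fun _ => h2⟩
  choose T hT1 hT2 using hf'
  have hinv := inversion C out hw hs' hs hd' ht (fun a => enc (f (dec e a))) 1 B hB (by
      intro K₁ K₂
      refine ⟨(Df e K₂ ×ˢ Df e' K₁).biUnion fun p => (T p.1 p.2).image fun x => enc (f x),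
        ?_, ?_⟩
      · refine Finset.card_biUnion_le.trans ?_
        refine (Finset.sum_le_card_nsmul _ _ B fun p _ =>
          Finset.card_image_le.trans (hT1 p.1 p.2)).trans ?_
        rw [smul_eq_mul, Finset.card_product]
        calc (Df e K₂).card * (Df e' K₁).card * B
            ≤ ((2 * N + 1) ^ K₂ * (2 * N + 1) ^ K₁) * B :=
              Nat.mul_le_mul_right _ (Nat.mul_le_mul (card_Df e K₂) (card_Df e' K₁))
          _ = 1 * (B * (2 * N + 1) ^ (K₁ + K₂)) := by rw [pow_add]; ring
      · intro a b hne hab hF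
        rw [Finset.mem_biUnion]
        refine ⟨(dec e b - dec e a, f (dec e b) - f (dec e a)), Finset.mem_product.2
          ⟨dec_diff e K₂ a b hab, ?_⟩, ?_⟩
        · have h := dec_diff e' K₁ _ _ hF
          rwa [henc, henc] at h
        · refine Finset.mem_image_of_mem (fun x => enc (f x)) (hT2 _ _ ?_ _ ?_)
          · intro h
            apply hne
            have : dec e a = dec e b := (sub_eq_zero.1 h).symm
            simp only [this]
          · simp only
            rw [add_sub_cancel])
  set S := (univ.filter fun z => (fun a => enc (f (dec e a))) (fun i => C.val (out i) z) = z)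
    with hS
  have h1 : (X.filter fun x => f (dec e fun i => C.val (out i) (enc (f x))) = f x).card ≤
      q * S.card := by
    refine Finset.card_le_mul_card_image_of_maps_to (f := fun x => enc (f x)) ?_ q ?_
    · intro x hx
      have hx' := (Finset.mem_filter.1 hx).2
      refine Finset.mem_filter.2 ⟨Finset.mem_univ _, ?_⟩
      show enc (f (dec e fun i => C.val (out i) (enc (f x)))) = enc (f x)
      rw [hx']
    · intro z _
      refine le_trans (Finset.card_le_card ?_) (hq (dec e' z))
      intro x hx
      obtain ⟨hx1, hx2⟩ := Finset.mem_filter.1 hx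
      refine Finset.mem_filter.2 ⟨(Finset.mem_filter.1 hx1).1, ?_⟩
      rw [← hx2, henc]
  have h2 : ((X.filter fun x => f (dec e fun i => C.val (out i) (enc (f x))) = f x).card : ℝ) ≤
      q * S.card := by exact_mod_cast h1
  refine h2.trans ?_
  calc (q : ℝ) * S.card ≤ q * (8 * ((1 : ℕ) + 1) * 2 ^ t * 2 ^ N * err N s d w) :=
        mul_le_mul_of_nonneg_left hinv (Nat.cast_nonneg q)
    _ = _ := by push_cast; ring

end Pool.Agent.Y603.CC
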