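import Pool.Agent.Y603.CC.Keyed2

/-!
# Subset sums, and random systems of equations
-/

set_option autoImplicit false

namespace Pool.Agent.Y603.CC

open Finset Pool.Agent.Y603.MS

variable {m : ℕ}

/-- The fibres of a surjective homomorphism. -/
lemma card_fibre {G H : Type} [AddCommGroup G] [AddCommGroup H] [Fintype G] [Fintype H]
    (ψ : G →+ H) (hψ : Function.Surjective ψ) (v : H) :
    Nat.card {k : G // ψ k = v} * Fintype.card H = Fintype.card G := by
  classical
  have hfib : ∀ u : H, (univ.filter fun x : G => ψ x = u).card =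
      (univ.filter fun x : G => ψ x = v).card := fun u =>
    AddMonoidHom.card_fiber_eq_of_mem_range ψ (hψ u) (hψ v)
  have htot : ∑ u : H, (univ.filter fun x : G => ψ x = u).card = Fintype.card G := by
    rw [← Finset.card_eq_sum_card_fiberwise (f := fun x : G => ψ x)
      (fun _ _ => Finset.mem_univ _), Finset.card_univ]
  rw [Finset.sum_congr rfl fun u _ => hfib u, Finset.sum_const, Finset.card_univ,
    smul_eq_mul] at htot
  rw [Nat.card_eq_fintype_card, Fintype.card_subtype, mul_comm]
  exact htot

/-- Families that depend linearly on the key. -/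
theorem pairwise_of_surjective {G Y : Type} [AddCommGroup G] [AddCommGroup Y] [Fintype G]
    [Fintype Y] (X : Finset (Fin m → Bool)) (φ : (Fin m → Bool) → G →+ Y)
    (h : ∀ x ∈ X, ∀ x' ∈ X, x ≠ x' → ∀ u v : Y, ∃ k, φ x k = u ∧ φ x' k = v) :
    Pairwise2 X fun k x => φ x k := by
  intro x hx x' hx' hne y y'
  let ψ : G →+ Y × Y := (φ x).prod (φ x')
  have hψ : Function.Surjective ψ := by
    rintro ⟨u, v⟩
    obtain ⟨k, h1, h2⟩ := h x hx x' hx' hne u v
    exact ⟨k, Prod.ext h1 h2⟩
  have h1 := card_fibre ψ hψ (y, y')
  rw [Fintype.card_prod, ← pow_two] at h1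
  refine le_of_eq ?_
  rw [← h1]
  congr 1
  refine Nat.card_congr (Equiv.subtypeEquivRight fun k => ?_)
  show φ x k = y ∧ φ x' k = y' ↔ (φ x k, φ x' k) = (y, y')
  rw [Prod.mk.injEq]

/-- The sum of the elements `k i` with `x i` true. -/
def subsetSum {G : Type} [AddCommGroup G] (k : Fin m → G) (x : Fin m → Bool) : G :=
  ∑ i, if x i = true then k i else 0

/-- Subset sums are pairwise independent. -/
theorem pairwise_subsetSum {G : Type} [AddCommGroup G] [Fintype G] :
    Pairwise2 (univ.filter fun x : Fin m → Bool => ∃ i, x i = true)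
      (subsetSum : (Fin m → G) → (Fin m → Bool) → G) := by
  classical
  let φ : (Fin m → Bool) → (Fin m → G) →+ G := fun x =>
    { toFun := fun k => subsetSum k x
      map_zero' := by simp [subsetSum]
      map_add' := by
        intro k k'
        unfold subsetSum
        rw [← Finset.sum_add_distrib]
        refine Finset.sum_congr rfl fun i _ => ?_
        by_cases h : x i = true
        · simp [h]
        · simp [h] }
  have hsym : ∀ x x' : Fin m → Bool, (∃ i, x' i = true) → (∃ i, x i = true ∧ x' i = false) →
      ∀ u v : G, ∃ k, φ x k = u ∧ φ x' k = v := by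
    rintro x x' ⟨j, hj⟩ ⟨i, hi, hi'⟩ u v
    have hij : i ≠ j := by
      rintro rfl
      rw [hi'] at hj
      exact absurd hj (by simp)
    refine ⟨fun l => if l = i then u - (if x j = true then v else 0) else if l = j then v else 0,
      ?_, ?_⟩
    · show ∑ l, (if x l = true then (if l = i then u - (if x j = true then v else 0) else
        if l = j then v else 0) else 0) = u
      rw [← Finset.add_sum_erase univ _ (Finset.mem_univ i),
        ← Finset.add_sum_erase (univ.erase i) _ (Finset.mem_erase.2 ⟨hij.symm, Finset.mem_univ j⟩)]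
      rw [Finset.sum_eq_zero]
      · simp only [hi, if_true, if_neg hij.symm]
        by_cases hxj : x j = true
        · simp [hxj]
        · simp [hxj]
      · intro l hl
        have h1 := Finset.ne_of_mem_erase hl
        have h2 := Finset.ne_of_mem_erase (Finset.mem_of_mem_erase hl)
        simp [h1, h2]
    · show ∑ l, (if x' l = true then (if l = i then u - (if x j = true then v else 0) else
        if l = j then v else 0) else 0) = v
      rw [← Finset.add_sum_erase univ _ (Finset.mem_univ j), Finset.sum_eq_zero]
      · simp [hj, hij.symm]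
      · intro l hl
        have h1 := Finset.ne_of_mem_erase hl
        by_cases hli : l = i
        · rw [hli, hi']
          simp
        · simp [h1, hli]
  refine pairwise_of_surjective _ φ ?_
  intro x hx x' hx' hne u v
  have h1 := (Finset.mem_filter.1 hx).2
  have h2 := (Finset.mem_filter.1 hx').2
  have h3 : ∃ i, x i ≠ x' i := by
    by_contra hcon
    push Not at hcon
    exact hne (funext hcon)
  obtain ⟨i, hi⟩ := h3
  cases hxi : x i with
  | true =>
    have hxi' : x' i = false := by
      rw [hxi] at hi
      cases h : x' i with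
      | true => exact absurd h.symm hi
      | false => rfl
    exact hsym x x' h2 ⟨i, hxi, hxi'⟩ u v
  | false =>
    have hxi' : x' i = true := by
      rw [hxi] at hi
      cases h : x' i with
      | true => rfl
      | false => exact absurd h.symm hi
    obtain ⟨k, h4, h5⟩ := hsym x' x h1 ⟨i, hxi', hxi⟩ v u
    exact ⟨k, h5, h4⟩

/-- The values of `ν` linear combinations of the functions `μ i`. -/
def system {ν : ℕ} {ι R : Type} [Fintype ι] [CommRing R] (μ : ι → (Fin m → Bool) → R)
    (k : Fin ν → ι → R) (x : Fin m → Bool) : Fin ν → R := fun j => ∑ i, k j i * μ i x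

/-- Random linear combinations of functions which separate points (by units), one of which is
constant, are pairwise independent. -/
theorem pairwise_system {ν : ℕ} {ι R : Type} [Fintype ι] [DecidableEq ι] [CommRing R] [Fintype R]
    [Nontrivial R]
    (μ : ι → (Fin m → Bool) → R) (X : Finset (Fin m → Bool)) (i₀ : ι) (h₀ : ∀ x, μ i₀ x = 1)
    (h : ∀ x ∈ X, ∀ x' ∈ X, x ≠ x' → ∃ i, IsUnit (μ i x - μ i x')) :
    Pairwise2 X (system μ : (Fin ν → ι → R) → (Fin m → Bool) → Fin ν → R) := by
  classical
  let φ : (Fin m → Bool) → (Fin ν → ι → R) →+ (Fin ν → R) := fun x =>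
    { toFun := fun k => system μ k x
      map_zero' := by
        funext j
        simp [system]
      map_add' := by
        intro k k'
        funext j
        simp only [system, Pi.add_apply, add_mul, Finset.sum_add_distrib] }
  refine pairwise_of_surjective X φ ?_
  intro x hx x' hx' hne u v
  obtain ⟨i, c, hc⟩ := h x hx x' hx' hne
  have hi : i ≠ i₀ := by
    rintro rfl
    rw [h₀, h₀, sub_self] at hc
    exact c.ne_zero hc
  have hc' : (μ i x - μ i x') * ((c⁻¹ : Rˣ) : R) = 1 := by
    rw [← hc]
    exact Units.mul_inv c
  let a : Fin ν → R := fun j => (u j - v j) * ((c⁻¹ : Rˣ) : R)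
  have hsum : ∀ (z : Fin m → Bool) (j : Fin ν),
      ∑ l, (if l = i then a j else if l = i₀ then u j - a j * μ i x else 0) * μ l z =
        a j * μ i z + (u j - a j * μ i x) := by
    intro z j
    rw [← Finset.add_sum_erase univ _ (Finset.mem_univ i),
      ← Finset.add_sum_erase (univ.erase i) _ (Finset.mem_erase.2 ⟨hi.symm, Finset.mem_univ i₀⟩),
      Finset.sum_eq_zero]
    · simp [hi.symm, h₀]
    · intro l hl
      have h1 := Finset.ne_of_mem_erase hl
      have h2 := Finset.ne_of_mem_erase (Finset.mem_of_mem_erase hl)
      simp [h1, h2]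
  refine ⟨fun j l => if l = i then a j else if l = i₀ then u j - a j * μ i x else 0, ?_, ?_⟩
  · funext j
    show ∑ l, (if l = i then a j else if l = i₀ then u j - a j * μ i x else 0) * μ l x = u j
    rw [hsum x j]
    ring
  · funext j
    show ∑ l, (if l = i then a j else if l = i₀ then u j - a j * μ i x else 0) * μ l x' = v j
    rw [hsum x' j]
    have : a j * μ i x' + (u j - a j * μ i x) = u j - (u j - v j) *
        ((μ i x - μ i x') * ((c⁻¹ : Rˣ) : R)) := by
      simp only [a]
      ring
    rw [this, hc']
    ring

/-- The monomials of degree at most `D` over the field with two elements. -/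
def monomial {D : ℕ} (S : {S : Finset (Fin m) // S.card ≤ D}) (x : Fin m → Bool) : ZMod 2 :=
  if ∀ i ∈ S.1, x i = true then 1 else 0

/-- Random polynomial equations of degree at most `D ≥ 1` are pairwise independent. -/
theorem pairwise_poly {ν D : ℕ} (hD : 1 ≤ D) :
    Pairwise2 (univ : Finset (Fin m → Bool))
      (system (ν := ν) (monomial (m := m) (D := D))) := by
  classical
  refine pairwise_system (ν := ν) (monomial (m := m) (D := D)) univ ⟨∅, by simp⟩
    (fun x => by simp [monomial]) ?_
  intro x _ x' _ hne
  have h3 : ∃ i, x i ≠ x' i := by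
    by_contra hcon
    push Not at hcon
    exact hne (funext hcon)
  obtain ⟨i, hi⟩ := h3
  refine ⟨⟨{i}, by simpa using hD⟩, ?_⟩
  have h4 : ∀ z : Fin m → Bool, monomial (D := D) ⟨{i}, by simpa using hD⟩ z =
      if z i = true then 1 else 0 := by
    intro z
    simp [monomial]
  rw [h4, h4]
  cases hx : x i <;> cases hx' : x' i
  · rw [hx, hx'] at hi
    exact absurd rfl hi
  · simp
  · simp
  · rw [hx, hx'] at hi
    exact absurd rfl hi

end Pool.Agent.Y603.CC
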