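import Pool.Agent.Y603.CC.Master
import Pool.Agent.Y603.CC.Close2

/-!
# Pairwise independent families of functions
-/

set_option autoImplicit false

namespace Pool.Agent.Y603.CC

open Finset Pool.Agent.Y603.MS

variable {w n m : ℕ}

open Classical in
/-- The values that are inverted, for one pattern of the leaked bits. -/
theorem one_pattern2 (C : Circuit w n) (out : Fin m → C.Node) (hm : m ≤ 2 * n) {ℓ d r K : ℕ}
    (hℓ : 1 ≤ ℓ) (hw : 1 ≤ w) (hs : Nat.card C.Node ≤ 2 ^ ℓ)
    (hd' : ∀ v, C.depth v ≤ d) (hK : K = (2 ^ (d + 9) * (w * ℓ)) ^ d)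
    (hN : 16 * K * (d + 1) * (r + 2) ≤ n) (al : C.Node → Bool)
    (S Z : Finset (Fin n → Bool)) (hS : ∀ z ∈ S, ∀ v ∈ C.leak, C.val v z = al v)
    (hZ : ∀ z ∈ S, ∀ z' ∈ S, z ≠ z' → hd z z' ≤ 2 * (r + 2) →
      hd (fun i => C.val (out i) z) (fun i => C.val (out i) z') ≤
        2 * ((r + 2) * (32 * K * ℓ)) → z ∈ Z) :
    S.card * 2 ^ r ≤ 2 ^ n + Z.card * 2 ^ r := by
  obtain ⟨g, hg1, hg2⟩ := unleak C al
  let f : (Fin n → Bool) → Fin m → Bool := fun z i => C.val (out i) z
  let Cl : (Fin n → Bool) → (Fin n → Bool) → Prop := fun z z' => z ≠ z' ∧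
    hd z z' ≤ 2 * (r + 2) ∧ hd (f z) (f z') ≤ 2 * ((r + 2) * (32 * K * ℓ))
  let W := S.filter fun z => ∃ z' ∈ S, Cl z z'
  have hW : W.card ≤ Z.card := by
    refine Finset.card_le_card ?_
    intro z hz
    obtain ⟨hz1, z', hz', hc1, hc2, hc3⟩ := Finset.mem_filter.1 hz
    exact hZ z hz1 z' hz' hc1 hc2 hc3
  let G := S.filter fun z => ¬ ∃ z' ∈ S, Cl z z'
  have hGS : ∀ z ∈ G, ∀ v, g v z = C.val v z := fun z hz v =>
    hg1 z (hS z (Finset.mem_filter.1 hz).1) v
  have hG : G.card * 2 ^ r ≤ 2 ^ n := by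
    by_contra hcon
    push Not at hcon
    obtain ⟨x, hx, y, hy, hne, h1, h2⟩ := close_pair2 C g hg2 hℓ hw hs hd' hK hN
      (κ := Fin m) (a := 2) (by simpa using hm) out G hcon
    have h3 : (univ.filter fun v : Fin m => g (out v) x ≠ g (out v) y) =
        univ.filter fun v : Fin m => C.val (out v) x ≠ C.val (out v) y := by
      refine Finset.filter_congr fun v _ => ?_
      rw [hGS x hx, hGS y hy]
    rw [h3, show 16 * 2 * K * ℓ = 32 * K * ℓ by ring] at h2
    exact (Finset.mem_filter.1 hx).2 ⟨y, (Finset.mem_filter.1 hy).1, hne, h1, h2⟩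
  have hsplit : S.card = W.card + G.card := by
    rw [← Finset.card_filter_add_card_filter_not (s := S) fun z => ∃ z' ∈ S, Cl z z']
  rw [hsplit, Nat.add_mul, add_comm]
  exact Nat.add_le_add hG (Nat.mul_le_mul_right _ hW)

open Classical in
/-- The values that are inverted. -/
theorem all_patterns2 (C : Circuit w n) (out : Fin m → C.Node) (hm : m ≤ 2 * n) {ℓ d r K t : ℕ}
    (hℓ : 1 ≤ ℓ) (hw : 1 ≤ w) (hs : Nat.card C.Node ≤ 2 ^ ℓ)
    (hd' : ∀ v, C.depth v ≤ d) (ht : C.leak.card ≤ t) (hK : K = (2 ^ (d + 9) * (w * ℓ)) ^ d)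
    (hN : 16 * K * (d + 1) * (r + 2) ≤ n) (S Z : Finset (Fin n → Bool))
    (hZ : ∀ z ∈ S, ∀ z' ∈ S, z ≠ z' → hd z z' ≤ 2 * (r + 2) →
      hd (fun i => C.val (out i) z) (fun i => C.val (out i) z') ≤
        2 * ((r + 2) * (32 * K * ℓ)) → z ∈ Z) :
    S.card * 2 ^ r ≤ 2 ^ t * (2 ^ n + Z.card * 2 ^ r) := by
  have := C.finite
  let _ : Fintype C.Node := Fintype.ofFinite _
  let pat : (Fin n → Bool) → (C.leak → Bool) := fun y v => C.val v y
  have h2 : S.card = ∑ β : C.leak → Bool, (S.filter fun y => pat y = β).card :=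
    Finset.card_eq_sum_card_fiberwise fun _ _ => Finset.mem_univ _
  have h3 : ∀ β : C.leak → Bool, (S.filter fun y => pat y = β).card * 2 ^ r ≤
      2 ^ n + Z.card * 2 ^ r := by
    intro β
    refine one_pattern2 C out hm hℓ hw hs hd' hK hN
      (fun v => if h : v ∈ C.leak then β ⟨v, h⟩ else false) _ Z (fun y hy v hv => ?_)
      (fun z hz z' hz' => hZ z (Finset.mem_filter.1 hz).1 z' (Finset.mem_filter.1 hz').1)
    rw [dif_pos hv, ← (Finset.mem_filter.1 hy).2]
  have h4 : Fintype.card (C.leak → Bool) = 2 ^ C.leak.card := by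
    rw [Fintype.card_fun, Fintype.card_bool, Fintype.card_coe]
  rw [h2, Finset.sum_mul]
  calc ∑ β : C.leak → Bool, (S.filter fun y => pat y = β).card * 2 ^ r
      ≤ ∑ _β : C.leak → Bool, (2 ^ n + Z.card * 2 ^ r) := Finset.sum_le_sum fun β _ => h3 β
    _ = 2 ^ C.leak.card * (2 ^ n + Z.card * 2 ^ r) := by
        rw [Finset.sum_const, Finset.card_univ, h4, smul_eq_mul]
    _ ≤ _ := Nat.mul_le_mul_right _ (Nat.pow_le_pow_right (by norm_num) ht)

/-- The size of a Hamming ball. -/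
lemma card_ball (x : Fin m → Bool) (j : ℕ) :
    (univ.filter fun y : Fin m → Bool => hd x y ≤ j).card ≤ (2 * m + 1) ^ j := by
  refine le_trans ?_ (card_Sp m j)
  refine Finset.card_le_card_of_injOn (fun y => (value y : ℤ) - value x) ?_ ?_
  · intro y hy
    exact diff_mem_Sp j x y (Finset.mem_filter.1 hy).2
  · intro y _ y' _ h
    simp only at h
    apply value_inj
    have : (value y : ℤ) = value y' := by linarith
    exact_mod_cast this

/-- A family of functions is pairwise independent on the set `X` (in the sense of an upper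
bound). -/
def Pairwise2 {κ Y : Type} [Fintype κ] [Fintype Y] (X : Finset (Fin m → Bool))
    (h : κ → (Fin m → Bool) → Y) : Prop :=
  ∀ x ∈ X, ∀ x' ∈ X, x ≠ x' → ∀ y y' : Y,
    Nat.card {k : κ // h k x = y ∧ h k x' = y'} * Fintype.card Y ^ 2 ≤ Fintype.card κ

variable {κ Y : Type} [Fintype κ] [Fintype Y]

open Classical in
lemma Pairwise2.count {X : Finset (Fin m → Bool)} {h : κ → (Fin m → Bool) → Y}
    (hp : Pairwise2 X h) {x x' : Fin m → Bool} (hx : x ∈ X) (hx' : x' ∈ X) (hne : x ≠ x')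
    (y y' : Y) : (univ.filter fun k => h k x = y ∧ h k x' = y').card * Fintype.card Y ^ 2 ≤
      Fintype.card κ := by
  have h1 := hp x hx x' hx' hne y y'
  rwa [Nat.card_eq_fintype_card, Fintype.card_subtype] at h1

open Classical in
/-- The number of pairs of keys and values with two close preimages. -/
lemma pairs_close {X : Finset (Fin m → Bool)} {h : κ → (Fin m → Bool) → Y}
    (hp : Pairwise2 X h) (enc : Y → Fin n → Bool) (henc : Function.Injective enc) (K₁ K₂ : ℕ) :
    (∑ k, ((X ×ˢ X).filter fun p => p.1 ≠ p.2 ∧ hd p.1 p.2 ≤ K₂ ∧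
      hd (enc (h k p.1)) (enc (h k p.2)) ≤ K₁).card) * Fintype.card Y ≤
      X.card * ((2 * m + 1) ^ K₂ * (2 * n + 1) ^ K₁) * Fintype.card κ := by
  rcases Nat.eq_zero_or_pos (Fintype.card Y) with h0 | h0
  · rw [h0]; simp
  let D := (X ×ˢ X).filter fun p => p.1 ≠ p.2 ∧ hd p.1 p.2 ≤ K₂
  let E := (univ : Finset (Y × Y)).filter fun q => hd (enc q.1) (enc q.2) ≤ K₁
  have hD : D.card ≤ X.card * (2 * m + 1) ^ K₂ := by
    have h1 : D ⊆ X.biUnion fun x => (univ.filter fun y : Fin m → Bool => hd x y ≤ K₂).image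
        fun y => (x, y) := by
      rintro ⟨x, y⟩ hxy
      obtain ⟨h1, _, h2⟩ := Finset.mem_filter.1 hxy
      exact Finset.mem_biUnion.2 ⟨x, (Finset.mem_product.1 h1).1, Finset.mem_image.2
        ⟨y, Finset.mem_filter.2 ⟨Finset.mem_univ _, h2⟩, rfl⟩⟩
    refine (Finset.card_le_card h1).trans (Finset.card_biUnion_le.trans ?_)
    exact Finset.sum_le_card_nsmul _ _ _ fun x _ => Finset.card_image_le.trans (card_ball x K₂)
  have hE : E.card ≤ Fintype.card Y * (2 * n + 1) ^ K₁ := by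
    have h1 : E ⊆ (univ : Finset Y).biUnion fun y => (univ.filter fun y' : Y =>
        hd (enc y) (enc y') ≤ K₁).image fun y' => (y, y') := by
      rintro ⟨y, y'⟩ hyy
      exact Finset.mem_biUnion.2 ⟨y, Finset.mem_univ _, Finset.mem_image.2
        ⟨y', Finset.mem_filter.2 ⟨Finset.mem_univ _, (Finset.mem_filter.1 hyy).2⟩, rfl⟩⟩
    refine (Finset.card_le_card h1).trans (Finset.card_biUnion_le.trans ?_)
    refine Finset.sum_le_card_nsmul _ _ _ fun y _ => Finset.card_image_le.trans ?_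
    refine le_trans (Finset.card_le_card_of_injOn enc ?_ ?_) (card_ball (enc y) K₁)
    · intro y' hy'
      exact Finset.mem_filter.2 ⟨Finset.mem_univ _, (Finset.mem_filter.1 hy').2⟩
    · exact henc.injOn
  have h1 : ∑ k, ((X ×ˢ X).filter fun p => p.1 ≠ p.2 ∧ hd p.1 p.2 ≤ K₂ ∧
      hd (enc (h k p.1)) (enc (h k p.2)) ≤ K₁).card ≤
      ∑ p ∈ D, ∑ q ∈ E, (univ.filter fun k => h k p.1 = q.1 ∧ h k p.2 = q.2).card := by
    have e1 : ∀ k, ((X ×ˢ X).filter fun p => p.1 ≠ p.2 ∧ hd p.1 p.2 ≤ K₂ ∧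
        hd (enc (h k p.1)) (enc (h k p.2)) ≤ K₁).card =
        ∑ p ∈ D, if hd (enc (h k p.1)) (enc (h k p.2)) ≤ K₁ then 1 else 0 := by
      intro k
      rw [← Finset.card_filter]
      congr 1
      ext p
      simp only [D, Finset.mem_filter]
      tauto
    rw [Finset.sum_congr rfl fun k _ => e1 k, Finset.sum_comm]
    refine Finset.sum_le_sum fun p _ => ?_
    have e2 : ∀ q : Y × Y, (univ.filter fun k => h k p.1 = q.1 ∧ h k p.2 = q.2).card =
        ∑ k, if h k p.1 = q.1 ∧ h k p.2 = q.2 then 1 else 0 := fun q => Finset.card_filter _ _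
    rw [Finset.sum_congr rfl fun q _ => e2 q, Finset.sum_comm]
    refine Finset.sum_le_sum fun k _ => ?_
    split_ifs with hk
    · have hmem : (h k p.1, h k p.2) ∈ E := Finset.mem_filter.2 ⟨Finset.mem_univ _, hk⟩
      refine le_trans ?_ (Finset.single_le_sum (fun q _ => Nat.zero_le _) hmem)
      simp
    · exact Nat.zero_le _
  have h2 : (∑ p ∈ D, ∑ q ∈ E, (univ.filter fun k => h k p.1 = q.1 ∧ h k p.2 = q.2).card) *
      Fintype.card Y ^ 2 ≤ D.card * (E.card * Fintype.card κ) := by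
    rw [Finset.sum_mul, ← smul_eq_mul D.card]
    refine Finset.sum_le_card_nsmul _ _ _ fun p hp' => ?_
    rw [Finset.sum_mul, ← smul_eq_mul E.card]
    refine Finset.sum_le_card_nsmul _ _ _ fun q _ => ?_
    obtain ⟨h3, h4, _⟩ := Finset.mem_filter.1 hp'
    exact hp.count (Finset.mem_product.1 h3).1 (Finset.mem_product.1 h3).2 h4 _ _
  apply Nat.le_of_mul_le_mul_right _ h0
  calc _ ≤ (∑ p ∈ D, ∑ q ∈ E, (univ.filter fun k => h k p.1 = q.1 ∧ h k p.2 = q.2).card) *
        Fintype.card Y * Fintype.card Y := Nat.mul_le_mul_right _ (Nat.mul_le_mul_right _ h1)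
    _ = (∑ p ∈ D, ∑ q ∈ E, (univ.filter fun k => h k p.1 = q.1 ∧ h k p.2 = q.2).card) *
        Fintype.card Y ^ 2 := by ring
    _ ≤ D.card * (E.card * Fintype.card κ) := h2
    _ ≤ (X.card * (2 * m + 1) ^ K₂) * ((Fintype.card Y * (2 * n + 1) ^ K₁) * Fintype.card κ) :=
        Nat.mul_le_mul hD (Nat.mul_le_mul_right _ hE)
    _ = _ := by ring

open Classical in
/-- The number of collisions. -/
lemma collisions {X : Finset (Fin m → Bool)} {h : κ → (Fin m → Bool) → Y}
    (hp : Pairwise2 X h) :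
    (∑ k, ((X ×ˢ X).filter fun p => h k p.1 = h k p.2).card) * Fintype.card Y ≤
      X.card * Fintype.card κ * (X.card + Fintype.card Y) := by
  rcases Nat.eq_zero_or_pos (Fintype.card Y) with h0 | h0
  · rw [h0]; simp
  have h1 : ∑ k, ((X ×ˢ X).filter fun p => h k p.1 = h k p.2).card ≤
      X.card * Fintype.card κ + ∑ p ∈ (X ×ˢ X).filter (fun p => p.1 ≠ p.2),
        ∑ y : Y, (univ.filter fun k => h k p.1 = y ∧ h k p.2 = y).card := by
    have e1 : ∀ k, ((X ×ˢ X).filter fun p => h k p.1 = h k p.2).card ≤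
        X.card + ∑ p ∈ (X ×ˢ X).filter (fun p => p.1 ≠ p.2),
          if h k p.1 = h k p.2 then 1 else 0 := by
      intro k
      rw [← Finset.card_filter, ← Finset.card_filter_add_card_filter_not
        (s := (X ×ˢ X).filter fun p => h k p.1 = h k p.2) fun p => p.1 = p.2]
      refine Nat.add_le_add ?_ ?_
      · refine Finset.card_le_card_of_injOn (fun p => p.1) ?_ ?_
        · intro p hp'
          exact (Finset.mem_product.1 (Finset.mem_filter.1 (Finset.mem_filter.1 hp').1).1).1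
        · intro p hp' q hq' he
          have h2 := (Finset.mem_filter.1 hp').2
          have h3 := (Finset.mem_filter.1 hq').2
          simp only at he
          exact Prod.ext he (by rw [← h2, ← h3, he])
      · refine Finset.card_le_card ?_
        intro p hp'
        obtain ⟨h2, h3⟩ := Finset.mem_filter.1 hp'
        obtain ⟨h4, h5⟩ := Finset.mem_filter.1 h2
        exact Finset.mem_filter.2 ⟨Finset.mem_filter.2 ⟨h4, h3⟩, h5⟩
    refine (Finset.sum_le_sum fun k _ => e1 k).trans ?_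
    rw [Finset.sum_add_distrib, Finset.sum_const, Finset.card_univ, smul_eq_mul,
      mul_comm (Fintype.card κ), Finset.sum_comm]
    refine Nat.add_le_add_left (Finset.sum_le_sum fun p _ => ?_) _
    have e2 : ∀ y : Y, (univ.filter fun k => h k p.1 = y ∧ h k p.2 = y).card =
        ∑ k, if h k p.1 = y ∧ h k p.2 = y then 1 else 0 := fun y => Finset.card_filter _ _
    rw [Finset.sum_congr rfl fun y _ => e2 y, Finset.sum_comm]
    refine Finset.sum_le_sum fun k _ => ?_
    split_ifs with hk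
    · refine le_trans ?_ (Finset.single_le_sum (fun y _ => Nat.zero_le _)
        (Finset.mem_univ (h k p.1)))
      simp [hk]
    · exact Nat.zero_le _
  have h2 : (∑ p ∈ (X ×ˢ X).filter (fun p => p.1 ≠ p.2),
      ∑ y : Y, (univ.filter fun k => h k p.1 = y ∧ h k p.2 = y).card) * Fintype.card Y ^ 2 ≤
      (X.card * X.card) * (Fintype.card Y * Fintype.card κ) := by
    rw [Finset.sum_mul]
    refine (Finset.sum_le_card_nsmul _ _ (Fintype.card Y * Fintype.card κ) fun p hp' => ?_).trans ?_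
    · rw [Finset.sum_mul, ← Finset.card_univ, ← smul_eq_mul]
      refine Finset.sum_le_card_nsmul _ _ _ fun y _ => ?_
      obtain ⟨h3, h4⟩ := Finset.mem_filter.1 hp'
      have := hp.count (Finset.mem_product.1 h3).1 (Finset.mem_product.1 h3).2 h4 y y
      rwa [← Finset.card_univ (α := Y)] at this
    · rw [smul_eq_mul]
      refine Nat.mul_le_mul_right _ ?_
      refine (Finset.card_filter_le _ _).trans ?_
      rw [Finset.card_product]
  apply Nat.le_of_mul_le_mul_right _ h0
  calc _ ≤ (X.card * Fintype.card κ + ∑ p ∈ (X ×ˢ X).filter (fun p => p.1 ≠ p.2),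
        ∑ y : Y, (univ.filter fun k => h k p.1 = y ∧ h k p.2 = y).card) *
        Fintype.card Y * Fintype.card Y := Nat.mul_le_mul_right _ (Nat.mul_le_mul_right _ h1)
    _ = X.card * Fintype.card κ * Fintype.card Y ^ 2 +
        (∑ p ∈ (X ×ˢ X).filter (fun p => p.1 ≠ p.2),
        ∑ y : Y, (univ.filter fun k => h k p.1 = y ∧ h k p.2 = y).card) *
          Fintype.card Y ^ 2 := by ring
    _ ≤ X.card * Fintype.card κ * Fintype.card Y ^ 2 +
        (X.card * X.card) * (Fintype.card Y * Fintype.card κ) := Nat.add_le_add_left h2 _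
    _ = _ := by ring

end Pool.Agent.Y603.CC
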