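import Pool.Agent.Y603.CC.Keyed

/-!
# Pairwise independent families of functions are one-way
-/

set_option autoImplicit false

namespace Pool.Agent.Y603.CC

open Finset Pool.Agent.Y603.MS

variable {w n m : ℕ}

lemma budget2 {s ℓ K d r : ℕ} (hs : 4 * n + 1 ≤ s) (hm : m ≤ 2 * n) (hℓ : 1 ≤ ℓ)
    (hsl : s ≤ 2 ^ ℓ) (hK : 1 ≤ K) (hN : 300 * K * ℓ ^ 2 * (d + 1) * (r + 2) ≤ n) :
    16 * K * (d + 1) * (r + 2) ≤ n ∧
    ((2 * m + 1) ^ (2 * ((r + 2) * (32 * K * ℓ))) * (2 * n + 1) ^ (2 * (r + 2)) * 2 ^ r) ^ 4 ≤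
      2 ^ n := by
  have hl2 : 1 ≤ ℓ ^ 2 := Nat.one_le_pow _ _ hℓ
  have hll : ℓ ≤ ℓ ^ 2 := Nat.le_self_pow (by norm_num) _
  constructor
  · calc 16 * K * (d + 1) * (r + 2) = 16 * (K * 1 * (d + 1) * (r + 2)) := by ring
      _ ≤ 300 * (K * ℓ ^ 2 * (d + 1) * (r + 2)) := Nat.mul_le_mul (by norm_num)
          (Nat.mul_le_mul_right _ (Nat.mul_le_mul_right _ (Nat.mul_le_mul_left _ hl2)))
      _ = 300 * K * ℓ ^ 2 * (d + 1) * (r + 2) := by ring
      _ ≤ n := hN
  · have h1 : 2 * n + 1 ≤ 2 ^ ℓ := by omega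
    have h2 : 2 * m + 1 ≤ 2 ^ ℓ := by omega
    calc ((2 * m + 1) ^ (2 * ((r + 2) * (32 * K * ℓ))) * (2 * n + 1) ^ (2 * (r + 2)) * 2 ^ r) ^ 4
        ≤ ((2 ^ ℓ) ^ (2 * ((r + 2) * (32 * K * ℓ))) * (2 ^ ℓ) ^ (2 * (r + 2)) * 2 ^ r) ^ 4 :=
          Nat.pow_le_pow_left (Nat.mul_le_mul_right _ (Nat.mul_le_mul (Nat.pow_le_pow_left h2 _)
            (Nat.pow_le_pow_left h1 _))) _
      _ = 2 ^ ((ℓ * (2 * ((r + 2) * (32 * K * ℓ))) + ℓ * (2 * (r + 2)) + r) * 4) := by
          rw [← pow_mul, ← pow_mul, ← pow_add, ← pow_add, ← pow_mul]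
      _ ≤ 2 ^ n := by
          refine Nat.pow_le_pow_right (by norm_num) ?_
          calc (ℓ * (2 * ((r + 2) * (32 * K * ℓ))) + ℓ * (2 * (r + 2)) + r) * 4
              ≤ (ℓ * (2 * ((r + 2) * (32 * K * ℓ))) + ℓ * (2 * (r + 2)) + (r + 2)) * 4 := by omega
            _ = 256 * (K * ℓ ^ 2 * 1 * (r + 2)) + 8 * (1 * ℓ * 1 * (r + 2)) +
                4 * (1 * 1 * 1 * (r + 2)) := by ring
            _ ≤ 256 * (K * ℓ ^ 2 * (d + 1) * (r + 2)) + 8 * (K * ℓ ^ 2 * (d + 1) * (r + 2)) +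
                4 * (K * ℓ ^ 2 * (d + 1) * (r + 2)) := by
                gcongr <;> omega
            _ = 268 * (K * ℓ ^ 2 * (d + 1) * (r + 2)) := by ring
            _ ≤ 300 * (K * ℓ ^ 2 * (d + 1) * (r + 2)) := Nat.mul_le_mul_right _ (by norm_num)
            _ = 300 * K * ℓ ^ 2 * (d + 1) * (r + 2) := by ring
            _ ≤ n := hN

variable {κ Y : Type} [Fintype κ] [Fintype Y]

open Classical in
/-- The keys and the inputs for which the circuits `C k` find a preimage in `X`. -/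
noncomputable def found (X : Finset (Fin m → Bool)) (h : κ → (Fin m → Bool) → Y)
    (enc : Y → Fin n → Bool) (f : κ → (Fin n → Bool) → Fin m → Bool) (k : κ) :
    Finset (Fin m → Bool) :=
  X.filter fun x => f k (enc (h k x)) ∈ X ∧ h k (f k (enc (h k x))) = h k x

open Classical in
lemma found_sq (X : Finset (Fin m → Bool)) (h : κ → (Fin m → Bool) → Y)
    (enc : Y → Fin n → Bool) (henc : Function.Injective enc)
    (f : κ → (Fin n → Bool) → Fin m → Bool) :
    (∑ k, (found X h enc f k).card) ^ 2 ≤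
      (∑ k, (univ.filter fun z => f k z ∈ X ∧ enc (h k (f k z)) = z).card) *
      ∑ k, ((X ×ˢ X).filter fun p => h k p.1 = h k p.2).card := by
  let S : κ → Finset (Fin n → Bool) := fun k =>
    univ.filter fun z => f k z ∈ X ∧ enc (h k (f k z)) = z
  let c : κ → (Fin n → Bool) → ℕ := fun k z => (X.filter fun x => enc (h k x) = z).card
  have h1 : ∀ k, (found X h enc f k).card ≤ ∑ z ∈ S k, c k z := by
    intro k
    have h2 : ∀ x ∈ found X h enc f k, enc (h k x) ∈ S k := by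
      intro x hx
      obtain ⟨_, h3, h4⟩ := Finset.mem_filter.1 hx
      refine Finset.mem_filter.2 ⟨Finset.mem_univ _, h3, ?_⟩
      rw [h4]
    rw [Finset.card_eq_sum_card_fiberwise h2]
    refine Finset.sum_le_sum fun z _ => Finset.card_le_card ?_
    intro x hx
    obtain ⟨h3, h4⟩ := Finset.mem_filter.1 hx
    exact Finset.mem_filter.2 ⟨(Finset.mem_filter.1 h3).1, h4⟩
  have h2 : ∀ k, ∑ z ∈ S k, c k z ^ 2 ≤ ((X ×ˢ X).filter fun p => h k p.1 = h k p.2).card := by
    intro k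
    have h3 : ((X ×ˢ X).filter fun p => h k p.1 = h k p.2).card =
        ∑ z : Fin n → Bool, (((X ×ˢ X).filter fun p => h k p.1 = h k p.2).filter
          fun p => enc (h k p.1) = z).card :=
      Finset.card_eq_sum_card_fiberwise fun _ _ => Finset.mem_univ _
    rw [h3]
    refine le_trans ?_ (Finset.sum_le_sum_of_subset (Finset.subset_univ (S k)))
    refine Finset.sum_le_sum fun z _ => ?_
    rw [pow_two, ← Finset.card_product]
    refine Finset.card_le_card ?_
    rintro ⟨x, y⟩ hxy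
    obtain ⟨h4, h5⟩ := Finset.mem_product.1 hxy
    obtain ⟨h6, h7⟩ := Finset.mem_filter.1 h4
    obtain ⟨h8, h9⟩ := Finset.mem_filter.1 h5
    refine Finset.mem_filter.2 ⟨Finset.mem_filter.2 ⟨Finset.mem_product.2 ⟨h6, h8⟩, ?_⟩, h7⟩
    exact henc (h7.trans h9.symm)
  have h3 : ∑ k, (found X h enc f k).card ≤ ∑ p ∈ univ.sigma S, c p.1 p.2 := by
    rw [Finset.sum_sigma]
    exact Finset.sum_le_sum fun k _ => h1 k
  calc (∑ k, (found X h enc f k).card) ^ 2 ≤ (∑ p ∈ univ.sigma S, c p.1 p.2) ^ 2 :=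
        Nat.pow_le_pow_left h3 2
    _ ≤ (univ.sigma S).card * ∑ p ∈ univ.sigma S, c p.1 p.2 ^ 2 := sq_sum_le_card_mul_sum_sq
    _ = (∑ k, (S k).card) * ∑ k, ∑ z ∈ S k, c k z ^ 2 := by
        rw [Finset.card_sigma, Finset.sum_sigma]
    _ ≤ _ := Nat.mul_le_mul_left _ (Finset.sum_le_sum fun k _ => h2 k)

open Classical in
/-- **Pairwise independent families are one-way for circuits of constant depth.** -/
theorem keyed {s d t : ℕ} (hw : 1 ≤ w) (hs' : 4 * n + 1 ≤ s) (hm : m ≤ 2 * n)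
    (X : Finset (Fin m → Bool)) (h : κ → (Fin m → Bool) → Y) (hp : Pairwise2 X h)
    (enc : Y → Fin n → Bool) (henc : Function.Injective enc)
    (hXY : X.card ^ 4 ≤ 2 ^ (3 * n) * Fintype.card Y ^ 4)
    (C : κ → Circuit w n) (out : ∀ k, Fin m → (C k).Node)
    (hs : ∀ k, Nat.card (C k).Node ≤ s) (hd' : ∀ k v, (C k).depth v ≤ d)
    (ht : ∀ k, (C k).leak.card ≤ t) :
    ((∑ k, (found X h enc (fun k z i => (C k).val (out k i) z) k).card : ℕ) : ℝ) ^ 2 *
      Fintype.card Y ≤ 16 * 2 ^ t * (Fintype.card κ : ℝ) ^ 2 * X.card *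
        (X.card + Fintype.card Y) * 2 ^ n * err n s d w := by
  set f : κ → (Fin n → Bool) → Fin m → Bool := fun k z i => (C k).val (out k i) z with hf
  have hY : Fintype.card Y ≤ 2 ^ n := by
    refine (Fintype.card_le_of_injective enc henc).trans ?_
    rw [Fintype.card_fun, Fintype.card_bool, Fintype.card_fin]
  have hsq := found_sq X h enc henc f
  have hcoll := collisions hp
  have h0 : (∑ k, (found X h enc f k).card) ^ 2 * Fintype.card Y ≤
      (2 ^ (t + 1) * (Fintype.card κ ^ 2 * X.card * (X.card + Fintype.card Y))) * 2 ^ n := by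
    have h1 : ∑ k, (found X h enc f k).card ≤ Fintype.card κ * X.card := by
      rw [← Finset.card_univ, ← smul_eq_mul]
      exact Finset.sum_le_card_nsmul _ _ _ fun k _ => Finset.card_filter_le _ _
    have h2 : 1 ≤ 2 ^ (t + 1) := Nat.one_le_two_pow
    calc (∑ k, (found X h enc f k).card) ^ 2 * Fintype.card Y
        ≤ (Fintype.card κ * X.card) ^ 2 * 2 ^ n := Nat.mul_le_mul (Nat.pow_le_pow_left h1 2) hY
      _ = (1 * (Fintype.card κ ^ 2 * X.card * X.card)) * 2 ^ n := by ring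
      _ ≤ (2 ^ (t + 1) * (Fintype.card κ ^ 2 * X.card * (X.card + Fintype.card Y))) * 2 ^ n := by
          gcongr
          omega
  have hmain := to_err (P := (∑ k, (found X h enc f k).card) ^ 2 * Fintype.card Y)
    (c := 2 ^ (t + 1) * (Fintype.card κ ^ 2 * X.card * (X.card + Fintype.card Y)))
    (d := d) hw hs' h0 fun r ℓ K hℓ hsl hK hK1 hN => ?_
  · push_cast at hmain ⊢
    refine hmain.trans (le_of_eq ?_)
    rw [pow_succ]
    ring
  · obtain ⟨b1, b2⟩ := budget2 hs' hm hℓ hsl hK1 hN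
    set V := (2 * m + 1) ^ (2 * ((r + 2) * (32 * K * ℓ))) * (2 * n + 1) ^ (2 * (r + 2)) with hV
    let P : κ → Finset ((Fin m → Bool) × (Fin m → Bool)) := fun k =>
      (X ×ˢ X).filter fun p => p.1 ≠ p.2 ∧ hd p.1 p.2 ≤ 2 * ((r + 2) * (32 * K * ℓ)) ∧
        hd (enc (h k p.1)) (enc (h k p.2)) ≤ 2 * (r + 2)
    have hP := pairs_close hp enc henc (2 * (r + 2)) (2 * ((r + 2) * (32 * K * ℓ)))
    have hS : ∀ k, (univ.filter fun z => f k z ∈ X ∧ enc (h k (f k z)) = z).card * 2 ^ r ≤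
        2 ^ t * (2 ^ n + (P k).card * 2 ^ r) := by
      intro k
      have h1 := all_patterns2 (C k) (out k) hm hℓ hw ((hs k).trans hsl) (hd' k) (ht k) hK b1
        (univ.filter fun z => f k z ∈ X ∧ enc (h k (f k z)) = z)
        ((P k).image fun p => enc (h k p.1)) (by
          intro z hz z' hz' hne h2 h3
          obtain ⟨_, h4, h5⟩ := Finset.mem_filter.1 hz
          obtain ⟨_, h6, h7⟩ := Finset.mem_filter.1 hz'
          refine Finset.mem_image.2 ⟨(f k z, f k z'), Finset.mem_filter.2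
            ⟨Finset.mem_product.2 ⟨h4, h6⟩, ?_, h3, ?_⟩, h5⟩
          · intro he
            apply hne
            simp only at he
            rw [← h5, ← h7, he]
          · simp only
            rw [h5, h7]
            exact h2)
      refine h1.trans (Nat.mul_le_mul_left _ (Nat.add_le_add_left (Nat.mul_le_mul_right _
        Finset.card_image_le) _))
    have hXV : X.card * V * 2 ^ r ≤ 2 ^ n * Fintype.card Y := by
      rw [← Nat.pow_le_pow_iff_left (n := 4) (by norm_num)]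
      calc (X.card * V * 2 ^ r) ^ 4 = X.card ^ 4 * (V * 2 ^ r) ^ 4 := by rw [mul_assoc, mul_pow]
        _ ≤ (2 ^ (3 * n) * Fintype.card Y ^ 4) * 2 ^ n := Nat.mul_le_mul hXY b2
        _ = (2 ^ n * Fintype.card Y) ^ 4 := by
            rw [mul_pow, ← pow_mul, show n * 4 = 3 * n + n by ring, pow_add]; ring
    have hPr : (∑ k, (P k).card) * 2 ^ r ≤ 2 ^ n * Fintype.card κ := by
      rcases Nat.eq_zero_or_pos (Fintype.card Y) with hy | hy
      · have : Fintype.card κ = 0 := by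
          by_contra hk
          obtain ⟨k⟩ := Fintype.card_pos_iff.1 (Nat.pos_of_ne_zero hk)
          have : 0 < Fintype.card Y := Fintype.card_pos_iff.2 ⟨h k fun _ => false⟩
          omega
        have hke : IsEmpty κ := Fintype.card_eq_zero_iff.1 this
        simp
      · apply Nat.le_of_mul_le_mul_right _ hy
        calc (∑ k, (P k).card) * 2 ^ r * Fintype.card Y =
              ((∑ k, (P k).card) * Fintype.card Y) * 2 ^ r := by ring
          _ ≤ (X.card * V * Fintype.card κ) * 2 ^ r := Nat.mul_le_mul_right _ hP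
          _ = (X.card * V * 2 ^ r) * Fintype.card κ := by ring
          _ ≤ (2 ^ n * Fintype.card Y) * Fintype.card κ := Nat.mul_le_mul_right _ hXV
          _ = _ := by ring
    have hSsum : (∑ k, (univ.filter fun z => f k z ∈ X ∧ enc (h k (f k z)) = z).card) * 2 ^ r ≤
        2 ^ (t + 1) * (2 ^ n * Fintype.card κ) := by
      rw [Finset.sum_mul]
      refine (Finset.sum_le_sum fun k _ => hS k).trans ?_
      rw [← Finset.mul_sum, Finset.sum_add_distrib, Finset.sum_const, Finset.card_univ,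
        smul_eq_mul, ← Finset.sum_mul, pow_succ, mul_assoc]
      refine Nat.mul_le_mul_left _ ?_
      rw [mul_comm (Fintype.card κ)]
      omega
    calc (∑ k, (found X h enc f k).card) ^ 2 * Fintype.card Y * 2 ^ r
        ≤ ((∑ k, (univ.filter fun z => f k z ∈ X ∧ enc (h k (f k z)) = z).card) *
          ∑ k, ((X ×ˢ X).filter fun p => h k p.1 = h k p.2).card) * Fintype.card Y * 2 ^ r :=
          Nat.mul_le_mul_right _ (Nat.mul_le_mul_right _ hsq)
      _ = ((∑ k, (univ.filter fun z => f k z ∈ X ∧ enc (h k (f k z)) = z).card) * 2 ^ r) *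
          ((∑ k, ((X ×ˢ X).filter fun p => h k p.1 = h k p.2).card) * Fintype.card Y) := by ring
      _ ≤ (2 ^ (t + 1) * (2 ^ n * Fintype.card κ)) *
          (X.card * Fintype.card κ * (X.card + Fintype.card Y)) := Nat.mul_le_mul hSsum hcoll
      _ = _ := by ring

end Pool.Agent.Y603.CC
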