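import Pool.Agent.Y603.CC.Aval

/-!
# The sensitivity of De Morgan formulas (Khrapchenko)
-/

set_option autoImplicit false

namespace Pool.Agent.Y603.CC

open Finset Pool.Agent.Y603.MS

variable {N m : ℕ}

/-- Formulas with AND and OR gates, whose leaves are variables or negated variables. -/
inductive Formula (N : ℕ) : Type
  | const : Bool → Formula N
  | lit : Fin N → Bool → Formula N
  | and : Formula N → Formula N → Formula N
  | or : Formula N → Formula N → Formula N

/-- The value of a formula. -/
def Formula.eval : Formula N → (Fin N → Bool) → Bool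
  | .const b, _ => b
  | .lit i b, z => z i == b
  | .and φ ψ, z => φ.eval z && ψ.eval z
  | .or φ ψ, z => φ.eval z || ψ.eval z

/-- The number of leaves that are variables or negated variables. -/
def Formula.leaves : Formula N → ℕ
  | .const _ => 0
  | .lit _ _ => 1
  | .and φ ψ => φ.leaves + ψ.leaves
  | .or φ ψ => φ.leaves + ψ.leaves

/-- The number of edges of the cube from `A` to `B`. -/
def edges (A B : Finset (Fin N → Bool)) : ℕ :=
  ∑ a ∈ A, (univ.filter fun i => flip1 i a ∈ B).card

lemma edges_comm (A B : Finset (Fin N → Bool)) : edges A B = edges B A := by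
  have h1 : ∀ A B : Finset (Fin N → Bool), edges A B =
      ∑ i, ∑ z, if z ∈ A ∧ flip1 i z ∈ B then 1 else 0 := by
    intro A B
    unfold edges
    rw [Finset.sum_comm, ← Finset.sum_filter_add_sum_filter_not univ (fun z => z ∈ A)]
    have h2 : ∑ z ∈ univ.filter (fun z => ¬ z ∈ A), ∑ i : Fin N,
        (if z ∈ A ∧ flip1 i z ∈ B then 1 else 0) = 0 := by
      refine Finset.sum_eq_zero fun z hz => Finset.sum_eq_zero fun i _ => ?_
      rw [if_neg]
      exact fun h => (Finset.mem_filter.1 hz).2 h.1
    rw [h2, add_zero]
    have h3 : univ.filter (fun z => z ∈ A) = A := by ext z; simp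
    rw [h3]
    refine Finset.sum_congr rfl fun z hz => ?_
    rw [Finset.card_filter]
    refine Finset.sum_congr rfl fun i _ => ?_
    simp [hz]
  rw [h1 A B, h1 B A]
  refine Finset.sum_congr rfl fun i _ => ?_
  let e : (Fin N → Bool) ≃ (Fin N → Bool) :=
    { toFun := flip1 i
      invFun := flip1 i
      left_inv := flip1_flip1 i
      right_inv := flip1_flip1 i }
  rw [← Equiv.sum_comp e fun z => if z ∈ A ∧ flip1 i z ∈ B then 1 else 0]
  refine Finset.sum_congr rfl fun z _ => ?_
  show (if flip1 i z ∈ A ∧ flip1 i (flip1 i z) ∈ B then 1 else 0) = _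
  rw [flip1_flip1]
  exact if_congr and_comm rfl rfl

lemma edges_split (A B : Finset (Fin N → Bool)) (p : (Fin N → Bool) → Bool) :
    edges A B = edges A (B.filter fun z => p z = true) +
      edges A (B.filter fun z => p z = false) := by
  unfold edges
  rw [← Finset.sum_add_distrib]
  refine Finset.sum_congr rfl fun a _ => ?_
  rw [← Finset.card_union_of_disjoint]
  · congr 1
    ext i
    simp only [Finset.mem_filter, Finset.mem_univ, true_and, Finset.mem_union]
    cases p (flip1 i a) <;> simp
  · rw [Finset.disjoint_left]
    intro i hi hi'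
    have h1 := (Finset.mem_filter.1 (Finset.mem_filter.1 hi).2).2
    have h2 := (Finset.mem_filter.1 (Finset.mem_filter.1 hi').2).2
    rw [h1] at h2
    exact absurd h2 (by simp)

lemma cauchy2 {a b x₁ x₂ y₁ y₂ : ℝ} (ha : 0 ≤ a) (hb : 0 ≤ b) (hx₁ : 0 ≤ x₁) (hx₂ : 0 ≤ x₂)
    (hy₁ : 0 ≤ y₁) (hy₂ : 0 ≤ y₂) (h₁ : a ^ 2 ≤ x₁ * y₁) (h₂ : b ^ 2 ≤ x₂ * y₂) :
    (a + b) ^ 2 ≤ (x₁ + x₂) * (y₁ + y₂) := by
  have h3 : (2 * (a * b)) ^ 2 ≤ (x₁ * y₂ + x₂ * y₁) ^ 2 := by
    have h4 : a ^ 2 * b ^ 2 ≤ (x₁ * y₁) * (x₂ * y₂) := mul_le_mul h₁ h₂ (by positivity)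
      (by positivity)
    nlinarith [sq_nonneg (x₁ * y₂ - x₂ * y₁)]
  have h5 : 2 * (a * b) ≤ x₁ * y₂ + x₂ * y₁ :=
    abs_le_of_sq_le_sq' h3 (by positivity) |>.2
  nlinarith

/-- **Khrapchenko's bound.** -/
theorem khr (φ : Formula N) : ∀ A B : Finset (Fin N → Bool), (∀ a ∈ A, φ.eval a = false) →
    (∀ b ∈ B, φ.eval b = true) → (edges A B : ℝ) ^ 2 ≤ φ.leaves * (A.card * B.card) := by
  induction φ with
  | const c =>
    intro A B hA hB
    have h : edges A B = 0 := by
      unfold edges
      refine Finset.sum_eq_zero fun a ha => ?_
      rw [Finset.card_eq_zero, Finset.filter_eq_empty_iff]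
      intro i _ hi
      have h1 := hA a ha
      have h2 := hB _ hi
      simp only [Formula.eval] at h1 h2
      rw [h1] at h2
      exact absurd h2 (by simp)
    rw [h]
    simp [Formula.leaves]
  | lit i c =>
    intro A B hA hB
    have h1 : ∀ A B : Finset (Fin N → Bool), (∀ a ∈ A, ∀ j, flip1 j a ∈ B → j = i) →
        edges A B ≤ A.card := by
      intro A B h
      unfold edges
      rw [← mul_one A.card, ← smul_eq_mul]
      refine Finset.sum_le_card_nsmul _ _ _ fun a ha => ?_
      rw [Finset.card_le_one]
      intro j hj k hk
      rw [h a ha j (Finset.mem_filter.1 hj).2, h a ha k (Finset.mem_filter.1 hk).2]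
    have hA' : ∀ a ∈ A, a i = !c := by
      intro a ha
      have := hA a ha
      simp only [Formula.eval, beq_eq_false_iff_ne, ne_eq] at this
      cases hai : a i <;> cases c <;> simp_all
    have hB' : ∀ b ∈ B, b i = c := by
      intro b hb
      have := hB b hb
      simpa only [Formula.eval, beq_iff_eq] using this
    have h2 : edges A B ≤ A.card := by
      refine h1 A B fun a ha j hj => ?_
      by_contra hne
      have h3 := hB' _ hj
      unfold flip1 at h3
      rw [Function.update_of_ne (fun h => hne h.symm), hA' a ha] at h3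
      cases c <;> simp at h3
    have h3 : edges A B ≤ B.card := by
      rw [edges_comm]
      refine h1 B A fun b hb j hj => ?_
      by_contra hne
      have h3 := hA' _ hj
      unfold flip1 at h3
      rw [Function.update_of_ne (fun h => hne h.symm), hB' b hb] at h3
      cases c <;> simp at h3
    have h4 : edges A B ^ 2 ≤ A.card * B.card := by
      rw [pow_two]
      exact Nat.mul_le_mul h2 h3
    simp only [Formula.leaves, Nat.cast_one, one_mul]
    exact_mod_cast h4
  | and φ ψ ih₁ ih₂ =>
    intro A B hA hB
    rw [edges_comm, edges_split B A φ.eval]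
    have h1 := ih₂ (A.filter fun z => φ.eval z = true) B (by
      intro a ha
      obtain ⟨h1, h2⟩ := Finset.mem_filter.1 ha
      have := hA a h1
      simp only [Formula.eval, h2, Bool.true_and] at this
      exact this) (by
      intro b hb
      have := hB b hb
      simp only [Formula.eval, Bool.and_eq_true] at this
      exact this.2)
    have h2 := ih₁ (A.filter fun z => φ.eval z = false) B (by
      intro a ha
      exact (Finset.mem_filter.1 ha).2) (by
      intro b hb
      have := hB b hb
      simp only [Formula.eval, Bool.and_eq_true] at this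
      exact this.1)
    rw [edges_comm] at h1 h2
    have h3 : A.card = (A.filter fun z => φ.eval z = true).card +
        (A.filter fun z => φ.eval z = false).card := by
      rw [← Finset.card_filter_add_card_filter_not (s := A) fun z => φ.eval z = true]
      congr 2
      ext z
      simp
    have h4 := cauchy2 (Nat.cast_nonneg _) (Nat.cast_nonneg _) (Nat.cast_nonneg _)
      (Nat.cast_nonneg _) (by positivity) (by positivity) h1 h2
    push_cast
    refine h4.trans (le_of_eq ?_)
    rw [h3]
    simp only [Formula.leaves]
    push_cast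
    ring
  | or φ ψ ih₁ ih₂ =>
    intro A B hA hB
    rw [edges_split A B φ.eval]
    have h1 := ih₁ A (B.filter fun z => φ.eval z = true) (by
      intro a ha
      have := hA a ha
      simp only [Formula.eval, Bool.or_eq_false_iff] at this
      exact this.1) (fun b hb => (Finset.mem_filter.1 hb).2)
    have h2 := ih₂ A (B.filter fun z => φ.eval z = false) (by
      intro a ha
      have := hA a ha
      simp only [Formula.eval, Bool.or_eq_false_iff] at this
      exact this.2) (by
      intro b hb
      obtain ⟨h3, h4⟩ := Finset.mem_filter.1 hb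
      have := hB b h3
      simp only [Formula.eval, h4, Bool.false_or] at this
      exact this)
    have h3 : B.card = (B.filter fun z => φ.eval z = true).card +
        (B.filter fun z => φ.eval z = false).card := by
      rw [← Finset.card_filter_add_card_filter_not (s := B) fun z => φ.eval z = true]
      congr 2
      ext z
      simp
    have h4 := cauchy2 (Nat.cast_nonneg _) (Nat.cast_nonneg _) (Nat.cast_nonneg _)
      (Nat.cast_nonneg _) (by positivity) (by positivity) h1 h2
    push_cast
    refine h4.trans (le_of_eq ?_)
    rw [h3]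
    simp only [Formula.leaves]
    push_cast
    ring

/-- The number of the edges of the cube at which the function `f` changes, counted twice. -/
def bitflips (f : (Fin N → Bool) → Bool) : ℕ :=
  ∑ z, (univ.filter fun i => f z ≠ f (flip1 i z)).card

lemma bitflips_le (φ : Formula N) : (bitflips φ.eval : ℝ) ≤ 2 ^ N * Real.sqrt φ.leaves := by
  set A := univ.filter fun z => φ.eval z = false with hA
  set B := univ.filter fun z => φ.eval z = true with hB
  have h1 : bitflips φ.eval = 2 * edges A B := by
    have h2 : bitflips φ.eval = edges A B + edges B A := by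
      unfold bitflips
      rw [← Finset.sum_filter_add_sum_filter_not univ (fun z => φ.eval z = false)]
      unfold edges
      congr 1
      · refine Finset.sum_congr rfl fun z hz => ?_
        congr 1
        ext i
        have := (Finset.mem_filter.1 hz).2
        simp only [hB, Finset.mem_filter, Finset.mem_univ, true_and, this]
        cases φ.eval (flip1 i z) <;> simp
      · have h3 : univ.filter (fun z => ¬ φ.eval z = false) = B := by
          rw [hB]
          ext z
          simp
        rw [h3]
        refine Finset.sum_congr rfl fun z hz => ?_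
        congr 1
        ext i
        have := (Finset.mem_filter.1 hz).2
        simp only [hA, Finset.mem_filter, Finset.mem_univ, true_and, this]
        cases φ.eval (flip1 i z) <;> simp
    rw [h2, edges_comm B A]
    ring
  have h2 := khr φ A B (fun a ha => (Finset.mem_filter.1 ha).2)
    (fun b hb => (Finset.mem_filter.1 hb).2)
  have h3 : (A.card : ℝ) + B.card = 2 ^ N := by
    have h4 : A.card + B.card = 2 ^ N := by
      rw [← card_pts (N := N), ← Finset.card_univ,
        ← Finset.card_filter_add_card_filter_not (s := univ) fun z => φ.eval z = false]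
      congr 2
      rw [hB]
      ext z
      simp
    exact_mod_cast h4
  have h4 : ((2 * edges A B : ℕ) : ℝ) ^ 2 ≤ (2 ^ N * Real.sqrt φ.leaves) ^ 2 := by
    rw [mul_pow, Real.sq_sqrt (Nat.cast_nonneg _), ← h3]
    push_cast
    have h5 : (0 : ℝ) ≤ φ.leaves := Nat.cast_nonneg _
    nlinarith [sq_nonneg ((A.card : ℝ) - B.card), mul_nonneg h5 (sq_nonneg ((A.card : ℝ) - B.card))]
  rw [h1]
  exact abs_le_of_sq_le_sq' h4 (by positivity) |>.2

/-- The sensitivity of a function whose output bits are computed by formulas. -/
theorem flips_le (C : (Fin N → Bool) → Fin m → Bool) (φ : Fin m → Formula N)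
    (h : ∀ z j, C z j = (φ j).eval z) :
    ((∑ i, flips C i : ℕ) : ℝ) ≤ 2 ^ N * ∑ j, Real.sqrt (φ j).leaves := by
  have h1 : ∑ i, flips C i = ∑ j, bitflips (φ j).eval := by
    unfold flips bitflips hd
    simp only [Finset.card_filter, h]
    rw [Finset.sum_comm, Finset.sum_comm (s := (univ : Finset (Fin m)))]
    refine Finset.sum_congr rfl fun z _ => ?_
    rw [Finset.sum_comm]
  rw [h1]
  push_cast
  rw [Finset.mul_sum]
  exact Finset.sum_le_sum fun j _ => bitflips_le (φ j)

end Pool.Agent.Y603.CC
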