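import Pool.Agent.Y603.MS.Close
import Pool.Agent.Y603.MS.Sparse

/-!
# Circuits of constant depth do not invert functions that separate close points
-/

set_option autoImplicit false

namespace Pool.Agent.Y603.CC

open Finset Pool.Agent.Y603.MS

/-- The Hamming distance. -/
def hd {N : ℕ} (x y : Fin N → Bool) : ℕ := (univ.filter fun i => x i ≠ y i).card

lemma hd_comm {N : ℕ} (x y : Fin N → Bool) : hd x y = hd y x := by
  unfold hd
  simp only [ne_comm]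

variable {w N : ℕ}

/-- The numbers of bits in the next theorem. -/
def Sep (F : (Fin N → Bool) → Fin N → Bool) (K₁ K₂ A : ℕ) : Prop :=
  ∃ T : Finset (Fin N → Bool), T.card ≤ A ∧
    ∀ a b, F a ≠ F b → hd a b ≤ K₂ → hd (F a) (F b) ≤ K₁ → F a ∈ T

open Classical in
/-- The values that are inverted, for one pattern of the leaked bits. -/
theorem one_pattern (C : Circuit w N) (out : Fin N → C.Node) {ℓ d r K A : ℕ}
    (hℓ : 1 ≤ ℓ) (hw : 1 ≤ w) (hs : Nat.card C.Node ≤ 2 ^ ℓ)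
    (hd' : ∀ v, C.depth v ≤ d) (hK : K = (2 ^ (d + 9) * (w * ℓ)) ^ d)
    (hN : 16 * K * (d + 1) * (r + 2) ≤ N) (al : C.Node → Bool)
    (F : (Fin N → Bool) → Fin N → Bool)
    (hA : Sep F (2 * (r + 2)) (2 * ((r + 2) * (16 * K * ℓ))) A)
    (S : Finset (Fin N → Bool))
    (hS : ∀ z ∈ S, F (fun i => C.val (out i) z) = z ∧ ∀ v ∈ C.leak, C.val v z = al v) :
    S.card * 2 ^ r ≤ 2 ^ N + A * 2 ^ r := by
  obtain ⟨g, hg1, hg2⟩ := unleak C al
  obtain ⟨T, hT, hT2⟩ := hA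
  let f : (Fin N → Bool) → Fin N → Bool := fun z i => C.val (out i) z
  let Cl : (Fin N → Bool) → (Fin N → Bool) → Prop := fun z z' => z ≠ z' ∧
    hd z z' ≤ 2 * (r + 2) ∧ hd (f z) (f z') ≤ 2 * ((r + 2) * (16 * K * ℓ))
  let W := S.filter fun z => ∃ z' ∈ S, Cl z z'
  have hW : W.card ≤ A := by
    refine (Finset.card_le_card ?_).trans hT
    intro z hz
    obtain ⟨hz1, z', hz', hc1, hc2, hc3⟩ := Finset.mem_filter.1 hz
    have e1 : F (f z) = z := (hS z hz1).1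
    have e2 : F (f z') = z' := (hS z' hz').1
    have := hT2 (f z) (f z') (by rw [e1, e2]; exact hc1) hc3 (by rw [e1, e2]; exact hc2)
    rwa [e1] at this
  let G := S.filter fun z => ¬ ∃ z' ∈ S, Cl z z'
  have hGS : ∀ z ∈ G, ∀ v, g v z = C.val v z := fun z hz v =>
    hg1 z (hS z (Finset.mem_filter.1 hz).1).2 v
  have hG : G.card * 2 ^ r ≤ 2 ^ N := by
    by_contra hcon
    push Not at hcon
    obtain ⟨x, hx, y, hy, hne, h1, h2⟩ := close_pair C g hg2 hℓ hw hs hd' hK hN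
      (κ := Fin N) (by simp) out G hcon
    have h3 : (univ.filter fun v : Fin N => g (out v) x ≠ g (out v) y) =
        univ.filter fun v : Fin N => C.val (out v) x ≠ C.val (out v) y := by
      refine Finset.filter_congr fun v _ => ?_
      rw [hGS x hx, hGS y hy]
    rw [h3] at h2
    exact (Finset.mem_filter.1 hx).2 ⟨y, (Finset.mem_filter.1 hy).1, hne, h1, h2⟩
  have hsplit : S.card = W.card + G.card := by
    rw [← Finset.card_filter_add_card_filter_not (s := S) fun z => ∃ z' ∈ S, Cl z z']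
  rw [hsplit, Nat.add_mul, add_comm]
  exact Nat.add_le_add hG (Nat.mul_le_mul_right _ hW)

open Classical in
/-- The values that are inverted. -/
theorem all_patterns (C : Circuit w N) (out : Fin N → C.Node) {ℓ d r K A t : ℕ}
    (hℓ : 1 ≤ ℓ) (hw : 1 ≤ w) (hs : Nat.card C.Node ≤ 2 ^ ℓ)
    (hd' : ∀ v, C.depth v ≤ d) (ht : C.leak.card ≤ t) (hK : K = (2 ^ (d + 9) * (w * ℓ)) ^ d)
    (hN : 16 * K * (d + 1) * (r + 2) ≤ N)
    (F : (Fin N → Bool) → Fin N → Bool)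
    (hA : Sep F (2 * (r + 2)) (2 * ((r + 2) * (16 * K * ℓ))) A) :
    (univ.filter fun z => F (fun i => C.val (out i) z) = z).card * 2 ^ r ≤
      2 ^ t * (2 ^ N + A * 2 ^ r) := by
  have := C.finite
  let _ : Fintype C.Node := Fintype.ofFinite _
  set S : Finset (Fin N → Bool) := univ.filter fun z => F (fun i => C.val (out i) z) = z with hS
  let pat : (Fin N → Bool) → (C.leak → Bool) := fun y v => C.val v y
  have h2 : S.card = ∑ β : C.leak → Bool, (S.filter fun y => pat y = β).card :=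
    Finset.card_eq_sum_card_fiberwise fun _ _ => Finset.mem_univ _
  have h3 : ∀ β : C.leak → Bool, (S.filter fun y => pat y = β).card * 2 ^ r ≤
      2 ^ N + A * 2 ^ r := by
    intro β
    refine one_pattern C out hℓ hw hs hd' hK hN
      (fun v => if h : v ∈ C.leak then β ⟨v, h⟩ else false) F hA _ fun y hy => ?_
    obtain ⟨hy1, hy2⟩ := Finset.mem_filter.1 hy
    refine ⟨(Finset.mem_filter.1 hy1).2, fun v hv => ?_⟩
    rw [dif_pos hv, ← hy2]
  have h4 : Fintype.card (C.leak → Bool) = 2 ^ C.leak.card := by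
    rw [Fintype.card_fun, Fintype.card_bool, Fintype.card_coe]
  rw [h2, Finset.sum_mul]
  calc ∑ β : C.leak → Bool, (S.filter fun y => pat y = β).card * 2 ^ r
      ≤ ∑ _β : C.leak → Bool, (2 ^ N + A * 2 ^ r) := Finset.sum_le_sum fun β _ => h3 β
    _ = 2 ^ C.leak.card * (2 ^ N + A * 2 ^ r) := by
        rw [Finset.sum_const, Finset.card_univ, h4, smul_eq_mul]
    _ ≤ _ := Nat.mul_le_mul_right _ (Nat.pow_le_pow_right (by norm_num) ht)

lemma exp_bound (X : ℝ) (r : ℕ) (hr : X < r + 3) :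
    (1 / 2 : ℝ) ^ r ≤ 8 * Real.exp (-(2 * X / 3)) := by
  have hl : (2 : ℝ) / 3 ≤ Real.log 2 := by
    have := Real.log_two_gt_d9
    linarith
  have h2 : (1 / 2 : ℝ) ^ r = 8 * Real.exp (-((r + 3 : ℝ) * Real.log 2)) := by
    have h3 : Real.exp (-((r + 3 : ℝ) * Real.log 2)) = (1 / 2 : ℝ) ^ (r + 3) := by
      rw [show -((r + 3 : ℝ) * Real.log 2) = ((r + 3 : ℕ) : ℝ) * (-Real.log 2) by push_cast; ring,
        Real.exp_nat_mul, Real.exp_neg, Real.exp_log (by norm_num), one_div]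
    rw [h3, pow_add]; ring
  rw [h2]
  apply mul_le_mul_of_nonneg_left _ (by norm_num)
  apply Real.exp_le_exp.2
  have h4 : (0 : ℝ) ≤ (r : ℝ) + 3 := by positivity
  nlinarith

/-- The bound on the success probability. -/
noncomputable def err (N s d w : ℕ) : ℝ :=
  Real.exp (-(N / (450 * (d + 1) * (Nat.clog 2 s) ^ 2 * (2 ^ (d + 9) * w * Nat.clog 2 s) ^ d)))

/-- From powers of two to the exponential function. -/
theorem to_err {P c N s d w : ℕ} (hw : 1 ≤ w) (hs : 4 * N + 1 ≤ s) (h0 : P ≤ c * 2 ^ N)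
    (h : ∀ r ℓ K : ℕ, 1 ≤ ℓ → s ≤ 2 ^ ℓ → K = (2 ^ (d + 9) * (w * ℓ)) ^ d → 1 ≤ K →
      300 * K * ℓ ^ 2 * (d + 1) * (r + 2) ≤ N → P * 2 ^ r ≤ c * 2 ^ N) :
    (P : ℝ) ≤ 8 * c * 2 ^ N * err N s d w := by
  unfold err
  rcases Nat.eq_zero_or_pos N with hN0 | hN0
  · subst hN0
    have h1 : (P : ℝ) ≤ c := by
      have : P ≤ c := by simpa using h0
      exact_mod_cast this
    have h2 : (0 : ℝ) ≤ c := Nat.cast_nonneg c
    simp
    linarith
  obtain ⟨ℓ, hℓd⟩ : ∃ ℓ, ℓ = Nat.clog 2 s := ⟨_, rfl⟩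
  rw [← hℓd]
  have hs2 : s ≤ 2 ^ ℓ := by rw [hℓd]; exact Nat.le_pow_clog (by norm_num) s
  have hℓ : 1 ≤ ℓ := by
    by_contra h
    have : ℓ = 0 := by omega
    rw [this] at hs2
    omega
  obtain ⟨K, hK⟩ : ∃ K, K = (2 ^ (d + 9) * (w * ℓ)) ^ d := ⟨_, rfl⟩
  have hwl : 0 < w * ℓ := Nat.mul_pos hw hℓ
  have hK0 : 0 < K := by rw [hK]; positivity
  obtain ⟨F, hF⟩ : ∃ F, F = 300 * K * ℓ ^ 2 * (d + 1) := ⟨_, rfl⟩
  have hF0 : 0 < F := by rw [hF]; positivity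
  have hFr : (0 : ℝ) < F := by exact_mod_cast hF0
  have hden : (N : ℝ) / (450 * (d + 1) * (ℓ : ℝ) ^ 2 * (2 ^ (d + 9) * w * ℓ) ^ d) =
      2 * (N / F : ℝ) / 3 := by
    have h1 : (450 * (d + 1) * (ℓ : ℝ) ^ 2 * (2 ^ (d + 9) * w * ℓ) ^ d) = 3 * F / 2 := by
      rw [hF, hK]
      push_cast
      ring
    rw [h1]
    field_simp
  rw [hden]
  set X : ℝ := N / F with hX
  have hX0 : 0 ≤ X := by positivity
  have h2N : (0 : ℝ) < 2 ^ N := by positivity
  have hc0 : (0 : ℝ) ≤ c := Nat.cast_nonneg c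
  have h0' : (P : ℝ) ≤ c * 2 ^ N := by exact_mod_cast h0
  rcases lt_or_ge (N / F) 2 with hr | hr
  · have h1 : X < 2 := by
      rw [hX, div_lt_iff₀ hFr]
      have := (Nat.div_lt_iff_lt_mul hF0).1 hr
      exact_mod_cast this
    have h3 : (1 : ℝ) / 8 ≤ Real.exp (-(2 * X / 3)) := by
      have h4 : Real.exp (-(2 : ℝ) * (2 / 3)) ≤ Real.exp (-(2 * X / 3)) :=
        Real.exp_le_exp.2 (by linarith)
      have h5 : Real.exp (-(2 : ℝ) * (2 / 3)) = Real.exp (-(2 / 3)) ^ 2 := by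
        rw [← Real.exp_nat_mul]; congr 1; push_cast; ring
      have h6 := Real.add_one_le_exp (-(1 / 3) : ℝ)
      have h7 : Real.exp (-(2 / 3 : ℝ)) = Real.exp (-(1 / 3)) ^ 2 := by
        rw [← Real.exp_nat_mul]; congr 1; push_cast; ring
      have h8 : (4 : ℝ) / 9 ≤ Real.exp (-(2 / 3 : ℝ)) := by
        rw [h7]; nlinarith
      rw [h5] at h4
      nlinarith
    have h9 : (c : ℝ) * 2 ^ N ≤ (c * 2 ^ N) * (8 * Real.exp (-(2 * X / 3))) := by
      have : 0 ≤ (c : ℝ) * 2 ^ N := by positivity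
      nlinarith
    calc (P : ℝ) ≤ c * 2 ^ N := h0'
      _ ≤ _ := h9
      _ = _ := by ring
  · obtain ⟨r, hr2⟩ : ∃ r, N / F = r + 2 := ⟨N / F - 2, by omega⟩
    have hN : 300 * K * ℓ ^ 2 * (d + 1) * (r + 2) ≤ N := by
      rw [← hF, ← hr2]; exact Nat.mul_div_le _ _
    have hXr : X < r + 3 := by
      rw [hX, div_lt_iff₀ hFr]
      have h1 := Nat.lt_mul_div_succ N hF0
      rw [hr2] at h1
      have h2 : (N : ℝ) < F * (r + 2 + 1) := by exact_mod_cast h1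
      linarith
    have hmain := h r ℓ K hℓ hs2 hK hK0 hN
    have hmain' : (P : ℝ) * 2 ^ r ≤ c * 2 ^ N := by exact_mod_cast hmain
    have h4 : (0 : ℝ) < (1 / 2) ^ r := by positivity
    have h5 := mul_le_mul_of_nonneg_right hmain' h4.le
    have h6 : (P : ℝ) * 2 ^ r * (1 / 2) ^ r = P := by
      rw [mul_assoc, ← mul_pow]; norm_num
    rw [h6] at h5
    calc (P : ℝ) ≤ c * 2 ^ N * (1 / 2) ^ r := h5
      _ ≤ c * 2 ^ N * (8 * Real.exp (-(2 * X / 3))) :=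
          mul_le_mul_of_nonneg_left (exp_bound X r hXr) (by positivity)
      _ = _ := by ring

/-- The exponents. -/
lemma budget {N s ℓ K d r : ℕ} (hs : 4 * N + 1 ≤ s) (hℓ : 1 ≤ ℓ) (hsl : s ≤ 2 ^ ℓ) (hK : 1 ≤ K)
    (hN : 300 * K * ℓ ^ 2 * (d + 1) * (r + 2) ≤ N) :
    16 * K * (d + 1) * (r + 2) ≤ N ∧
    ((2 * N + 1) ^ (2 * (r + 2) + 2 * ((r + 2) * (16 * K * ℓ))) * 2 ^ r) ^ 8 ≤ 2 ^ N := by
  have hl2 : 1 ≤ ℓ ^ 2 := Nat.one_le_pow _ _ hℓ
  have hll : ℓ ≤ ℓ ^ 2 := Nat.le_self_pow (by norm_num) _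
  constructor
  · calc 16 * K * (d + 1) * (r + 2) = 16 * (K * 1 * (d + 1) * (r + 2)) := by ring
      _ ≤ 300 * (K * ℓ ^ 2 * (d + 1) * (r + 2)) := Nat.mul_le_mul (by norm_num)
          (Nat.mul_le_mul_right _ (Nat.mul_le_mul_right _ (Nat.mul_le_mul_left _ hl2)))
      _ = 300 * K * ℓ ^ 2 * (d + 1) * (r + 2) := by ring
      _ ≤ N := hN
  · have h1 : 2 * N + 1 ≤ 2 ^ ℓ := by omega
    calc ((2 * N + 1) ^ (2 * (r + 2) + 2 * ((r + 2) * (16 * K * ℓ))) * 2 ^ r) ^ 8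
        ≤ ((2 ^ ℓ) ^ (2 * (r + 2) + 2 * ((r + 2) * (16 * K * ℓ))) * 2 ^ r) ^ 8 :=
          Nat.pow_le_pow_left (Nat.mul_le_mul_right _ (Nat.pow_le_pow_left h1 _)) _
      _ = 2 ^ ((ℓ * (2 * (r + 2) + 2 * ((r + 2) * (16 * K * ℓ))) + r) * 8) := by
          rw [← pow_mul, ← pow_add, ← pow_mul]
      _ ≤ 2 ^ N := by
          refine Nat.pow_le_pow_right (by norm_num) ?_
          calc (ℓ * (2 * (r + 2) + 2 * ((r + 2) * (16 * K * ℓ))) + r) * 8
              ≤ (ℓ * (2 * (r + 2) + 2 * ((r + 2) * (16 * K * ℓ))) + (r + 2)) * 8 := by omega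
            _ = 16 * (1 * ℓ * 1 * (r + 2)) + 256 * (K * ℓ ^ 2 * 1 * (r + 2)) +
                8 * (1 * 1 * 1 * (r + 2)) := by ring
            _ ≤ 16 * (K * ℓ ^ 2 * (d + 1) * (r + 2)) + 256 * (K * ℓ ^ 2 * (d + 1) * (r + 2)) +
                8 * (K * ℓ ^ 2 * (d + 1) * (r + 2)) := by
                gcongr <;> omega
            _ = 280 * (K * ℓ ^ 2 * (d + 1) * (r + 2)) := by ring
            _ ≤ 300 * (K * ℓ ^ 2 * (d + 1) * (r + 2)) := Nat.mul_le_mul_right _ (by norm_num)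
            _ = 300 * K * ℓ ^ 2 * (d + 1) * (r + 2) := by ring
            _ ≤ N := hN

open Classical in
/-- **The inversion of functions that separate close points.** The number `B` is such that at most
`B * (2 N + 1) ^ (K₁ + K₂)` values have two preimages at a distance at most `K₂` with different
values at a distance at most `K₁`. -/
theorem inversion (C : Circuit w N) (out : Fin N → C.Node) {s d t : ℕ}
    (hw : 1 ≤ w) (hs' : 4 * N + 1 ≤ s) (hs : Nat.card C.Node ≤ s)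
    (hd' : ∀ v, C.depth v ≤ d) (ht : C.leak.card ≤ t)
    (F : (Fin N → Bool) → Fin N → Bool) (c B : ℕ) (hB : B ^ 8 ≤ 2 ^ (7 * N))
    (hA : ∀ K₁ K₂ : ℕ, Sep F K₁ K₂ (c * (B * (2 * N + 1) ^ (K₁ + K₂)))) :
    ((univ.filter fun z => F (fun i => C.val (out i) z) = z).card : ℝ) ≤
      8 * (c + 1) * 2 ^ t * 2 ^ N * err N s d w := by
  have h0 : (univ.filter fun z => F (fun i => C.val (out i) z) = z).card ≤
      ((c + 1) * 2 ^ t) * 2 ^ N := by
    have h1 : (univ.filter fun z => F (fun i => C.val (out i) z) = z).card ≤ 2 ^ N := by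
      refine (Finset.card_le_univ _).trans ?_
      rw [Fintype.card_fun, Fintype.card_bool, Fintype.card_fin]
    have h2 : 1 ≤ (c + 1) * 2 ^ t := Nat.mul_pos (Nat.succ_pos c) (by positivity)
    calc _ ≤ 2 ^ N := h1
      _ = 1 * 2 ^ N := (one_mul _).symm
      _ ≤ _ := Nat.mul_le_mul_right _ h2
  have h := to_err (P := (univ.filter fun z => F (fun i => C.val (out i) z) = z).card)
    (c := (c + 1) * 2 ^ t) (d := d) hw hs' h0 fun r ℓ K hℓ hsl hK hK1 hN => ?_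
  · refine h.trans (le_of_eq ?_)
    push_cast
    ring
  · obtain ⟨h1, h2⟩ := budget hs' hℓ hsl hK1 hN
    have h3 := all_patterns C out hℓ hw (hs.trans hsl) hd' ht hK h1 F (hA _ _)
    refine h3.trans ?_
    have h4 : B * (2 * N + 1) ^ (2 * (r + 2) + 2 * ((r + 2) * (16 * K * ℓ))) * 2 ^ r ≤ 2 ^ N := by
      rw [← Nat.pow_le_pow_iff_left (n := 8) (by norm_num)]
      calc (B * (2 * N + 1) ^ (2 * (r + 2) + 2 * ((r + 2) * (16 * K * ℓ))) * 2 ^ r) ^ 8
          = B ^ 8 * ((2 * N + 1) ^ (2 * (r + 2) + 2 * ((r + 2) * (16 * K * ℓ))) * 2 ^ r) ^ 8 := by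
            rw [mul_assoc, mul_pow]
        _ ≤ 2 ^ (7 * N) * 2 ^ N := Nat.mul_le_mul hB h2
        _ = (2 ^ N) ^ 8 := by rw [← pow_add, ← pow_mul]; congr 1; ring
    calc 2 ^ t * (2 ^ N + c * (B * (2 * N + 1) ^ (2 * (r + 2) + 2 * ((r + 2) * (16 * K * ℓ)))) *
          2 ^ r)
        = 2 ^ t * (2 ^ N + c * (B * (2 * N + 1) ^ (2 * (r + 2) + 2 * ((r + 2) * (16 * K * ℓ))) *
          2 ^ r)) := by ring
      _ ≤ 2 ^ t * (2 ^ N + c * 2 ^ N) :=
          Nat.mul_le_mul_left _ (Nat.add_le_add_left (Nat.mul_le_mul_left _ h4) _)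
      _ = (c + 1) * 2 ^ t * 2 ^ N := by ring

end Pool.Agent.Y603.CC
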