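import Pool.Agent.Y603.CC.Expo

/-!
# Polynomial maps over finite fields, and modulo square-free numbers
-/

set_option autoImplicit false

namespace Pool.Agent.Y603.CC

open Finset Pool.Agent.Y603.MS Polynomial

variable {F : Type} [Field F]

/-- The polynomial `P (X + δ) - P (X) - η`. -/
noncomputable def diffPoly (P : F[X]) (δ η : F) : F[X] := taylor δ P - P - C η

lemma taylor_top (P : F[X]) (δ : F) {m : ℕ} (hm : P.natDegree ≤ m) :
    (taylor δ P).coeff m = P.coeff m := by
  rw [taylor_coeff, eval_eq_sum_range' (n := 1)]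
  · rw [Finset.sum_range_one, hasseDeriv_coeff]
    simp
  · have := natDegree_hasseDeriv_le P m
    omega

lemma taylor_next (P : F[X]) (δ : F) (n : ℕ) (hn : P.natDegree = n + 1) :
    (taylor δ P).coeff n = P.coeff n + (n + 1 : ℕ) * P.coeff (n + 1) * δ := by
  rw [taylor_coeff, eval_eq_sum_range' (n := 2)]
  · rw [Finset.sum_range_succ, Finset.sum_range_one, hasseDeriv_coeff, hasseDeriv_coeff]
    simp only [zero_add, Nat.choose_self, Nat.cast_one, one_mul, pow_zero, mul_one, pow_one]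
    rw [show (1 + n).choose n = n + 1 by rw [add_comm, Nat.choose_succ_self_right],
      add_comm 1 n]
  · have := natDegree_hasseDeriv_le P n
    omega

open Classical in
/-- The differential uniformity of a polynomial. -/
lemma few_roots (P : F[X]) (hP : 2 ≤ P.natDegree) (hc : (P.natDegree : F) ≠ 0) (δ η : F)
    (hδ : δ ≠ 0) : ∃ T : Finset F, T.card ≤ P.natDegree - 1 ∧
      ∀ x, P.eval (x + δ) - P.eval x = η → x ∈ T := by
  obtain ⟨n, hn⟩ : ∃ n, P.natDegree = n + 1 := ⟨P.natDegree - 1, by omega⟩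
  have hne : diffPoly P δ η ≠ 0 := by
    intro h0
    have h1 : (diffPoly P δ η).coeff n = 0 := by rw [h0]; simp
    unfold diffPoly at h1
    rw [coeff_sub, coeff_sub, taylor_next P δ n hn, coeff_C, if_neg (by omega)] at h1
    have h2 : ((n + 1 : ℕ) : F) * P.coeff (n + 1) * δ = 0 := by linear_combination h1
    have h3 : P.coeff (n + 1) ≠ 0 := by
      rw [← hn]
      have : P ≠ 0 := by
        intro h
        rw [h] at hP
        simp at hP
      exact leadingCoeff_ne_zero.2 this
    rw [hn] at hc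
    exact mul_ne_zero (mul_ne_zero hc h3) hδ h2
  have hdeg : (diffPoly P δ η).natDegree ≤ n := by
    rw [natDegree_le_iff_coeff_eq_zero]
    intro m hm
    unfold diffPoly
    rw [coeff_sub, coeff_sub, taylor_top P δ (by omega), coeff_C, if_neg (by omega)]
    ring
  refine ⟨(diffPoly P δ η).roots.toFinset, ?_, ?_⟩
  · refine (Multiset.toFinset_card_le _).trans ((card_roots' _).trans ?_)
    omega
  · intro x hx
    rw [Multiset.mem_toFinset, mem_roots hne, IsRoot.def]
    unfold diffPoly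
    rw [eval_sub, eval_sub, taylor_eval, eval_C, ← hx]
    ring

open Classical in
/-- The number of residues modulo `M` in a set of residues modulo `l`. -/
lemma card_lift (M l : ℕ) [NeZero M] [NeZero l] (hl : l ∣ M) (T : Finset (ZMod l)) :
    (univ.filter fun x : ZMod M => ZMod.castHom hl (ZMod l) x ∈ T).card = T.card * (M / l) := by
  have hsurj := ZMod.castHom_surjective hl
  have hfib : ∀ u v : ZMod l, (univ.filter fun x : ZMod M => ZMod.castHom hl (ZMod l) x = u).card =
      (univ.filter fun x : ZMod M => ZMod.castHom hl (ZMod l) x = v).card := by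
    intro u v
    have := AddMonoidHom.card_fiber_eq_of_mem_range (ZMod.castHom hl (ZMod l)).toAddMonoidHom
      (x := u) (y := v) (hsurj u) (hsurj v)
    simpa using this
  have htot : ∑ u : ZMod l, (univ.filter fun x : ZMod M =>
      ZMod.castHom hl (ZMod l) x = u).card = M := by
    rw [← Finset.card_eq_sum_card_fiberwise (f := fun x : ZMod M => ZMod.castHom hl (ZMod l) x)
      (fun _ _ => Finset.mem_univ _), Finset.card_univ, ZMod.card]
  have hone : ∀ u : ZMod l, (univ.filter fun x : ZMod M =>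
      ZMod.castHom hl (ZMod l) x = u).card = M / l := by
    intro u
    rw [Finset.sum_congr rfl fun v _ => hfib v u, Finset.sum_const, Finset.card_univ, ZMod.card,
      smul_eq_mul] at htot
    exact (Nat.div_eq_of_eq_mul_right (Nat.pos_of_ne_zero (NeZero.ne l)) htot.symm).symm
  have hmap : ∀ x ∈ (univ.filter fun x : ZMod M => ZMod.castHom hl (ZMod l) x ∈ T),
      ZMod.castHom hl (ZMod l) x ∈ T := fun x hx => (Finset.mem_filter.1 hx).2
  rw [Finset.card_eq_sum_card_fiberwise hmap]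
  rw [Finset.sum_congr rfl fun u hu => ?_, Finset.sum_const, smul_eq_mul]
  rw [← hone u]
  congr 1
  ext x
  simp only [Finset.mem_filter, Finset.mem_univ, true_and]
  exact ⟨fun h => h.2, fun h => ⟨h ▸ hu, h⟩⟩

lemma exists_prime_not_dvd {M : ℕ} [NeZero M] (hM : Squarefree M) (δ : ZMod M) (hδ : δ ≠ 0) :
    ∃ l : ℕ, l.Prime ∧ ∃ h : l ∣ M, ZMod.castHom h (ZMod l) δ ≠ 0 := by
  by_contra hcon
  push Not at hcon
  apply hδ
  rw [← ZMod.natCast_zmod_val δ, ZMod.natCast_eq_zero_iff]
  rw [Nat.dvd_iff_prime_pow_dvd_dvd]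
  intro p k hp hk
  rcases Nat.eq_zero_or_pos k with rfl | hk0
  · simp
  · have hk1 : k = 1 := by
      by_contra hne
      have h2 : 2 ≤ k := by omega
      have h3 : p * p ∣ M := by
        rw [← pow_two]
        exact (pow_dvd_pow p h2).trans hk
      have h4 := hM p h3
      exact hp.one_lt.ne' (Nat.isUnit_iff.1 h4)
    rw [hk1, pow_one] at hk ⊢
    have h5 := hcon p hp hk
    rw [← ZMod.natCast_zmod_val δ, map_natCast, ZMod.natCast_eq_zero_iff] at h5
    exact h5

open Classical in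
/-- The differential uniformity of a polynomial modulo a square-free number. -/
lemma few_roots_mod {N M : ℕ} [NeZero M] (hMN : M ≤ 2 ^ N) (hM : Squarefree M) (P : ℤ[X])
    (hP : 2 ≤ P.natDegree)
    (hl : ∀ l : ℕ, l.Prime → l ∣ M → ¬ (l : ℤ) ∣ P.natDegree * P.leadingCoeff ∧
      2 ^ N * (P.natDegree - 1) ^ 8 ≤ l ^ 8)
    (δ η : ZMod M) (hδ : δ ≠ 0) : ∃ T : Finset (ZMod M), T.card ^ 8 ≤ 2 ^ (7 * N) ∧
      ∀ x : ZMod M, eval₂ (Int.castRingHom (ZMod M)) (x + δ) P -
        eval₂ (Int.castRingHom (ZMod M)) x P = η → x ∈ T := by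
  obtain ⟨l, hlp, hlM, hδl⟩ := exists_prime_not_dvd hM δ hδ
  have : Fact l.Prime := ⟨hlp⟩
  obtain ⟨h1, h2⟩ := hl l hlp hlM
  set φ := ZMod.castHom hlM (ZMod l) with hφ
  have hlc : ((P.leadingCoeff : ℤ) : ZMod l) ≠ 0 := by
    intro h
    apply h1
    rw [ZMod.intCast_zmod_eq_zero_iff_dvd] at h
    exact Dvd.dvd.mul_left h _
  have hdeg : (P.map (Int.castRingHom (ZMod l))).natDegree = P.natDegree :=
    natDegree_map_of_leadingCoeff_ne_zero _ hlc
  have hdc : (((P.map (Int.castRingHom (ZMod l))).natDegree : ℕ) : ZMod l) ≠ 0 := by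
    rw [hdeg]
    intro h
    apply h1
    rw [ZMod.natCast_eq_zero_iff] at h
    exact Dvd.dvd.mul_right (Int.natCast_dvd_natCast.2 h) _
  obtain ⟨T, hT1, hT2⟩ := few_roots (P.map (Int.castRingHom (ZMod l))) (by rw [hdeg]; exact hP)
    hdc (φ δ) (φ η) hδl
  refine ⟨univ.filter fun x : ZMod M => φ x ∈ T, ?_, ?_⟩
  · rw [card_lift M l hlM T]
    rw [hdeg] at hT1
    have hl0 : 0 < l ^ 8 := Nat.pow_pos hlp.pos
    apply Nat.le_of_mul_le_mul_right (c := 2 ^ N * l ^ 8) _ (by positivity)
    have h3 : M / l * l = M := Nat.div_mul_cancel hlM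
    calc (T.card * (M / l)) ^ 8 * (2 ^ N * l ^ 8) = T.card ^ 8 * (M / l * l) ^ 8 * 2 ^ N := by
          rw [mul_pow, mul_pow]; ring
      _ = T.card ^ 8 * M ^ 8 * 2 ^ N := by rw [h3]
      _ ≤ (P.natDegree - 1) ^ 8 * (2 ^ N) ^ 8 * 2 ^ N := by gcongr
      _ = (2 ^ N * (P.natDegree - 1) ^ 8) * (2 ^ N) ^ 8 := by ring
      _ ≤ l ^ 8 * (2 ^ N) ^ 8 := Nat.mul_le_mul_right _ h2
      _ = 2 ^ (7 * N) * (2 ^ N * l ^ 8) := by
          rw [← pow_mul, show N * 8 = 7 * N + N by ring, pow_add]; ring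
  · intro x hx
    refine Finset.mem_filter.2 ⟨Finset.mem_univ _, hT2 _ ?_⟩
    have hcomp : φ.comp (Int.castRingHom (ZMod M)) = Int.castRingHom (ZMod l) :=
      RingHom.ext_int _ _
    have h4 := congrArg φ hx
    rw [map_sub, hom_eval₂, hom_eval₂, hcomp, map_add] at h4
    rw [eval_map, eval_map]
    exact h4

end Pool.Agent.Y603.CC
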