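import Pool.Agent.Y603.CC.Poly
import Pool.Agent.Y603.MS.Final

/-!
# The functions of Rivest, Shamir and Adleman, and of Rabin
-/

set_option autoImplicit false

namespace Pool.Agent.Y603.CC

open Finset Pool.Agent.Y603.MS Polynomial

variable {w N : ℕ}

lemma dec_natCast {M : ℕ} (x : Fin N → Bool) :
    dec (fun i : Fin N => (2 : ZMod M) ^ (i : ℕ)) x = (value x : ZMod M) := by
  unfold dec value
  push_cast
  rfl

/-- The binary digits of the residues modulo `M` are an additive representation. -/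
lemma dec_bits {M : ℕ} [NeZero M] (hM : M ≤ 2 ^ N) (x : ZMod M) :
    dec (fun i : Fin N => (2 : ZMod M) ^ (i : ℕ)) (bits N x.val) = x := by
  rw [dec_natCast, value_bits ((ZMod.val_lt x).trans_le hM), ZMod.natCast_zmod_val]

lemma val_intCast' {M : ℕ} [NeZero M] (a : ℤ) : ((a : ZMod M)).val = (a % M).toNat := by
  have h := ZMod.val_intCast (n := M) a
  rw [← h, Int.toNat_natCast]

lemma eval₂_nat {M : ℕ} (P : ℤ[X]) (x : ℕ) :
    eval₂ (Int.castRingHom (ZMod M)) (x : ZMod M) P = ((P.eval (x : ℤ) : ℤ) : ZMod M) := by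
  have h := eval_intCast_map (Int.castRingHom (ZMod M)) P (x : ℤ)
  rw [eval_map] at h
  rw [Int.cast_natCast] at h
  rw [h]
  rfl

open Classical in
/-- **Polynomial maps modulo a square-free number.** -/
theorem modular (C : Circuit w N) (out : Fin N → C.Node) {s d t : ℕ}
    (hw : 1 ≤ w) (hs' : 4 * N + 1 ≤ s) (hs : Nat.card C.Node ≤ s)
    (hd' : ∀ v, C.depth v ≤ d) (ht : C.leak.card ≤ t)
    (M : ℕ) (hMN : M ≤ 2 ^ N) (hM : Squarefree M) (P : ℤ[X]) (hP : 2 ≤ P.natDegree)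
    (hl : ∀ l : ℕ, l.Prime → l ∣ M → ¬ (l : ℤ) ∣ P.natDegree * P.leadingCoeff ∧
      2 ^ N * (P.natDegree - 1) ^ 8 ≤ l ^ 8)
    (q : ℕ) (hq : ∀ y : ℤ, ((range M).filter fun x : ℕ => P.eval (x : ℤ) ≡ y [ZMOD M]).card ≤ q) :
    (((range M).filter fun x : ℕ =>
      P.eval (value (fun i => C.val (out i) (bits N (P.eval (x : ℤ) % M).toNat)) : ℤ) ≡
        P.eval (x : ℤ) [ZMOD M]).card : ℝ) ≤
      16 * q * 2 ^ t * 2 ^ N * err N s d w := by
  rcases Nat.eq_zero_or_pos M with h0 | h0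
  · subst h0
    have : 0 ≤ err N s d w := (Real.exp_pos _).le
    simp
    positivity
  have : NeZero M := ⟨by omega⟩
  set B := Nat.sqrt (Nat.sqrt (Nat.sqrt (2 ^ (7 * N)))) with hB
  have hB8 : B ^ 8 ≤ 2 ^ (7 * N) := by
    have h1 : B ^ 2 ≤ Nat.sqrt (Nat.sqrt (2 ^ (7 * N))) := Nat.le_sqrt'.1 (le_refl _)
    have h2 : (Nat.sqrt (Nat.sqrt (2 ^ (7 * N)))) ^ 2 ≤ Nat.sqrt (2 ^ (7 * N)) :=
      Nat.le_sqrt'.1 (le_refl _)
    have h3 : (Nat.sqrt (2 ^ (7 * N))) ^ 2 ≤ 2 ^ (7 * N) := Nat.le_sqrt'.1 (le_refl _)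
    calc B ^ 8 = ((B ^ 2) ^ 2) ^ 2 := by ring
      _ ≤ ((Nat.sqrt (Nat.sqrt (2 ^ (7 * N)))) ^ 2) ^ 2 := by gcongr
      _ ≤ (Nat.sqrt (2 ^ (7 * N))) ^ 2 := by gcongr
      _ ≤ _ := h3
  have h := differential C out hw hs' hs hd' ht (fun i : Fin N => (2 : ZMod M) ^ (i : ℕ))
    (fun i : Fin N => (2 : ZMod M) ^ (i : ℕ)) (fun x => bits N x.val) (dec_bits hMN)
    (fun x => eval₂ (Int.castRingHom (ZMod M)) x P) B hB8 (by
      intro δ η hδ
      obtain ⟨T, h1, h2⟩ := few_roots_mod hMN hM P hP hl δ η hδ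
      refine ⟨T, ?_, h2⟩
      rw [hB, Nat.le_sqrt', Nat.le_sqrt', Nat.le_sqrt']
      calc ((T.card ^ 2) ^ 2) ^ 2 = T.card ^ 8 := by ring
        _ ≤ _ := h1) univ q (by
      intro y
      refine le_trans ?_ (hq (y.val : ℤ))
      refine Finset.card_le_card_of_injOn (fun x : ZMod M => x.val) ?_ ?_
      · intro x hx
        obtain ⟨_, hx'⟩ := (@Finset.mem_filter _ _ (_) _ _).1 (Finset.mem_coe.1 hx)
        refine Finset.mem_coe.2 (Finset.mem_filter.2 ⟨Finset.mem_range.2 (ZMod.val_lt x), ?_⟩)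
        rw [← ZMod.intCast_eq_intCast_iff, ← eval₂_nat, ZMod.natCast_zmod_val, hx',
          Int.cast_natCast, ZMod.natCast_zmod_val]
      · intro x _ y _ hxy
        exact ZMod.val_injective M hxy)
  refine le_trans ?_ h
  have hle : ((range M).filter fun x : ℕ =>
      P.eval (value (fun i => C.val (out i) (bits N (P.eval (x : ℤ) % M).toNat)) : ℤ) ≡
        P.eval (x : ℤ) [ZMOD M]).card ≤ (univ.filter fun x : ZMod M =>
      (fun x => eval₂ (Int.castRingHom (ZMod M)) x P)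
        (dec (fun i : Fin N => (2 : ZMod M) ^ (i : ℕ)) fun i => C.val (out i)
          ((fun x : ZMod M => bits N x.val) ((fun x => eval₂ (Int.castRingHom (ZMod M)) x P) x))) =
        (fun x => eval₂ (Int.castRingHom (ZMod M)) x P) x).card := by
    refine Finset.card_le_card_of_injOn (fun x : ℕ => (x : ZMod M)) ?_ ?_
    · intro x hx
      have hx' := (Finset.mem_filter.1 hx).2
      refine Finset.mem_coe.2 (Finset.mem_filter.2 ⟨Finset.mem_univ _, ?_⟩)
      simp only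
      rw [dec_natCast, eval₂_nat, eval₂_nat, val_intCast', ZMod.intCast_eq_intCast_iff]
      exact hx'
    · intro x hx y hy hxy
      have h1 := Finset.mem_range.1 (Finset.mem_filter.1 (Finset.mem_coe.1 hx)).1
      have h2 := Finset.mem_range.1 (Finset.mem_filter.1 (Finset.mem_coe.1 hy)).1
      have h3 : (x : ZMod M).val = (y : ZMod M).val := congrArg ZMod.val hxy
      rwa [ZMod.val_natCast, ZMod.val_natCast, Nat.mod_eq_of_lt h1, Nat.mod_eq_of_lt h2] at h3
  exact_mod_cast hle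

/-- The power map of Rivest, Shamir and Adleman is a permutation. -/
lemma rsa_inj {M e : ℕ} [NeZero M] (hM : Squarefree M) (he0 : 0 < e)
    (he : e.Coprime M.totient) {x y : ZMod M} (h : x ^ e = y ^ e) : x = y := by
  by_contra hne
  obtain ⟨l, hlp, hlM, hl⟩ := exists_prime_not_dvd hM (x - y) (sub_ne_zero.2 hne)
  have : Fact l.Prime := ⟨hlp⟩
  apply hl
  set φ := ZMod.castHom hlM (ZMod l) with hφ
  have h1 : φ x ^ e = φ y ^ e := by rw [← map_pow, ← map_pow, h]
  have hcop : e.Coprime (l - 1) := by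
    have h2 : l.totient ∣ M.totient := Nat.totient_dvd_of_dvd hlM
    rw [Nat.totient_prime hlp] at h2
    exact Nat.Coprime.coprime_dvd_right h2 he
  rw [map_sub, sub_eq_zero]
  by_cases hy : φ y = 0
  · rw [hy]
    rw [hy, zero_pow (by omega)] at h1
    exact pow_eq_zero_iff (by omega) |>.1 h1
  · have h2 : (φ x / φ y) ^ e = 1 := by
      rw [div_pow, h1, div_self (pow_ne_zero _ hy)]
    have h3 : φ x / φ y ≠ 0 := by
      intro h0
      rw [h0, zero_pow (by omega)] at h2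
      exact zero_ne_one h2
    have h4 : (φ x / φ y) ^ (l - 1) = 1 := ZMod.pow_card_sub_one_eq_one h3
    have h5 : (φ x / φ y) = 1 := by
      have h6 := orderOf_dvd_of_pow_eq_one h2
      have h7 := orderOf_dvd_of_pow_eq_one h4
      have h8 : orderOf (φ x / φ y) ∣ 1 := by
        rw [← hcop.gcd_eq_one]
        exact Nat.dvd_gcd h6 h7
      exact orderOf_eq_one_iff.1 (Nat.dvd_one.1 h8)
    rwa [div_eq_one_iff_eq hy] at h5

open Classical in
/-- **The function of Rivest, Shamir and Adleman.** -/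
theorem rsa (C : Circuit w N) (out : Fin N → C.Node) {s d t : ℕ}
    (hw : 1 ≤ w) (hs' : 4 * N + 1 ≤ s) (hs : Nat.card C.Node ≤ s)
    (hd' : ∀ v, C.depth v ≤ d) (ht : C.leak.card ≤ t)
    (M : ℕ) (hMN : M ≤ 2 ^ N) (hM : Squarefree M) (e : ℕ) (he : 2 ≤ e)
    (hcop : e.Coprime M.totient)
    (hl : ∀ l : ℕ, l.Prime → l ∣ M → ¬ l ∣ e ∧ 2 ^ N * (e - 1) ^ 8 ≤ l ^ 8) :
    (((range M).filter fun x : ℕ =>
      value (fun i => C.val (out i) (bits N (x ^ e % M))) ^ e ≡ x ^ e [MOD M]).card : ℝ) ≤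
      16 * 2 ^ t * 2 ^ N * err N s d w := by
  rcases Nat.eq_zero_or_pos M with h0 | h0
  · subst h0
    have : 0 ≤ err N s d w := (Real.exp_pos _).le
    simp
    positivity
  have : NeZero M := ⟨by omega⟩
  have h := modular C out hw hs' hs hd' ht M hMN hM (X ^ e) (by rw [natDegree_X_pow]; exact he) (by
    intro l h1 h2
    obtain ⟨h3, h4⟩ := hl l h1 h2
    rw [natDegree_X_pow, leadingCoeff_X_pow, mul_one]
    exact ⟨fun h5 => h3 (Int.natCast_dvd_natCast.1 h5), h4⟩) 1 (by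
    intro y
    rw [Finset.card_le_one]
    intro a ha b hb
    obtain ⟨ha1, ha2⟩ := Finset.mem_filter.1 ha
    obtain ⟨hb1, hb2⟩ := Finset.mem_filter.1 hb
    rw [eval_pow, eval_X] at ha2 hb2
    have h5 : (a : ZMod M) ^ e = (b : ZMod M) ^ e := by
      have h6 : ((a : ℤ) ^ e) ≡ ((b : ℤ) ^ e) [ZMOD M] := ha2.trans hb2.symm
      rw [← ZMod.intCast_eq_intCast_iff] at h6
      push_cast at h6
      exact h6
    have h7 := rsa_inj hM (by omega) hcop h5
    have h8 : (a : ZMod M).val = (b : ZMod M).val := congrArg ZMod.val h7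
    rwa [ZMod.val_natCast, ZMod.val_natCast, Nat.mod_eq_of_lt (Finset.mem_range.1 ha1),
      Nat.mod_eq_of_lt (Finset.mem_range.1 hb1)] at h8)
  have e1 : ∀ x : ℕ, ((((X : ℤ[X]) ^ e).eval (x : ℤ)) % M).toNat = x ^ e % M := by
    intro x
    rw [eval_pow, eval_X]
    have : ((x : ℤ) ^ e) % (M : ℤ) = ((x ^ e % M : ℕ) : ℤ) := by push_cast; rfl
    rw [this, Int.toNat_natCast]
  have e2 : ∀ x : ℕ, (((X : ℤ[X]) ^ e).eval
      (value (fun i => C.val (out i) (bits N ((((X : ℤ[X]) ^ e).eval (x : ℤ)) % M).toNat)) : ℤ) ≡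
        ((X : ℤ[X]) ^ e).eval (x : ℤ) [ZMOD M]) ↔
      value (fun i => C.val (out i) (bits N (x ^ e % M))) ^ e ≡ x ^ e [MOD M] := by
    intro x
    rw [e1, eval_pow, eval_X, eval_pow, eval_X, ← Int.natCast_modEq_iff]
    push_cast
    rfl
  simp only [e2] at h
  refine h.trans (le_of_eq ?_)
  push_cast
  ring

end Pool.Agent.Y603.CC
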