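import Pool.Agent.Y603.CC.Sparse2
import Pool.Agent.Y603.CC.Khr

/-!
# Lower bounds for the sensitivity of inverters, over the reals
-/

set_option autoImplicit false

namespace Pool.Agent.Y603.CC

open Finset Pool.Agent.Y603.MS

variable {N : ℕ}

/-- The map `C` is sensitive in the way of an inverter with success probability `p`: for every set
`J` of at most `N / 64` input bits, the sum over the bits in `J` of the average numbers of output
bits which change if this bit is flipped is at least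
`2 ⌊N / 64⌋ (p ^ 2 - p / 2 ^ |J| - ε)`. -/
def Sensitive (C : (Fin N → Bool) → Fin N → Bool) (p ε : ℝ) : Prop :=
  ∀ J : Finset (Fin N), 64 * J.card ≤ N →
    2 * ((N / 64 : ℕ) : ℝ) * (p ^ 2 - p / 2 ^ J.card - ε) ≤ (∑ i ∈ J, (flips C i : ℝ)) / 2 ^ N

open Classical in
/-- Inverters of separating functions are sensitive. -/
theorem sensitive_of_sep (F C : (Fin N → Bool) → Fin N → Bool) (A P : ℕ) (ε : ℝ)
    (hsep : ∀ K₁ K₂ : ℕ, 64 * K₁ ≤ N → 64 * K₂ ≤ N → Sep F K₁ K₂ A)
    (hA : (A : ℝ) ≤ ε * 2 ^ N) (hP : P ≤ (univ.filter fun z => F (C z) = z).card) :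
    Sensitive C (P / 2 ^ N) ε := by
  intro J hJ
  set K := N / 64 with hK
  have hK64 : 64 * K ≤ N := Nat.mul_div_le _ _
  obtain ⟨Z, hZ1, hZ2⟩ := hsep J.card K hJ hK64
  set S := univ.filter fun z => F (C z) = z with hS
  have hav := avalanche C S Z J K (by
    intro z hz z' hz' hne h1 h2
    have e1 := (Finset.mem_filter.1 hz).2
    have e2 := (Finset.mem_filter.1 hz').2
    have := hZ2 (C z) (C z') (by rw [e1, e2]; exact hne) h2 (by rw [e1, e2]; exact h1)
    rwa [e1] at this)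
  have hav' : 2 * (K : ℝ) * ((S.card : ℝ) ^ 2 * 2 ^ J.card) ≤
      2 * K * (S.card * 2 ^ N + Z.card * 2 ^ N * 2 ^ J.card) +
        2 ^ J.card * 2 ^ N * ∑ i ∈ J, (flips C i : ℝ) := by exact_mod_cast hav
  have hZA : (Z.card : ℝ) ≤ ε * 2 ^ N := by
    have : (Z.card : ℝ) ≤ A := by exact_mod_cast hZ1
    linarith
  have h2N : (0 : ℝ) < 2 ^ N := by positivity
  have h2J : (0 : ℝ) < 2 ^ J.card := by positivity
  set δ : ℝ := S.card / 2 ^ N with hδ
  set p : ℝ := P / 2 ^ N with hp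
  have hp0 : 0 ≤ p := by positivity
  have hpδ : p ≤ δ := by
    rw [hp, hδ]
    have : (P : ℝ) ≤ S.card := by exact_mod_cast hP
    exact div_le_div_of_nonneg_right this h2N.le
  have hflip : 0 ≤ ∑ i ∈ J, (flips C i : ℝ) := Finset.sum_nonneg fun i _ => Nat.cast_nonneg _
  have hε : 0 ≤ ε := by
    have : (0 : ℝ) ≤ Z.card := Nat.cast_nonneg _
    by_contra hneg
    push Not at hneg
    have := mul_neg_of_neg_of_pos hneg h2N
    linarith
  have hK0 : (0 : ℝ) ≤ K := Nat.cast_nonneg _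
  have hmain : 2 * (K : ℝ) * (δ ^ 2 - δ / 2 ^ J.card - ε) ≤
      (∑ i ∈ J, (flips C i : ℝ)) / 2 ^ N := by
    have e1 : (S.card : ℝ) = δ * 2 ^ N := by rw [hδ]; field_simp
    rw [e1] at hav'
    rw [le_div_iff₀ h2N]
    have h3 : 2 * (K : ℝ) * ((δ * 2 ^ N) ^ 2 * 2 ^ J.card) ≤
        2 * K * (δ * 2 ^ N * 2 ^ N + (ε * 2 ^ N) * 2 ^ N * 2 ^ J.card) +
        2 ^ J.card * 2 ^ N * ∑ i ∈ J, (flips C i : ℝ) := by
      refine hav'.trans ?_
      gcongr
    have h4 : (2 * (K : ℝ) * (δ ^ 2 - δ / 2 ^ J.card - ε) * 2 ^ N) * (2 ^ J.card * 2 ^ N) ≤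
        (∑ i ∈ J, (flips C i : ℝ)) * (2 ^ J.card * 2 ^ N) := by
      have h5 : δ / 2 ^ J.card * 2 ^ J.card = δ := by field_simp
      calc (2 * (K : ℝ) * (δ ^ 2 - δ / 2 ^ J.card - ε) * 2 ^ N) * (2 ^ J.card * 2 ^ N)
          = 2 * (K : ℝ) * ((δ * 2 ^ N) ^ 2 * 2 ^ J.card) -
            2 * K * ((δ / 2 ^ J.card * 2 ^ J.card) * 2 ^ N * 2 ^ N +
              (ε * 2 ^ N) * 2 ^ N * 2 ^ J.card) := by ring
        _ ≤ _ := by
            rw [h5]
            linarith
    exact le_of_mul_le_mul_right h4 (by positivity)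
  by_cases hsmall : p * 2 ^ J.card < 1
  · refine le_trans ?_ (div_nonneg hflip h2N.le)
    apply mul_nonpos_of_nonneg_of_nonpos (by positivity)
    have h5 : p ^ 2 ≤ p / 2 ^ J.card := by
      rw [le_div_iff₀ h2J]
      nlinarith
    linarith
  · push Not at hsmall
    refine le_trans ?_ hmain
    apply mul_le_mul_of_nonneg_left _ (by positivity)
    have h6 : p ^ 2 - p / 2 ^ J.card ≤ δ ^ 2 - δ / 2 ^ J.card := by
      have h7 : 1 / 2 ^ J.card ≤ p := by
        rw [div_le_iff₀ h2J]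
        exact hsmall
      have h8 : p ^ 2 - p / 2 ^ J.card = p * (p - 1 / 2 ^ J.card) := by ring
      have h9 : δ ^ 2 - δ / 2 ^ J.card = δ * (δ - 1 / 2 ^ J.card) := by ring
      rw [h8, h9]
      apply mul_le_mul hpδ (by linarith) (by linarith) (by linarith)
    linarith

/-- The sum over the bits, from the sums over the blocks. -/
lemma blocks (f : Fin N → ℝ) (hf : ∀ i, 0 ≤ f i) (k : ℕ) (hk : 0 < k) (L : ℝ)
    (h : ∀ J : Finset (Fin N), J.card = k → L ≤ ∑ i ∈ J, f i) :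
    ((N / k : ℕ) : ℝ) * L ≤ ∑ i, f i := by
  classical
  let B : ℕ → Finset (Fin N) := fun b => univ.filter fun i => (i : ℕ) / k = b
  have hcard : ∀ b < N / k, (B b).card = k := by
    intro b hb
    have h1 : (B b).map Fin.valEmbedding = Finset.Ico (b * k) ((b + 1) * k) := by
      ext i
      simp only [B, Finset.mem_map, Finset.mem_filter, Finset.mem_univ, true_and,
        Fin.valEmbedding_apply, Finset.mem_Ico]
      constructor
      · rintro ⟨j, hj, rfl⟩
        rw [← hj]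
        exact ⟨Nat.div_mul_le_self _ _, Nat.lt_mul_of_div_lt (Nat.lt_succ_self _) hk⟩
      · rintro ⟨h2, h3⟩
        have h4 : (b + 1) * k ≤ N := (Nat.le_div_iff_mul_le hk).1 hb
        exact ⟨⟨i, by omega⟩, Nat.div_eq_of_lt_le h2 h3, rfl⟩
    have h2 := Finset.card_map (Fin.valEmbedding (n := N)) (s := B b)
    rw [h1, Nat.card_Ico] at h2
    rw [← h2]
    rw [Nat.add_mul, one_mul, Nat.add_sub_cancel_left]
  calc ((N / k : ℕ) : ℝ) * L = ∑ _b ∈ range (N / k), L := by
        rw [Finset.sum_const, Finset.card_range, nsmul_eq_mul]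
    _ ≤ ∑ b ∈ range (N / k), ∑ i ∈ B b, f i :=
        Finset.sum_le_sum fun b hb => h (B b) (hcard b (Finset.mem_range.1 hb))
    _ = ∑ i ∈ (range (N / k)).biUnion B, f i := by
        rw [Finset.sum_biUnion]
        intro b _ b' _ hne
        rw [Function.onFun, Finset.disjoint_left]
        intro i hi hi'
        apply hne
        rw [← (Finset.mem_filter.1 hi).2, ← (Finset.mem_filter.1 hi').2]
    _ ≤ ∑ i, f i := Finset.sum_le_sum_of_subset_of_nonneg (Finset.subset_univ _)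
        fun i _ _ => hf i

/-- Sensitive maps do not have small formulas. -/
theorem Sensitive.formulas {C : (Fin N → Bool) → Fin N → Bool} {p ε : ℝ}
    (hC : Sensitive C p ε) (φ : Fin N → Formula N) (hφ : ∀ z j, C z j = (φ j).eval z)
    (k : ℕ) (hk : 0 < k) (hkN : 64 * k ≤ N) :
    ((N / k : ℕ) : ℝ) * (2 * ((N / 64 : ℕ) : ℝ) * (p ^ 2 - p / 2 ^ k - ε)) ≤
      ∑ j, Real.sqrt (φ j).leaves := by
  have h1 := blocks (N := N) (fun i => (flips C i : ℝ) / 2 ^ N) (fun i => by positivity) k hk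
    (2 * ((N / 64 : ℕ) : ℝ) * (p ^ 2 - p / 2 ^ k - ε)) (by
      intro J hJ
      have := hC J (by rw [hJ]; exact hkN)
      rw [hJ] at this
      rwa [Finset.sum_div] at this)
  refine h1.trans ?_
  rw [← Finset.sum_div, div_le_iff₀ (by positivity)]
  have h2 := flips_le C φ hφ
  push_cast at h2
  linarith

end Pool.Agent.Y603.CC
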