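import Pool.Agent.Y603.CC.Sens
import Pool.Agent.Y603.CC.Rsa

/-!
# The sensitivity of inverters of the classical candidates
-/

set_option autoImplicit false

namespace Pool.Agent.Y603.CC

open Finset Pool.Agent.Y603.MS Polynomial

variable {N : ℕ}

lemma Sep.mono {F : (Fin N → Bool) → Fin N → Bool} {K₁ K₂ A A' : ℕ} (h : Sep F K₁ K₂ A)
    (hA : A ≤ A') : Sep F K₁ K₂ A' := by
  obtain ⟨T, h1, h2⟩ := h
  exact ⟨T, h1.trans hA, h2⟩

lemma sp_mono (N K : ℕ) : sp N K ≤ sp (N + 1) K := by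
  unfold sp
  refine Finset.card_le_card_of_injOn (fun σ => (Fin.cons 0 σ : Fin (N + 1) → Fin 3)) ?_ ?_
  · intro σ hσ
    refine Finset.mem_coe.2 (Finset.mem_filter.2 ⟨Finset.mem_univ _, ?_⟩)
    refine le_trans ?_ (Finset.mem_filter.1 hσ).2
    rw [← Finset.card_map (Fin.succEmb N)]
    refine Finset.card_le_card ?_
    intro i hi
    have hi' := (Finset.mem_filter.1 hi).2
    refine Fin.cases (motive := fun i => (Fin.cons 0 σ : Fin (N + 1) → Fin 3) i ≠ 0 → i ∈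
      Finset.map (Fin.succEmb N) (univ.filter fun i => σ i ≠ 0)) ?_ ?_ i hi'
    · intro h
      exact absurd rfl h
    · intro j hj
      exact Finset.mem_map.2 ⟨j, Finset.mem_filter.2 ⟨Finset.mem_univ _, hj⟩, rfl⟩
  · intro σ _ τ _ h
    exact (Fin.cons_injective2 h).2

lemma one_le_sp (N K : ℕ) : 1 ≤ sp N K := by
  unfold sp
  refine Finset.card_pos.2 ⟨fun _ => 0, Finset.mem_filter.2 ⟨Finset.mem_univ _, ?_⟩⟩
  simp

lemma sp_sp {K₁ K₂ : ℕ} (h₁ : 64 * K₁ ≤ N) (h₂ : 64 * K₂ ≤ N) :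
    sp N K₂ * sp N K₁ ≤ 2 ^ (N - 2 * N / 3) := by
  rw [← Nat.pow_le_pow_iff_left (n := 6) (by norm_num)]
  calc (sp N K₂ * sp N K₁) ^ 6 = sp N K₂ ^ 6 * sp N K₁ ^ 6 := mul_pow _ _ _
    _ ≤ 2 ^ N * 2 ^ N := Nat.mul_le_mul (sp_le h₂) (sp_le h₁)
    _ = 2 ^ (2 * N) := by rw [← pow_add]; congr 1; ring
    _ ≤ 2 ^ ((N - 2 * N / 3) * 6) := Nat.pow_le_pow_right (by norm_num) (by omega)
    _ = (2 ^ (N - 2 * N / 3)) ^ 6 := by rw [← pow_mul]

lemma half_two {a : ℕ} (h : a ≤ N) : ((2 : ℝ) ^ (N - a)) = (1 / 2) ^ a * 2 ^ N := by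
  have h1 : (2 : ℝ) ^ N = 2 ^ a * 2 ^ (N - a) := by
    rw [← pow_add]
    congr 1
    omega
  rw [h1, ← mul_assoc, ← mul_pow]
  norm_num

open Classical in
/-- **The discrete logarithm in a field.** -/
theorem sens_field (C : (Fin N → Bool) → Fin N → Bool) {F : Type} [Field F] (e : Fin N → F)
    (enc : F → Fin N → Bool) (henc : ∀ x, dec e (enc x) = x) (g : F) (hg : g ≠ 0) :
    Sensitive C (((range (orderOf g)).filter fun x =>
      g ^ value (C (enc (g ^ x))) = g ^ x).card / 2 ^ N) ((1 / 2) ^ (2 * N / 3)) := by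
  refine sensitive_of_sep (fun a => enc (g ^ value a)) C (2 ^ (N - 2 * N / 3)) _ _
    (fun K₁ K₂ h₁ h₂ => (sep_field e enc henc g hg K₁ K₂).mono (sp_sp h₁ h₂)) ?_ ?_
  · push_cast
    exact le_of_eq (half_two (by omega))
  · refine Finset.card_le_card_of_injOn (fun x => enc (g ^ x)) ?_ ?_
    · intro x hx
      refine Finset.mem_coe.2 (Finset.mem_filter.2 ⟨Finset.mem_univ _, ?_⟩)
      show enc (g ^ value (C (enc (g ^ x)))) = enc (g ^ x)
      rw [(Finset.mem_filter.1 hx).2]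
    · intro x hx y hy hxy
      have hx' := Finset.mem_range.1 (Finset.mem_filter.1 hx).1
      have hy' := Finset.mem_range.1 (Finset.mem_filter.1 hy).1
      have h1 : g ^ x = g ^ y := by
        rw [← henc (g ^ x), ← henc (g ^ y)]
        exact congrArg (dec e) hxy
      exact pow_injOn_Iio_orderOf hx' hy' h1

open Classical in
/-- **The discrete logarithm on an elliptic curve.** -/
theorem sens_curve (C : (Fin (N + 1) → Bool) → Fin (N + 1) → Bool) {F : Type} [Field F]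
    (e : Fin N → F) (enc : F → Fin N → Bool) (henc : ∀ x, dec e (enc x) = x)
    (W : WeierstrassCurve.Affine F) (sg : W.Point → Bool) (P : W.Point) :
    Sensitive C (((range (addOrderOf P)).filter fun x =>
      value (C (pcode W enc sg (x • P))) • P = x • P).card / 2 ^ (N + 1))
      (15 * (1 / 2) ^ (2 * (N + 1) / 3)) := by
  refine sensitive_of_sep (fun a => pcode W enc sg (value a • P)) C
    (15 * 2 ^ (N + 1 - 2 * (N + 1) / 3)) _ _
    (fun K₁ K₂ h₁ h₂ => (sep_curve e enc henc W sg P K₁ K₂).mono ?_) ?_ ?_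
  · have h3 := sp_mono N K₁
    have h4 := one_le_sp (N + 1) K₁
    calc sp (N + 1) K₂ * (3 + sp N K₁ * 12) ≤ sp (N + 1) K₂ * (15 * sp (N + 1) K₁) :=
          Nat.mul_le_mul_left _ (by omega)
      _ = 15 * (sp (N + 1) K₂ * sp (N + 1) K₁) := by ring
      _ ≤ _ := Nat.mul_le_mul_left _ (sp_sp h₁ h₂)
  · push_cast
    rw [mul_assoc]
    exact le_of_eq (congrArg (fun t => (15 : ℝ) * t) (half_two (by omega)))
  · refine Finset.card_le_card_of_injOn (fun x => pcode W enc sg (x • P)) ?_ ?_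
    · intro x hx
      refine Finset.mem_coe.2 (Finset.mem_filter.2 ⟨Finset.mem_univ _, ?_⟩)
      show pcode W enc sg (value (C (pcode W enc sg (x • P))) • P) = pcode W enc sg (x • P)
      rw [((@Finset.mem_filter _ _ (_) _ _).1 hx).2]
    · intro x hx y hy hxy
      obtain ⟨h1, h2⟩ := (@Finset.mem_filter _ _ (_) _ _).1 hx
      obtain ⟨h3, h4⟩ := (@Finset.mem_filter _ _ (_) _ _).1 hy
      simp only at hxy
      have h5 : x • P = y • P := by rw [← h2, ← h4, hxy]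
      exact nsmul_injOn_Iio_addOrderOf (Finset.mem_range.1 h1) (Finset.mem_range.1 h3) h5

lemma sp_sp_B {K₁ K₂ B : ℕ} (h₁ : 64 * K₁ ≤ N) (h₂ : 64 * K₂ ≤ N) (hB : B ^ 12 ≤ 2 ^ (7 * N)) :
    sp N K₂ * sp N K₁ * B ≤ 2 ^ (N - N / 12) := by
  rw [← Nat.pow_le_pow_iff_left (n := 12) (by norm_num)]
  calc (sp N K₂ * sp N K₁ * B) ^ 12 = (sp N K₂ ^ 6) ^ 2 * (sp N K₁ ^ 6) ^ 2 * B ^ 12 := by ring
    _ ≤ (2 ^ N) ^ 2 * (2 ^ N) ^ 2 * 2 ^ (7 * N) :=
        Nat.mul_le_mul (Nat.mul_le_mul (Nat.pow_le_pow_left (sp_le h₂) 2)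
          (Nat.pow_le_pow_left (sp_le h₁) 2)) hB
    _ = 2 ^ (11 * N) := by rw [← pow_mul, ← pow_add, ← pow_add]; congr 1; ring
    _ ≤ 2 ^ ((N - N / 12) * 12) := Nat.pow_le_pow_right (by norm_num) (by omega)
    _ = (2 ^ (N - N / 12)) ^ 12 := by rw [← pow_mul]

open Classical in
/-- **Functions of small differential uniformity.** -/
theorem sens_differential (C : (Fin N → Bool) → Fin N → Bool) {R R' : Type} [AddCommGroup R]
    [AddCommGroup R'] (e : Fin N → R) (e' : Fin N → R')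
    (enc : R' → Fin N → Bool) (henc : ∀ y, dec e' (enc y) = y) (f : R → R') (B : ℕ)
    (hB : B ^ 12 ≤ 2 ^ (7 * N)) (hf : ∀ (δ : R) (η : R'), δ ≠ 0 → ∃ T : Finset R, T.card ≤ B ∧
      ∀ x, f (x + δ) - f x = η → x ∈ T) (Y : Finset R') :
    Sensitive C ((Y.filter fun y => f (dec e (C (enc y))) = y).card / 2 ^ N)
      ((1 / 2) ^ (N / 12)) := by
  refine sensitive_of_sep (fun a => enc (f (dec e a))) C (2 ^ (N - N / 12)) _ _
    (fun K₁ K₂ h₁ h₂ => (sep_differential e e' enc henc f B hf K₁ K₂).mono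
      (sp_sp_B h₁ h₂ hB)) ?_ ?_
  · push_cast
    exact le_of_eq (half_two (by omega))
  · refine Finset.card_le_card_of_injOn (fun y => enc y) ?_ ?_
    · intro y hy
      refine Finset.mem_coe.2 (Finset.mem_filter.2 ⟨Finset.mem_univ _, ?_⟩)
      show enc (f (dec e (C (enc y)))) = enc y
      rw [((@Finset.mem_filter _ _ (_) _ _).1 hy).2]
    · intro y _ y' _ hyy
      simp only at hyy
      rw [← henc y, ← henc y', hyy]

open Classical in
/-- The differential uniformity of a polynomial modulo a square-free number. -/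
lemma few_roots_mod12 {M : ℕ} [NeZero M] (hMN : M ≤ 2 ^ N) (hM : Squarefree M) (P : ℤ[X])
    (hP : 2 ≤ P.natDegree)
    (hl : ∀ l : ℕ, l.Prime → l ∣ M → ¬ (l : ℤ) ∣ P.natDegree * P.leadingCoeff ∧
      2 ^ (5 * N) * (P.natDegree - 1) ^ 12 ≤ l ^ 12)
    (δ η : ZMod M) (hδ : δ ≠ 0) : ∃ T : Finset (ZMod M), T.card ^ 12 ≤ 2 ^ (7 * N) ∧
      ∀ x : ZMod M, eval₂ (Int.castRingHom (ZMod M)) (x + δ) P -
        eval₂ (Int.castRingHom (ZMod M)) x P = η → x ∈ T := by
  obtain ⟨l, hlp, hlM, hδl⟩ := exists_prime_not_dvd hM δ hδ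
  have : Fact l.Prime := ⟨hlp⟩
  obtain ⟨h1, h2⟩ := hl l hlp hlM
  set φ := ZMod.castHom hlM (ZMod l) with hφ
  have hlc : ((P.leadingCoeff : ℤ) : ZMod l) ≠ 0 := by
    intro h
    apply h1
    rw [ZMod.intCast_zmod_eq_zero_iff_dvd] at h
    exact Dvd.dvd.mul_left h _
  have hdeg : (P.map (Int.castRingHom (ZMod l))).natDegree = P.natDegree :=
    natDegree_map_of_leadingCoeff_ne_zero _ hlc
  have hdc : (((P.map (Int.castRingHom (ZMod l))).natDegree : ℕ) : ZMod l) ≠ 0 := by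
    rw [hdeg]
    intro h
    apply h1
    rw [ZMod.natCast_eq_zero_iff] at h
    exact Dvd.dvd.mul_right (Int.natCast_dvd_natCast.2 h) _
  obtain ⟨T, hT1, hT2⟩ := few_roots (P.map (Int.castRingHom (ZMod l))) (by rw [hdeg]; exact hP)
    hdc (φ δ) (φ η) hδl
  refine ⟨univ.filter fun x : ZMod M => φ x ∈ T, ?_, ?_⟩
  · rw [card_lift M l hlM T]
    rw [hdeg] at hT1
    have hl0 : 0 < l ^ 12 := Nat.pow_pos hlp.pos
    apply Nat.le_of_mul_le_mul_right (c := 2 ^ (5 * N) * l ^ 12) _ (by positivity)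
    have h3 : M / l * l = M := Nat.div_mul_cancel hlM
    calc (T.card * (M / l)) ^ 12 * (2 ^ (5 * N) * l ^ 12) =
          T.card ^ 12 * (M / l * l) ^ 12 * 2 ^ (5 * N) := by
          rw [mul_pow, mul_pow]; ring
      _ = T.card ^ 12 * M ^ 12 * 2 ^ (5 * N) := by rw [h3]
      _ ≤ (P.natDegree - 1) ^ 12 * (2 ^ N) ^ 12 * 2 ^ (5 * N) := by gcongr
      _ = (2 ^ (5 * N) * (P.natDegree - 1) ^ 12) * (2 ^ N) ^ 12 := by ring
      _ ≤ l ^ 12 * (2 ^ N) ^ 12 := Nat.mul_le_mul_right _ h2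
      _ = 2 ^ (7 * N) * (2 ^ (5 * N) * l ^ 12) := by
          rw [← pow_mul, show N * 12 = 7 * N + 5 * N by ring, pow_add]; ring
  · intro x hx
    refine Finset.mem_filter.2 ⟨Finset.mem_univ _, hT2 _ ?_⟩
    have hcomp : φ.comp (Int.castRingHom (ZMod M)) = Int.castRingHom (ZMod l) :=
      RingHom.ext_int _ _
    have h4 := congrArg φ hx
    rw [map_sub, hom_eval₂, hom_eval₂, hcomp, map_add] at h4
    rw [eval_map, eval_map]
    exact h4

open Classical in
/-- **Polynomials modulo a square-free number.** -/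
theorem sens_poly (C : (Fin N → Bool) → Fin N → Bool) (M : ℕ) (hMN : M ≤ 2 ^ N)
    (hM : Squarefree M) (P : ℤ[X]) (hP : 2 ≤ P.natDegree)
    (hl : ∀ l : ℕ, l.Prime → l ∣ M → ¬ (l : ℤ) ∣ P.natDegree * P.leadingCoeff ∧
      2 ^ (5 * N) * (P.natDegree - 1) ^ 12 ≤ l ^ 12) :
    Sensitive C (((range M).filter fun y : ℕ =>
      P.eval (value (C (bits N y)) : ℤ) ≡ (y : ℤ) [ZMOD M]).card / 2 ^ N)
      ((1 / 2) ^ (N / 12)) := by
  rcases Nat.eq_zero_or_pos M with h0 | h0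
  · subst h0
    exact absurd hM not_squarefree_zero
  have : NeZero M := ⟨by omega⟩
  let e : Fin N → ZMod M := fun i => (2 : ZMod M) ^ (i : ℕ)
  let f : ZMod M → ZMod M := fun x => eval₂ (Int.castRingHom (ZMod M)) x P
  refine sensitive_of_sep (fun a => bits N (f (dec e a)).val) C (2 ^ (N - N / 12)) _ _
    (fun K₁ K₂ h₁ h₂ => ?_) ?_ ?_
  · -- a bound for the sizes of the sets
    obtain ⟨B, hB1, hB2⟩ : ∃ B : ℕ, B ^ 12 ≤ 2 ^ (7 * N) ∧
        ∀ b : ℕ, b ^ 12 ≤ 2 ^ (7 * N) → b ≤ B := by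
      have hfin : ∀ b : ℕ, b ^ 12 ≤ 2 ^ (7 * N) → b ≤ 2 ^ (7 * N) := fun b hb =>
        (Nat.le_self_pow (by norm_num) b).trans hb
      refine ⟨Nat.findGreatest (fun b => b ^ 12 ≤ 2 ^ (7 * N)) (2 ^ (7 * N)), ?_, ?_⟩
      · exact Nat.findGreatest_spec (P := fun b => b ^ 12 ≤ 2 ^ (7 * N)) (m := 0)
          (Nat.zero_le _) (by simp)
      · intro b hb
        exact Nat.le_findGreatest (hfin b hb) hb
    refine (sep_differential e e (fun x => bits N x.val) (dec_bits hMN) f B ?_ K₁ K₂).mono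
      (sp_sp_B h₁ h₂ hB1)
    intro δ η hδ
    obtain ⟨T, h1, h2⟩ := few_roots_mod12 hMN hM P hP hl δ η hδ
    exact ⟨T, hB2 _ h1, h2⟩
  · push_cast
    exact le_of_eq (half_two (by omega))
  · refine Finset.card_le_card_of_injOn (fun y : ℕ => bits N y) ?_ ?_
    · intro y hy
      obtain ⟨h1, h2⟩ := (@Finset.mem_filter _ _ (_) _ _).1 hy
      refine Finset.mem_coe.2 (Finset.mem_filter.2 ⟨Finset.mem_univ _, ?_⟩)
      show bits N (f (dec e (C (bits N y)))).val = bits N y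
      have h3 : f (dec e (C (bits N y))) = (y : ZMod M) := by
        simp only [f, e]
        rw [dec_natCast, eval₂_nat]
        rw [← ZMod.intCast_eq_intCast_iff] at h2
        rw [h2, Int.cast_natCast]
      rw [h3, ZMod.val_natCast, Nat.mod_eq_of_lt (Finset.mem_range.1 h1)]
    · intro y hy y' hy' hyy
      have h1 := Finset.mem_range.1 ((@Finset.mem_filter _ _ (_) _ _).1 hy).1
      have h2 := Finset.mem_range.1 ((@Finset.mem_filter _ _ (_) _ _).1 hy').1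
      have h3 : value (bits N y) = value (bits N y') := congrArg value hyy
      rwa [value_bits (h1.trans_le hMN), value_bits (h2.trans_le hMN)] at h3

end Pool.Agent.Y603.CC
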