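import Pool.Agent.Y603.CC.Curve
import Pool.Agent.Y603.CC.Aval

/-!
# The number of sparse differences, and the sensitivity of inverters
-/

set_option autoImplicit false

namespace Pool.Agent.Y603.CC

open Finset Pool.Agent.Y603.MS

variable {N : ℕ}

/-- The vectors of signs with at most `K` nonzero entries. -/
def signs (N K : ℕ) : Finset (Fin N → Fin 3) :=
  univ.filter fun σ => (univ.filter fun i => σ i ≠ 0).card ≤ K

/-- The number of sparse vectors of signs. -/
def sp (N K : ℕ) : ℕ := (signs N K).card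

lemma sp_mul (N K : ℕ) : sp N K * 64 ^ N ≤ 66 ^ N * 64 ^ K := by
  have h1 : ∑ σ : Fin N → Fin 3, ∏ i, (if σ i = 0 then 64 else 1) = 66 ^ N := by
    have h := Finset.prod_univ_sum (fun _ : Fin N => (univ : Finset (Fin 3)))
      (fun _ (a : Fin 3) => if a = 0 then 64 else 1)
    rw [Fintype.piFinset_univ] at h
    rw [← h]
    have h2 : ∑ a : Fin 3, (if a = 0 then 64 else 1) = 66 := by decide
    rw [Finset.prod_congr rfl fun i _ => h2, Finset.prod_const, Finset.card_univ, Fintype.card_fin]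
  have h2 : ∀ σ ∈ signs N K, 64 ^ N ≤ (∏ i, (if σ i = 0 then 64 else 1)) * 64 ^ K := by
    intro σ hσ
    have h3 : (64 : ℕ) ^ N = (∏ i, (if σ i = 0 then 64 else 1)) *
        ∏ i, (if σ i ≠ 0 then 64 else 1) := by
      rw [← Finset.prod_mul_distrib]
      have h4 : ∀ i, (if σ i = 0 then 64 else 1) * (if σ i ≠ 0 then 64 else 1) = 64 := by
        intro i
        by_cases h : σ i = 0 <;> simp [h]
      rw [Finset.prod_congr rfl fun i _ => h4 i, Finset.prod_const, Finset.card_univ,
        Fintype.card_fin]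
    rw [h3]
    refine Nat.mul_le_mul_left _ ?_
    rw [Finset.prod_ite, Finset.prod_const, Finset.prod_const_one, mul_one]
    exact Nat.pow_le_pow_right (by norm_num) (Finset.mem_filter.1 hσ).2
  unfold sp
  rw [← smul_eq_mul, ← Finset.sum_const]
  calc ∑ _σ ∈ signs N K, 64 ^ N ≤ ∑ σ ∈ signs N K, (∏ i, (if σ i = 0 then 64 else 1)) * 64 ^ K :=
        Finset.sum_le_sum h2
    _ = (∑ σ ∈ signs N K, ∏ i, (if σ i = 0 then 64 else 1)) * 64 ^ K := by rw [Finset.sum_mul]
    _ ≤ (∑ σ : Fin N → Fin 3, ∏ i, (if σ i = 0 then 64 else 1)) * 64 ^ K :=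
        Nat.mul_le_mul_right _ (Finset.sum_le_sum_of_subset (Finset.subset_univ _))
    _ = 66 ^ N * 64 ^ K := by rw [h1]

lemma sp_le {N K : ℕ} (h : 64 * K ≤ N) : sp N K ^ 6 ≤ 2 ^ N := by
  rw [← Nat.pow_le_pow_iff_left (n := 16) (by norm_num)]
  have h0 := sp_mul N K
  have h1 : (66 : ℕ) ^ 96 ≤ 2 ^ 7 * 64 ^ 96 := by norm_num
  have e1 : (66 ^ N * 64 ^ K) ^ 96 = (66 ^ 96) ^ N * (64 ^ K) ^ 96 := by
    rw [mul_pow, ← pow_mul, ← pow_mul 66 96 N, mul_comm N 96]
  have e2 : (64 ^ K) ^ 96 = 2 ^ (9 * (64 * K)) := by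
    rw [show (64 : ℕ) = 2 ^ 6 by norm_num, ← pow_mul, ← pow_mul]
    congr 1
    ring
  have e3 : (2 ^ 7 * 64 ^ 96) ^ N = 2 ^ (7 * N) * (64 ^ N) ^ 96 := by
    rw [mul_pow, ← pow_mul, ← pow_mul, ← pow_mul, mul_comm 96 N]
  have e4 : (2 ^ N) ^ 16 = 2 ^ (7 * N) * 2 ^ (9 * N) := by
    rw [← pow_mul, ← pow_add]
    congr 1
    ring
  apply Nat.le_of_mul_le_mul_right (c := (64 ^ N) ^ 96) _ (by positivity)
  calc (sp N K ^ 6) ^ 16 * (64 ^ N) ^ 96 = (sp N K * 64 ^ N) ^ 96 := by
        rw [← pow_mul, mul_pow]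
    _ ≤ (66 ^ N * 64 ^ K) ^ 96 := Nat.pow_le_pow_left h0 _
    _ = (66 ^ 96) ^ N * 2 ^ (9 * (64 * K)) := by rw [e1, e2]
    _ ≤ (2 ^ 7 * 64 ^ 96) ^ N * 2 ^ (9 * N) := Nat.mul_le_mul (Nat.pow_le_pow_left h1 _)
        (Nat.pow_le_pow_right (by norm_num) (by omega))
    _ = (2 ^ N) ^ 16 * (64 ^ N) ^ 96 := by rw [e3, e4]; ring

variable {R : Type} [AddCommGroup R]

open Classical in
/-- The sparse differences. -/
noncomputable def Dg (e : Fin N → R) (K : ℕ) : Finset R :=
  (signs N K).image fun σ => ∑ i, (if σ i = 0 then 0 else if σ i = 1 then e i else - e i)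

lemma card_Dg (e : Fin N → R) (K : ℕ) : (Dg e K).card ≤ sp N K := by
  classical
  unfold Dg
  exact Finset.card_image_le

lemma dec_diff2 (e : Fin N → R) (K : ℕ) (x y : Fin N → Bool) (h : hd x y ≤ K) :
    dec e y - dec e x ∈ Dg e K := by
  classical
  unfold Dg
  rw [Finset.mem_image]
  refine ⟨fun i => if x i = y i then 0 else if y i = true then 1 else 2, ?_, ?_⟩
  · refine Finset.mem_filter.2 ⟨Finset.mem_univ _, le_trans (Finset.card_le_card ?_) h⟩
    intro i hi
    refine Finset.mem_filter.2 ⟨Finset.mem_univ _, ?_⟩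
    intro hxy
    have := (Finset.mem_filter.1 hi).2
    simp [hxy] at this
  · unfold dec
    rw [← Finset.sum_sub_distrib]
    refine Finset.sum_congr rfl fun i _ => ?_
    dsimp only
    by_cases hxy : x i = y i
    · simp [hxy]
    · by_cases hy : y i = true
      · have hx : x i = false := by
          rw [hy] at hxy
          simpa using hxy
        simp only [if_neg hxy, if_pos hy]
        simp [hx]
      · have hx : x i = true := by
          have hy' : y i = false := by simpa using hy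
          rw [hy'] at hxy
          simpa using hxy
        simp only [if_neg hxy, if_neg hy]
        simp [hx]

/-- The differences of integers with close binary digits. -/
lemma value_diff2 (K : ℕ) (x y : Fin N → Bool) (h : hd x y ≤ K) :
    (value y : ℤ) - value x ∈ Dg (fun i : Fin N => (2 : ℤ) ^ (i : ℕ)) K := by
  rw [← dec_two_pow, ← dec_two_pow]
  exact dec_diff2 _ K x y h

/-- `Sep` for exponentiation. -/
theorem sep_expo {Γ : Type} (E : ℕ → Γ) (code : Γ → Fin N → Bool) (c K₁ K₂ : ℕ)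
    (hE : ∀ δ : ℤ, ∃ T : Finset Γ, T.card ≤ c ∧
      ∀ a b : ℕ, (b : ℤ) - a = δ → E b ≠ E a → hd (code (E a)) (code (E b)) ≤ K₁ → E a ∈ T) :
    Sep (fun a => code (E (value a))) K₁ K₂ (sp N K₂ * c) := by
  classical
  choose T hT1 hT2 using hE
  refine ⟨(Dg (fun i : Fin N => (2 : ℤ) ^ (i : ℕ)) K₂).biUnion fun δ => (T δ).image code, ?_, ?_⟩
  · refine Finset.card_biUnion_le.trans ?_
    refine (Finset.sum_le_card_nsmul _ _ c fun δ _ => Finset.card_image_le.trans (hT1 δ)).trans ?_
    rw [smul_eq_mul]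
    exact Nat.mul_le_mul_right _ (card_Dg _ K₂)
  · intro a b hne hab hF
    rw [Finset.mem_biUnion]
    refine ⟨(value b : ℤ) - value a, value_diff2 K₂ a b hab, ?_⟩
    refine Finset.mem_image_of_mem _ (hT2 _ (value a) (value b) rfl ?_ hF)
    intro h
    exact hne (by dsimp only; rw [h])

/-- `Sep` for the multiplicative group of a field. -/
theorem sep_field {F : Type} [Field F] (e : Fin N → F) (enc : F → Fin N → Bool)
    (henc : ∀ x, dec e (enc x) = x) (g : F) (hg : g ≠ 0) (K₁ K₂ : ℕ) :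
    Sep (fun a => enc (g ^ value a)) K₁ K₂ (sp N K₂ * sp N K₁) := by
  classical
  refine sep_expo (fun x => g ^ x) enc (sp N K₁) K₁ K₂ fun δ => ?_
  refine ⟨(Dg e K₁).image fun η => η / (g ^ δ - 1), Finset.card_image_le.trans (card_Dg e K₁), ?_⟩
  intro a b hab hne hh
  have h1 : g ^ b = g ^ a * g ^ δ := by
    rw [← hab, zpow_sub₀ hg, zpow_natCast, zpow_natCast]
    field_simp
  have h2 : g ^ δ - 1 ≠ 0 := by
    intro h0
    apply hne
    rw [h1, sub_eq_zero.1 h0, mul_one]
  rw [Finset.mem_image]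
  refine ⟨g ^ b - g ^ a, ?_, ?_⟩
  · have h3 := dec_diff2 e K₁ _ _ hh
    rwa [henc, henc] at h3
  · rw [h1]
    field_simp

open Classical in
/-- `Sep` for elliptic curves. -/
theorem sep_curve {F : Type} [Field F] (e : Fin N → F) (enc : F → Fin N → Bool)
    (henc : ∀ x, dec e (enc x) = x) (W : WeierstrassCurve.Affine F) (sg : W.Point → Bool)
    (P : W.Point) (K₁ K₂ : ℕ) :
    Sep (fun a => pcode W enc sg (value a • P)) K₁ K₂ (sp (N + 1) K₂ * (3 + sp N K₁ * 12)) := by
  refine sep_expo (fun x => x • P) (pcode W enc sg) (3 + sp N K₁ * 12) K₁ K₂ fun δ => ?_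
  rcases hQ : δ • P with _ | ⟨a, b, hab⟩
  · refine ⟨∅, by simp, fun k l hkl hne _ => ?_⟩
    exfalso
    apply hne
    have h1 : (l : ℤ) = δ + k := by omega
    rw [← natCast_zsmul, ← natCast_zsmul, h1, add_zsmul, hQ]
    exact zero_add _
  · choose T hT1 hT2 using few_points W hab
    refine ⟨{0, WeierstrassCurve.Affine.Point.some a b hab,
      - WeierstrassCurve.Affine.Point.some a b hab} ∪ (Dg e K₁).biUnion T, ?_, ?_⟩
    · refine (Finset.card_union_le _ _).trans ?_
      have h1 : ({0, WeierstrassCurve.Affine.Point.some a b hab,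
          - WeierstrassCurve.Affine.Point.some a b hab} : Finset W.Point).card ≤ 3 :=
        Finset.card_le_three
      have h2 : ((Dg e K₁).biUnion T).card ≤ sp N K₁ * 12 := by
        refine Finset.card_biUnion_le.trans ?_
        refine (Finset.sum_le_card_nsmul _ _ 12 fun η _ => hT1 η).trans ?_
        rw [smul_eq_mul]
        exact Nat.mul_le_mul_right _ (card_Dg e K₁)
      exact Nat.add_le_add h1 h2
    · intro k l hkl hne hh
      have h1 : (l : ℤ) = k + δ := by omega
      have h2 : l • P = k • P + WeierstrassCurve.Affine.Point.some a b hab := by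
        rw [← natCast_zsmul, ← natCast_zsmul, h1, add_zsmul, hQ]
      rw [h2] at hh
      rcases hk : k • P with _ | ⟨x, y, hxy⟩
      · exact Finset.mem_union_left _ (Finset.mem_insert_self _ _)
      · rw [hk] at hh
        by_cases hxa : x = a
        · apply Finset.mem_union_left
          have h3 := (WeierstrassCurve.Affine.Point.X_eq_iff (h₁ := hxy) (h₂ := hab)).1 hxa
          rcases h3 with h3 | h3
          · rw [h3]; simp
          · rw [h3]; simp
        · apply Finset.mem_union_right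
          have h4 := WeierstrassCurve.Affine.Point.add_of_X_ne (h₁ := hxy) (h₂ := hab) hxa
          obtain ⟨x', y', h', hadd⟩ : ∃ x' y', ∃ h' : W.Nonsingular x' y',
              WeierstrassCurve.Affine.Point.some x y hxy +
                WeierstrassCurve.Affine.Point.some a b hab =
              WeierstrassCurve.Affine.Point.some x' y' h' := ⟨_, _, _, h4⟩
          rw [hadd] at hh
          have h5 : hd (enc x) (enc x') ≤ K₁ := (hd_cons _ _ _ _).trans hh
          have h6 := dec_diff2 e K₁ _ _ h5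
          rw [henc, henc] at h6
          exact Finset.mem_biUnion.2 ⟨x' - x, h6, hT2 _ x y x' y' hxy h' hxa hadd rfl⟩

/-- `Sep` for functions of small differential uniformity. -/
theorem sep_differential {R R' : Type} [AddCommGroup R] [AddCommGroup R'] (e : Fin N → R)
    (e' : Fin N → R') (enc : R' → Fin N → Bool) (henc : ∀ y, dec e' (enc y) = y) (f : R → R')
    (B : ℕ) (hf : ∀ (δ : R) (η : R'), δ ≠ 0 → ∃ T : Finset R, T.card ≤ B ∧
      ∀ x, f (x + δ) - f x = η → x ∈ T) (K₁ K₂ : ℕ) :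
    Sep (fun a => enc (f (dec e a))) K₁ K₂ (sp N K₂ * sp N K₁ * B) := by
  classical
  have hf' : ∀ (δ : R) (η : R'), ∃ T : Finset R, T.card ≤ B ∧
      (δ ≠ 0 → ∀ x, f (x + δ) - f x = η → x ∈ T) := by
    intro δ η
    by_cases h : δ = 0
    · exact ⟨∅, by simp, fun h' => absurd h h'⟩
    · obtain ⟨T, h1, h2⟩ := hf δ η h
      exact ⟨T, h1, fun _ => h2⟩
  choose T hT1 hT2 using hf'
  refine ⟨(Dg e K₂ ×ˢ Dg e' K₁).biUnion fun p => (T p.1 p.2).image fun x => enc (f x), ?_, ?_⟩
  · refine Finset.card_biUnion_le.trans ?_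
    refine (Finset.sum_le_card_nsmul _ _ B fun p _ =>
      Finset.card_image_le.trans (hT1 p.1 p.2)).trans ?_
    rw [smul_eq_mul, Finset.card_product]
    exact Nat.mul_le_mul_right _ (Nat.mul_le_mul (card_Dg e K₂) (card_Dg e' K₁))
  · intro a b hne hab hF
    rw [Finset.mem_biUnion]
    refine ⟨(dec e b - dec e a, f (dec e b) - f (dec e a)), Finset.mem_product.2
      ⟨dec_diff2 e K₂ a b hab, ?_⟩, ?_⟩
    · have h := dec_diff2 e' K₁ _ _ hF
      rwa [henc, henc] at h
    · refine Finset.mem_image_of_mem (fun x => enc (f x)) (hT2 _ _ ?_ _ ?_)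
      · intro h
        apply hne
        have : dec e a = dec e b := (sub_eq_zero.1 h).symm
        simp only [this]
      · simp only
        rw [add_sub_cancel]

end Pool.Agent.Y603.CC
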